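import Pool.Agent.V5helper62.MD.Mom

/-!
# Dyadic blocks
-/

set_option autoImplicit false

open MeasureTheory Set Filter Topology Metric

namespace Pool.Agent.V5helper62.MD

open Pool.Agent.Q48.MDS Complex

/-- the term of index `D`, for all natural numbers -/
noncomputable def gt (k M : ℕ) (z : Fin (k + 1) → ℂ) (D : ℕ) : ℂ := by
  classical exact if h : FundDisc D then tm k M ⟨D, h⟩ z else 0

theorem gt_of {k M : ℕ} {z : Fin (k + 1) → ℂ} {D : ℕ} (h : FundDisc D) :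
    gt k M z D = tm k M ⟨D, h⟩ z := by
  unfold gt
  rw [dif_pos h]

theorem gt_not {k M : ℕ} {z : Fin (k + 1) → ℂ} {D : ℕ} (h : ¬ FundDisc D) :
    gt k M z D = 0 := by
  unfold gt
  rw [dif_neg h]

theorem gt_small {k M : ℕ} {z : Fin (k + 1) → ℂ} {D : ℕ} (h : ¬ 1 < D) :
    gt k M z D = 0 := by
  by_cases h1 : FundDisc D
  · rw [gt_of h1]
    unfold tm
    have : D = 1 := by
      by_contra h2
      exact h (one_lt_of h1 h2)
    rw [if_pos this]
  · exact gt_not h1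

/-- the blocks -/
noncomputable def blk (k M : ℕ) (n : ℕ) (z : Fin (k + 1) → ℂ) : ℂ :=
  ∑ D ∈ Finset.Ico (2 ^ n) (2 ^ (n + 1)), gt k M z D

theorem gt_diff (k M D : ℕ) : Differentiable ℂ (fun z => gt k M z D) := by
  by_cases h : FundDisc D
  · have : (fun z => gt k M z D) = tm k M ⟨D, h⟩ := by funext z; exact gt_of h
    rw [this]
    exact tm_diff k M _
  · have : (fun z => gt k M z D) = fun _ => 0 := by funext z; exact gt_not h
    rw [this]
    exact differentiable_const _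

theorem blk_diff (k M n : ℕ) : Differentiable ℂ (blk k M n) := by
  unfold blk
  exact Differentiable.fun_sum fun D _ => gt_diff k M D

theorem blk_zero (k M : ℕ) (z : Fin (k + 1) → ℂ) : blk k M 0 z = 0 := by
  unfold blk
  refine Finset.sum_eq_zero fun D hD => gt_small ?_
  rw [Finset.mem_Ico] at hD
  have := hD.2
  norm_num at this
  omega

theorem sum_blk (k M : ℕ) (z : Fin (k + 1) → ℂ) (n : ℕ) :
    ∑ m ∈ Finset.range n, blk k M m z = ∑ D ∈ Finset.range (2 ^ n), gt k M z D := by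
  induction n with
  | zero => simp [gt_small]
  | succ n ih =>
    rw [Finset.sum_range_succ, ih]
    unfold blk
    rw [Finset.range_eq_Ico, Finset.range_eq_Ico,
      Finset.sum_Ico_consecutive _ (Nat.zero_le _) (Nat.pow_le_pow_right (by norm_num) (by omega))]

theorem hasSum_gt {k M : ℕ} {z : Fin (k + 1) → ℂ} (h : Summable (fun d => tm k M d z)) :
    HasSum (gt k M z) (A1 k M z) := by
  have h1 : HasSum (fun d : {d : ℕ // FundDisc d} => tm k M d z) (A1 k M z) := h.hasSum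
  have h2 : (fun d : {d : ℕ // FundDisc d} => tm k M d z) = gt k M z ∘ Subtype.val := by
    funext d
    exact (gt_of d.2).symm
  rw [h2] at h1
  refine (Function.Injective.hasSum_iff Subtype.val_injective fun D hD => ?_).1 h1
  refine gt_not fun h3 => hD ⟨⟨D, h3⟩, rfl⟩

/-- the sum of the blocks -/
noncomputable def A2 (k M : ℕ) (z : Fin (k + 1) → ℂ) : ℂ :=
  ∑' d : {d : ℕ // True}, blk k M d z

theorem A2_eq {k M : ℕ} {z : Fin (k + 1) → ℂ} (h1 : Summable (fun d => tm k M d z))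
    (h2 : Summable (fun d : {d : ℕ // True} => blk k M d z)) : A2 k M z = A1 k M z := by
  have h3 : HasSum (fun d : {d : ℕ // True} => blk k M d z) (A2 k M z) := h2.hasSum
  have h4 : HasSum (fun n : ℕ => blk k M n z) (A2 k M z) := by
    refine (Function.Injective.hasSum_iff (g := (Subtype.val : {d : ℕ // True} → ℕ))
      Subtype.val_injective fun D hD => ?_).1 h3
    exact absurd ⟨⟨D, trivial⟩, rfl⟩ hD
  have h5 := h4.tendsto_sum_nat
  have h6 := (hasSum_gt h1).tendsto_sum_nat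
  have h7 : Tendsto (fun n : ℕ => 2 ^ n) atTop atTop :=
    tendsto_pow_atTop_atTop_of_one_lt (by norm_num)
  have h8 := h6.comp h7
  refine tendsto_nhds_unique h5 (h8.congr fun n => ?_)
  exact (sum_blk k M z n).symm

theorem prod_le_sum_pow {k : ℕ} (hk : 1 ≤ k) {a : Fin k → ℝ} (ha : ∀ j, 0 ≤ a j) :
    ∏ j, a j ≤ ∑ j, a j ^ k := by
  have hne : (Finset.univ : Finset (Fin k)).Nonempty := ⟨⟨0, by omega⟩, Finset.mem_univ _⟩
  obtain ⟨i, _, hi⟩ := Finset.exists_max_image Finset.univ a hne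
  calc ∏ j, a j ≤ ∏ _j : Fin k, a i := Finset.prod_le_prod (fun j _ => ha j) fun j hj => hi j hj
    _ = a i ^ k := by rw [Finset.prod_const, Finset.card_univ, Fintype.card_fin]
    _ ≤ ∑ j, a j ^ k := Finset.single_le_sum (f := fun j => a j ^ k)
        (fun j _ => pow_nonneg (ha j) k) (Finset.mem_univ i)

theorem norm_blk_le {k M : ℕ} (hk : 1 ≤ k) {z : Fin (k + 1) → ℂ} (hw : 0 ≤ (z 0).re) (n : ℕ) :
    ‖blk k M n z‖ ≤ ((2 : ℝ) ^ n) ^ (-(z 0).re) *
      ∑ j : Fin k, ∑ D ∈ FD (2 ^ (n + 1)), ‖Lf D (z j.succ)‖ ^ k := by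
  classical
  rw [Finset.sum_comm, Finset.mul_sum]
  unfold blk
  refine (norm_sum_le _ _).trans ?_
  have h1 : ∑ D ∈ Finset.Ico (2 ^ n) (2 ^ (n + 1)), ‖gt k M z D‖ =
      ∑ D ∈ (Finset.Ico (2 ^ n) (2 ^ (n + 1))).filter (fun D => D ∈ FD (2 ^ (n + 1))),
        ‖gt k M z D‖ := by
    refine (Finset.sum_filter_of_ne fun D hD hne => ?_).symm
    rw [mem_FD]
    refine ⟨⟨?_, (Finset.mem_Ico.1 hD).2.le⟩, ?_⟩
    · by_contra h
      exact hne (by rw [gt_small h, norm_zero])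
    · by_contra h
      exact hne (by rw [gt_not h, norm_zero])
  rw [h1]
  have hb : ∀ D : ℕ, 0 ≤ ((2 : ℝ) ^ n) ^ (-(z 0).re) * ∑ j : Fin k, ‖Lf D (z j.succ)‖ ^ k :=
    fun D => by positivity
  refine (Finset.sum_le_sum fun D hD => ?_).trans
    (Finset.sum_le_sum_of_subset_of_nonneg (fun D hD => (Finset.mem_filter.1 hD).2)
      fun D _ _ => hb D)
  obtain ⟨hD1, hD2⟩ := Finset.mem_filter.1 hD
  obtain ⟨⟨h2, _⟩, h3⟩ := mem_FD.1 hD2
  rw [gt_of h3]
  unfold tm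
  rw [if_neg (by show ¬ D = 1; omega), norm_mul, norm_mul,
    Complex.norm_natCast_cpow_of_pos (show 0 < D by omega), Complex.neg_re, norm_prod]
  have e1 := norm_kron_le D M
  have e2 := prod_le_sum_pow hk (a := fun j => ‖Lf D (z j.succ)‖) fun j => norm_nonneg _
  have h2n : (0 : ℝ) < (2 : ℝ) ^ n := by positivity
  have hD3 : ((2 : ℝ) ^ n) ≤ D := by exact_mod_cast (Finset.mem_Ico.1 hD1).1
  have e3 : (D : ℝ) ^ (-(z 0).re) ≤ ((2 : ℝ) ^ n) ^ (-(z 0).re) :=
    Real.rpow_le_rpow_of_nonpos h2n hD3 (by linarith)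
  calc ‖((kron D M : ℤ) : ℂ)‖ * (D : ℝ) ^ (-(z 0).re) * ∏ j : Fin k, ‖Lf D (z j.succ)‖
      ≤ 1 * ((2 : ℝ) ^ n) ^ (-(z 0).re) * ∑ j : Fin k, ‖Lf D (z j.succ)‖ ^ k := by
        gcongr
    _ = _ := by rw [one_mul]

theorem pow_decay {δ : ℝ} (hδ : 0 < δ) : ∃ B : ℝ, 0 ≤ B ∧ ∀ n : ℕ, 1 ≤ n →
    ((2 : ℝ) ^ n) ^ (-δ) ≤ B * (n : ℝ) ^ (-2 : ℝ) := by
  have hl : 0 < Real.log 2 := Real.log_pos (by norm_num)
  refine ⟨2 / (δ * Real.log 2) ^ 2, by positivity, fun n hn => ?_⟩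
  have hn0 : (0 : ℝ) < n := by exact_mod_cast hn
  set y : ℝ := δ * Real.log 2 * n with hy
  have hy0 : 0 < y := by positivity
  have e1 : ((2 : ℝ) ^ n) ^ (-δ) = Real.exp (-y) := by
    rw [Real.rpow_def_of_pos (by positivity), Real.log_pow]
    congr 1
    rw [hy]; ring
  have e2 : (n : ℝ) ^ (-2 : ℝ) = ((n : ℝ) ^ 2)⁻¹ := by
    rw [Real.rpow_neg hn0.le]
    congr 1
    exact_mod_cast Real.rpow_natCast (n : ℝ) 2
  have e3 := Real.quadratic_le_exp_of_nonneg hy0.le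
  rw [e1, e2, Real.exp_neg]
  have e4 : 2 / (δ * Real.log 2) ^ 2 * ((n : ℝ) ^ 2)⁻¹ = (y ^ 2 / 2)⁻¹ := by
    rw [hy]
    field_simp
  rw [e4]
  apply inv_anti₀ (by positivity)
  linarith

/-- **moments on the central line give the region on its right** -/
theorem mem_of_mom {k : ℕ} (hk : 1 ≤ k) {e : ℝ} (he : 1 ≤ e) (h : Mom k e) {M : ℕ}
    {p : Fin (k + 1) → ℝ} (h0 : e < p 0) (hj : ∀ j : Fin k, 1 / 2 < p j.succ) :
    ContinuesTo k M p := by
  obtain ⟨A, hA, hb⟩ := h ((p 0 - e) / 2) (by linarith)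
  set e' : ℝ := e + (p 0 - e) / 2 with he'
  have he'1 : 1 ≤ e' := by rw [he']; linarith
  have he'p : e' < p 0 := by rw [he']; linarith
  obtain ⟨C, N, hC, hb'⟩ := right_of_line_mom hk he'1 hA hb
  set U : Set (Fin (k + 1) → ℝ) := {x | e' < x 0} ∩ ⋂ j : Fin k, {x | 1 / 2 < x j.succ}
    with hU
  have hUo : IsOpen U := (isOpen_lt continuous_const (continuous_apply _)).inter
    (isOpen_iInter_of_finite fun j => isOpen_lt continuous_const (continuous_apply _))
  have hUj : ∀ x ∈ U, ∀ j : Fin k, 1 / 2 < x j.succ := fun x hx j => mem_iInter.1 hx.2 j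
  have hUc : Convex ℝ U := by
    have h1 : ∀ (i : Fin (k + 1)) (c : ℝ), Convex ℝ {x : Fin (k + 1) → ℝ | c < x i} := by
      intro i c x hx y hy a b ha hb hab
      exact (convex_Ioi c) hx hy ha hb hab
    exact (h1 0 _).inter (convex_iInter fun j => h1 j.succ _)
  have hdom : Dom U (fun (d : {d : ℕ // True}) => blk k M d) := by
    intro K hK hc
    obtain ⟨δ, hδ, hδK⟩ : ∃ δ : ℝ, 0 < δ ∧ ∀ x ∈ K, δ ≤ x 0 - e' := by
      rcases K.eq_empty_or_nonempty with h0 | h0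
      · exact ⟨1, by norm_num, by simp [h0]⟩
      · have hcont : Continuous (fun x : Fin (k + 1) → ℝ => x 0 - e') := by fun_prop
        obtain ⟨x, hx, hmin⟩ := hc.exists_isMinOn h0 hcont.continuousOn
        have hx0 : e' < x 0 := (hK hx).1
        exact ⟨x 0 - e', by linarith, fun y hy => hmin hy⟩
    obtain ⟨B, hB, hBn⟩ := pow_decay hδ
    refine ⟨k * C * 2 ^ e' * B, 2, N, by positivity, by norm_num, fun z hz d => ?_⟩
    have h1m := one_le_nim z
    show ‖blk k M (d : ℕ) z‖ ≤ _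
    rcases Nat.eq_zero_or_pos (d : ℕ) with hd0 | hd0
    · rw [hd0, blk_zero, norm_zero]
      positivity
    have hzU : (fun i => (z i).re) ∈ U := hK hz
    have hw : 0 ≤ (z 0).re := by
      have : e' < (z 0).re := hzU.1
      linarith
    refine (norm_blk_le hk hw (d : ℕ)).trans ?_
    have h2 : ∀ j : Fin k, ∑ D ∈ FD (2 ^ ((d : ℕ) + 1)), ‖Lf D (z j.succ)‖ ^ k ≤
        C * (1 + ‖fun i => (z i).im‖) ^ N * (2 ^ e' * ((2 : ℝ) ^ (d : ℕ)) ^ e') := by
      intro j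
      have h3 := hb' (2 ^ ((d : ℕ) + 1)) (Nat.one_le_pow _ _ (by norm_num)) (z j.succ)
        (hUj _ hzU j).le
      have h4 : |(z j.succ).im| ≤ ‖fun i => (z i).im‖ := norm_le_pi_norm (fun i => (z i).im) j.succ
      have h5 : (((2 ^ ((d : ℕ) + 1) : ℕ) : ℝ)) ^ e' = 2 ^ e' * ((2 : ℝ) ^ (d : ℕ)) ^ e' := by
        push_cast
        rw [pow_succ, mul_comm ((2 : ℝ) ^ (d : ℕ)) 2, Real.mul_rpow (by norm_num) (by positivity)]
      rw [h5] at h3
      refine h3.trans ?_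
      gcongr
    have h6 : ∑ j : Fin k, ∑ D ∈ FD (2 ^ ((d : ℕ) + 1)), ‖Lf D (z j.succ)‖ ^ k ≤
        k * (C * (1 + ‖fun i => (z i).im‖) ^ N * (2 ^ e' * ((2 : ℝ) ^ (d : ℕ)) ^ e')) := by
      refine (Finset.sum_le_sum fun j _ => h2 j).trans_eq ?_
      rw [Finset.sum_const, Finset.card_univ, Fintype.card_fin, nsmul_eq_mul]
    have h2d : (0 : ℝ) < (2 : ℝ) ^ (d : ℕ) := by positivity
    have h2d1 : (1 : ℝ) ≤ (2 : ℝ) ^ (d : ℕ) := one_le_pow₀ (by norm_num)
    have h7 : ((2 : ℝ) ^ (d : ℕ)) ^ (-(z 0).re) * ((2 : ℝ) ^ (d : ℕ)) ^ e' ≤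
        B * ((d : ℕ) : ℝ) ^ (-2 : ℝ) := by
      rw [← Real.rpow_add h2d]
      refine le_trans ?_ (hBn _ hd0)
      apply Real.rpow_le_rpow_of_exponent_le h2d1
      have := hδK _ hz
      linarith
    calc ((2 : ℝ) ^ (d : ℕ)) ^ (-(z 0).re) *
          ∑ j : Fin k, ∑ D ∈ FD (2 ^ ((d : ℕ) + 1)), ‖Lf D (z j.succ)‖ ^ k
        ≤ ((2 : ℝ) ^ (d : ℕ)) ^ (-(z 0).re) *
          (k * (C * (1 + ‖fun i => (z i).im‖) ^ N * (2 ^ e' * ((2 : ℝ) ^ (d : ℕ)) ^ e'))) := by
          gcongr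
      _ = k * C * (1 + ‖fun i => (z i).im‖) ^ N * 2 ^ e' *
          (((2 : ℝ) ^ (d : ℕ)) ^ (-(z 0).re) * ((2 : ℝ) ^ (d : ℕ)) ^ e') := by ring
      _ ≤ k * C * (1 + ‖fun i => (z i).im‖) ^ N * 2 ^ e' * (B * ((d : ℕ) : ℝ) ^ (-2 : ℝ)) := by
          gcongr
      _ = _ := by ring
  have h2 : ContinuesTo k M (fun _ => 2) := orth_mem fun i => by norm_num
  obtain ⟨Ω, G, _, hG⟩ := cont_of h2
  have htemp : Tempered U (fun z => A2 k M z * ∏ J : Finset (Fin k), (sigma J z - 1)) := by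
    have h1 : Tempered U (A2 k M) := hdom.tempered hUo fun d => (blk_diff k M d).differentiableOn
    exact tmul h1 (tprod _ fun J _ => tsigma U J)
  refine hG.glue hUo hUc htemp ?_ (fun z hz => ?_)
    (p := p) ⟨he'p, mem_iInter.2 hj⟩
  · obtain ⟨T, hT, hV⟩ := exists_addw_mem_V p
    refine ⟨addw T p, ⟨?_, mem_iInter.2 fun j => ?_⟩, hV⟩
    · exact he'p.trans_le (le_addw hT p 0)
    · exact (hj j).trans_le (le_addw hT p j.succ)
  · have h3 : z ∈ tube U := hz.1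
    have h4 : z ∈ tube (V k) := hz.2
    show A2 k M z * _ = F1 k M z
    unfold F1
    rw [A2_eq ((dom_V k M).summable h4) (hdom.summable h3)]

/-- from the region on the right of the central lines to the chamber -/
theorem chamber_of_right {k M : ℕ} {e : ℝ}
    (h : ∀ q : Fin (k + 1) → ℝ, e < q 0 → (∀ j : Fin k, 1 / 2 < q j.succ) → ContinuesTo k M q)
    {p : Fin (k + 1) → ℝ}
    (hp : ∀ J : Finset (Fin k), e < p 0 + ∑ j ∈ J, (p j.succ - 1 / 2)) :
    ContinuesTo k M p := by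
  classical
  have hk : (0 : ℝ) ≤ k := Nat.cast_nonneg k
  set S : Finset (Fin k) := Finset.univ.filter fun j => p j.succ < 1 / 2 with hS
  set q := rfS S p with hq
  have hq0 : e < q 0 := by rw [hq, rfS_zero]; exact hp S
  have hqj : ∀ j : Fin k, 1 / 2 ≤ q j.succ := by
    intro j
    rw [hq, rfS_succ]
    split_ifs with h1
    · have : p j.succ < 1 / 2 := (Finset.mem_filter.1 h1).2
      linarith
    · by_contra h2
      push Not at h2
      exact h1 (Finset.mem_filter.2 ⟨Finset.mem_univ _, h2⟩)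
  have hqD : ContinuesTo k M q := by
    obtain ⟨δ, hδ, hδ1⟩ : ∃ δ : ℝ, 0 < δ ∧ e < q 0 - k * δ := by
      refine ⟨(q 0 - e) / (2 * (1 + k)), by apply div_pos <;> linarith, ?_⟩
      have e1 : (k : ℝ) * ((q 0 - e) / (2 * (1 + k))) ≤ (q 0 - e) / 2 := by
        rw [mul_div_assoc', div_le_div_iff₀ (by positivity) (by norm_num)]
        nlinarith
      linarith
    set E : Finset (Fin k) := Finset.univ.filter fun j => q j.succ = 1 / 2 with hE
    have hEm : ∀ j, j ∈ E ↔ q j.succ = 1 / 2 := fun j => by simp [hE]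
    set r : Fin (k + 1) → ℝ := Fin.cons (q 0 - k * δ)
      (fun j => if j ∈ E then 1 / 2 + δ else q j.succ) with hr
    have hr0 : r 0 = q 0 - k * δ := by simp [hr]
    have hrj : ∀ j : Fin k, r j.succ = if j ∈ E then 1 / 2 + δ else q j.succ := fun j => by
      simp [hr]
    have h1 : ContinuesTo k M r := by
      refine h r (by rw [hr0]; exact hδ1) fun j => ?_
      rw [hrj]
      split_ifs with h2
      · linarith
      · exact lt_of_le_of_ne (hqj j) (fun h3 => h2 ((hEm j).2 h3.symm))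
    refine (fold_mem h1 E).up fun i => ?_
    refine Fin.cases ?_ (fun j => ?_) i
    · rw [fold_zero, hr0]
      have h3 : ∑ j ∈ E, (r j.succ - 1 / 2) = E.card * δ := by
        rw [Finset.sum_congr rfl (fun j hj => by rw [hrj, if_pos hj]), Finset.sum_const,
          nsmul_eq_mul]
        ring
      rw [h3]
      have h4 : (E.card : ℝ) ≤ k := by
        exact_mod_cast (Finset.card_le_univ E).trans_eq (Fintype.card_fin k)
      nlinarith
    · rw [fold_succ]
      split_ifs with h2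
      · exact ((hEm j).1 h2).ge
      · rw [hrj, if_neg h2]
  have := rfS_mem hqD S
  rwa [hq, rfS_rfS] at this

/-- **moments give the whole chamber** -/
theorem chamber_of_mom {k : ℕ} (hk : 1 ≤ k) {e : ℝ} (he : 1 ≤ e) (h : Mom k e) {M : ℕ}
    {p : Fin (k + 1) → ℝ}
    (hp : ∀ J : Finset (Fin k), e < p 0 + ∑ j ∈ J, (p j.succ - 1 / 2)) :
    ContinuesTo k M p :=
  chamber_of_right (fun _ h0 hj => mem_of_mom hk he h h0 hj) hp

end Pool.Agent.V5helper62.MD
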