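import Pool.Agent.Q48.MDS.Local
import Pool.Agent.Q48.MDS.Glue
import Pool.Agent.W215.QP.Fe

/-!
# The characters of the positive fundamental discriminants
-/

set_option autoImplicit false

namespace Pool.Agent.V5helper62.MD

open Pool.Agent.Q48.MDS Pool.Agent.H306R2.RG Pool.Agent.H306R2.RZ

theorem odd_part {n : ℕ} (hn : n ≠ 0) : Odd (n / 2 ^ n.factorization 2) := by
  have h := Nat.not_dvd_ordCompl Nat.prime_two hn
  rw [← Nat.not_even_iff_odd, even_iff_two_dvd]
  exact h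

theorem not_isSquare {D : ℕ} (h1 : 1 < D) (hs : Squarefree D) : ¬ IsSquare ((1 : ℤ) * (D : ℤ)) := by
  rw [one_mul]
  rintro ⟨a, ha⟩
  have h2 : D = a.natAbs * a.natAbs := by
    have := congrArg Int.natAbs ha
    rwa [Int.natAbs_natCast, Int.natAbs_mul] at this
  have h3 := hs a.natAbs ⟨1, by rw [mul_one]; exact h2⟩
  rw [Nat.isUnit_iff] at h3
  rw [h3] at h2
  omega

/-- the family of the positive fundamental discriminants in the library -/
theorem exists_fam {D : ℕ} (hD : FundDisc D) (h1 : 1 < D) : ∃ (φ : FD) (d : ℕ), Fam φ ∧ φ.A d ∧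
    Squarefree d ∧ φ.r * d = D ∧ φ.a = 0 ∧ ∀ n : ℕ, n ≠ 0 → cf φ d n = ((kron D n : ℤ) : ℝ) := by
  rcases hD with ⟨h4, hs⟩ | ⟨m, rfl, hm, hs⟩
  · have h8 : D % 8 = 1 ∨ D % 8 = 5 := by omega
    rcases h8 with h8 | h8
    · refine ⟨F1 1 1, D, ⟨1, Or.inl rfl, Or.inr (Or.inr (Or.inl rfl))⟩, ⟨by omega, not_isSquare h1 hs⟩,
        hs, by simp [F1], by simp [F1], fun n hn => ?_⟩
      have hk : kronTwo D = 1 := by unfold kronTwo; simp [h8]
      unfold cf jo kron js
      rw [← Nat.factorization_def n Nat.prime_two, if_pos (odd_part hn), hk]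
      simp [F1]
    · refine ⟨F1 1 5, D, ⟨1, Or.inl rfl, Or.inr (Or.inr (Or.inr rfl))⟩, ⟨by omega, not_isSquare h1 hs⟩,
        hs, by simp [F1], by simp [F1], fun n hn => ?_⟩
      have hk : kronTwo D = -1 := by unfold kronTwo; simp [h8]
      unfold cf jo kron js
      rw [← Nat.factorization_def n Nat.prime_two, if_pos (odd_part hn), hk]
      simp [F1]
  · have hk : kronTwo (4 * m) = 0 := by
      unfold kronTwo
      rw [if_neg (by omega), if_neg (by omega)]
    have hj : ∀ n : ℕ, n ≠ 0 → jacobiSym ((4 * m : ℕ) : ℤ) (n / 2 ^ n.factorization 2) =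
        jacobiSym (m : ℤ) (n / 2 ^ n.factorization 2) := by
      intro n hn
      have hc : Int.gcd 2 ((n / 2 ^ n.factorization 2 : ℕ) : ℤ) = 1 := by
        rw [show (2 : ℤ) = ((2 : ℕ) : ℤ) from rfl, Int.gcd_natCast_natCast]
        exact (Nat.coprime_two_left).2 (odd_part hn)
      have h2 : ((4 * m : ℕ) : ℤ) = 2 ^ 2 * (m : ℤ) := by push_cast; ring
      rw [h2, jacobiSym.mul_left, jacobiSym.sq_one' hc, one_mul]
    rcases hm with hm | hm
    · obtain ⟨m', rfl⟩ : ∃ m', m = 2 * m' := ⟨m / 2, by omega⟩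
      have hodd : Odd m' := by rw [Nat.odd_iff]; omega
      have hs' : Squarefree m' := hs.squarefree_of_dvd ⟨2, by ring⟩
      refine ⟨F8 1, m', ⟨1, Or.inl rfl, Or.inl rfl⟩, hodd, hs', by simp only [F8]; ring,
        by simp [F8], fun n hn => ?_⟩
      unfold cf jo kron js
      rw [← Nat.factorization_def n Nat.prime_two, if_pos (odd_part hn), hk, hj n hn]
      simp [F8]
    · refine ⟨F4 1, m, ⟨1, Or.inl rfl, Or.inr (Or.inl rfl)⟩, ?_, hs, by simp [F4],
        by simp [F4], fun n hn => ?_⟩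
      · show ((1 : ℤ) * (m : ℤ)) % 4 = 3
        omega
      · unfold cf jo kron js
        rw [← Nat.factorization_def n Nat.prime_two, if_pos (odd_part hn), hk, hj n hn]
        simp [F4]

/-- the Kronecker symbol is an even primitive quadratic character -/
theorem exists_char {D : ℕ} (hD : FundDisc D) (h1 : 1 < D) : ∃ χ : DirichletCharacter ℂ D,
    χ.IsPrimitive ∧ χ ^ 2 = 1 ∧ χ ≠ 1 ∧ χ (-1) = 1 ∧
      ∀ n : ℕ, n ≠ 0 → χ (n : ZMod D) = ((kron D n : ℤ) : ℂ) := by
  obtain ⟨φ, d, hφ, hd, hs, hr, ha, hn⟩ := exists_fam hD h1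
  subst hr
  obtain ⟨_, χ, c1, c2, c3, c4, c5⟩ := LnkC.CC1 φ hφ d hd hs
  refine ⟨χ, c1, c2, c3, by rw [c5, if_pos ha], fun n hn0 => ?_⟩
  rw [c4 n hn0, hn n hn0]
  push_cast
  rfl

end Pool.Agent.V5helper62.MD
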