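import Pool.Agent.V5helper62.MD.Refl

/-!
# Averaging over the reflections; permutations; several dropped variables
-/

set_option autoImplicit false

open MeasureTheory Set Filter Topology Metric

namespace Pool.Agent.V5helper62.MD

open Pool.Agent.Q48.MDS Complex

/-- replace the coordinates `s_j`, `j ∈ S`, by `1/2` and `w` by `w + (1/2) ∑_{j ∈ S} (s_j - 1/2)` -/
noncomputable def fold {k : ℕ} (S : Finset (Fin k)) (p : Fin (k + 1) → ℝ) : Fin (k + 1) → ℝ :=
  Fin.cons (p 0 + (∑ j ∈ S, (p j.succ - 1 / 2)) / 2) (fun j => if j ∈ S then 1 / 2 else p j.succ)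

theorem fold_zero {k : ℕ} (S : Finset (Fin k)) (p : Fin (k + 1) → ℝ) :
    fold S p 0 = p 0 + (∑ j ∈ S, (p j.succ - 1 / 2)) / 2 := by simp [fold]

theorem fold_succ {k : ℕ} (S : Finset (Fin k)) (p : Fin (k + 1) → ℝ) (j : Fin k) :
    fold S p j.succ = if j ∈ S then 1 / 2 else p j.succ := by simp [fold]

theorem fold_insert {k : ℕ} {S : Finset (Fin k)} {j : Fin k} (hj : j ∉ S) (p : Fin (k + 1) → ℝ) :
    fold (insert j S) p = (1 / 2 : ℝ) • fold S p + (1 / 2 : ℝ) • rf j (fold S p) := by
  funext i
  simp only [Pi.add_apply, Pi.smul_apply, smul_eq_mul]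
  refine Fin.cases ?_ (fun i => ?_) i
  · rw [rf_zero, fold_zero, fold_zero, fold_succ, if_neg hj, Finset.sum_insert hj]
    ring
  · by_cases h : i = j
    · subst h
      rw [rf_self, fold_succ, fold_succ, if_pos (Finset.mem_insert_self _ _)]
      ring
    · rw [rf_ne j _ h, fold_succ, fold_succ]
      have : i ∈ insert j S ↔ i ∈ S := by simp [h]
      simp only [this]
      ring

theorem fold_mem {k M : ℕ} {p : Fin (k + 1) → ℝ} (h : ContinuesTo k M p) (S : Finset (Fin k)) :
    ContinuesTo k M (fold S p) := by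
  induction S using Finset.induction_on with
  | empty =>
    have : fold ∅ p = p := by
      funext i
      refine Fin.cases ?_ (fun i => ?_) i
      · rw [fold_zero]; simp
      · rw [fold_succ]; simp
    rw [this]; exact h
  | insert j S hj ih =>
    rw [fold_insert hj]
    exact convex_continuesTo k M ih (refl ih j) (by norm_num) (by norm_num) (by norm_num)

/-- `w + (1/2) ∑_j (s_j - 1/2)`, the level of the point -/
noncomputable def level {k : ℕ} (p : Fin (k + 1) → ℝ) : ℝ := p 0 + (∑ j : Fin k, (p j.succ - 1 / 2)) / 2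

/-- the point `s_1 = ... = s_k = 1/2` -/
noncomputable def mid (k : ℕ) (w : ℝ) : Fin (k + 1) → ℝ := Fin.cons w (fun _ => 1 / 2)

theorem mid_one (k : ℕ) : mid k 1 = center k := rfl

theorem level_mid (k : ℕ) (w : ℝ) : level (mid k w) = w := by simp [level, mid]

theorem fold_univ {k : ℕ} (p : Fin (k + 1) → ℝ) : fold Finset.univ p = mid k (level p) := by
  funext i
  refine Fin.cases ?_ (fun i => ?_) i
  · rw [fold_zero]; simp [mid, level]
  · rw [fold_succ]; simp [mid]

/-- **The points of the central line in the domain are described by the level.** -/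
theorem mid_iff {k M : ℕ} {w : ℝ} :
    ContinuesTo k M (mid k w) ↔ ∃ p, ContinuesTo k M p ∧ level p ≤ w := by
  constructor
  · intro h
    exact ⟨_, h, (level_mid k w).le⟩
  · rintro ⟨p, hp, hw⟩
    have h1 := fold_mem hp Finset.univ
    rw [fold_univ] at h1
    refine h1.up fun i => ?_
    refine Fin.cases ?_ (fun i => ?_) i
    · simpa [mid] using hw
    · simp [mid]

theorem orth_mem {k M : ℕ} {p : Fin (k + 1) → ℝ} (hp : p ∈ orth (k + 1)) : ContinuesTo k M p := by
  refine ⟨orth (k + 1), isOpen_orth _, ⟨⟨p, hp⟩, ?_⟩, subset_rfl, hp, F1 k M, ?_, ?_⟩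
  · refine Convex.isPreconnected ?_
    intro x hx y hy a b ha hb hab i
    have := hx i
    have := hy i
    simp only [Pi.add_apply, Pi.smul_apply, smul_eq_mul]
    rcases eq_or_lt_of_le ha with h | h
    · subst h
      have hb1 : b = 1 := by linarith
      subst hb1; linarith
    · nlinarith
  · exact tempered_F1 (isOpen_orth _) (dom_orth k M)
  · exact fun z hz => F1_eq M hz

/-- the convexity bound: `F_M` continues to the points with `s_j = 1/2`, `w > 1 + k/4` -/
theorem mid_convexity {k M : ℕ} {w : ℝ} (hw : 1 + (k : ℝ) / 4 < w) : ContinuesTo k M (mid k w) := by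
  rw [mid_iff]
  obtain ⟨δ, hδ⟩ : ∃ δ : ℝ, δ = (w - 1 - (k : ℝ) / 4) / (1 + k) := ⟨_, rfl⟩
  have hk : (0 : ℝ) ≤ k := Nat.cast_nonneg k
  have hδ0 : 0 < δ := by rw [hδ]; apply div_pos <;> linarith
  have hδ1 : δ * (1 + k) = w - 1 - (k : ℝ) / 4 := by rw [hδ]; field_simp
  refine ⟨fun _ => 1 + δ, orth_mem fun i => by linarith, ?_⟩
  unfold level
  simp only [Finset.sum_const, Finset.card_univ, Fintype.card_fin, nsmul_eq_mul]
  nlinarith

/-- permutations of `s_1, ..., s_k` -/
def perm {α : Type*} {k : ℕ} (π : Equiv.Perm (Fin k)) (x : Fin (k + 1) → α) : Fin (k + 1) → α :=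
  Fin.cons (x 0) (fun j => x (π j).succ)

theorem perm_zero {α : Type*} {k : ℕ} (π : Equiv.Perm (Fin k)) (x : Fin (k + 1) → α) :
    perm π x 0 = x 0 := by simp [perm]

theorem perm_succ {α : Type*} {k : ℕ} (π : Equiv.Perm (Fin k)) (x : Fin (k + 1) → α) (j : Fin k) :
    perm π x j.succ = x (π j).succ := by simp [perm]

theorem F_perm {k M : ℕ} (π : Equiv.Perm (Fin k)) (z : Fin (k + 1) → ℂ) :
    F k M (perm π z) = F k M z := by
  have h2 : ∀ g : ℂ → ℂ, ∏ j : Fin k, g (perm π z j.succ) = ∏ j : Fin k, g (z j.succ) := by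
    intro g
    simp_rw [perm_succ]
    exact Equiv.prod_comp π (fun j => g (z j.succ))
  have h3 : ∀ J : Finset (Fin k), sigma J (perm π z) = sigma (J.map π.toEmbedding) z := by
    intro J
    unfold sigma
    rw [perm_zero, Finset.card_map, Finset.sum_map]
    congr 1
  have h4 : ∏ J : Finset (Fin k), (sigma J (perm π z) - 1) =
      ∏ J : Finset (Fin k), (sigma J z - 1) := by
    simp_rw [h3]
    exact Equiv.prod_comp (Equiv.finsetCongr π) (fun J => sigma J z - 1)
  have h5 : A k M (perm π z) = A k M z := by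
    unfold A
    refine tsum_congr fun d => ?_
    rw [perm_zero, h2 (Lchi d)]
  unfold F
  rw [h4, h5, h2 riemannZeta]

theorem perm_mem' {k M : ℕ} (π : Equiv.Perm (Fin k)) {p : Fin (k + 1) → ℝ}
    (h : ContinuesTo k M (perm π p)) : ContinuesTo k M p := by
  obtain ⟨Ω, G, hpΩ, hG⟩ := cont_of h
  have hc : Continuous (perm π : (Fin (k + 1) → ℝ) → _) := by
    refine continuous_pi fun i => ?_
    refine Fin.cases ?_ (fun i => ?_) i
    · simp only [perm_zero]; fun_prop
    · simp only [perm_succ]; fun_prop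
  have hd : Differentiable ℂ (perm π : (Fin (k + 1) → ℂ) → (Fin (k + 1) → ℂ)) := by
    rw [differentiable_pi]
    intro i
    refine Fin.cases ?_ (fun i => ?_) i
    · simp only [perm_zero]; fun_prop
    · simp only [perm_succ]; fun_prop
  have hre : ∀ z : Fin (k + 1) → ℂ, (fun i => (perm π z i).re) = perm π (fun i => (z i).re) := by
    intro z
    funext i
    refine Fin.cases ?_ (fun i => ?_) i
    · rw [perm_zero, perm_zero]
    · rw [perm_succ, perm_succ]
  have horth : orth (k + 1) ⊆ {x | perm π x ∈ Ω} := by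
    intro x hx
    apply hG.orth
    intro i
    refine Fin.cases ?_ (fun i => ?_) i
    · rw [perm_zero]; exact hx 0
    · rw [perm_succ]; exact hx _
  refine ⟨{x | perm π x ∈ Ω}, hG.op.preimage hc, ⟨⟨p, hpΩ⟩, ?_⟩, horth, hpΩ,
    fun z => G (perm π z), ⟨?_, fun K hK hcK => ?_⟩, fun z hz => ?_⟩
  · refine Convex.isPreconnected ?_
    intro x hx y hy a b ha hb hab
    have e : perm π (a • x + b • y) = a • perm π x + b • perm π y := by
      funext i
      refine Fin.cases ?_ (fun i => ?_) i
      · simp only [perm_zero, Pi.add_apply, Pi.smul_apply]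
      · simp only [perm_succ, Pi.add_apply, Pi.smul_apply]
    show perm π (a • x + b • y) ∈ Ω
    rw [e]
    exact hG.conv hx hy ha hb hab
  · refine hG.temp.1.comp hd.differentiableOn fun z hz => ?_
    show (fun i => (perm π z i).re) ∈ Ω
    rw [hre]; exact hz
  · obtain ⟨C, N, hb⟩ := hG.temp.2 (perm π '' K) (by rintro _ ⟨x, hx, rfl⟩; exact hK hx)
      (hcK.image hc)
    refine ⟨|C|, N, fun z hz => ?_⟩
    have h1 := hb (perm π z) (by rw [hre]; exact ⟨_, hz, rfl⟩)
    have h2 : ‖fun i => (perm π z i).im‖ ≤ ‖fun i => (z i).im‖ := by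
      rw [pi_norm_le_iff_of_nonneg (norm_nonneg _)]
      intro i
      refine Fin.cases ?_ (fun i => ?_) i
      · rw [perm_zero]; exact norm_le_pi_norm (fun i => (z i).im) 0
      · rw [perm_succ]; exact norm_le_pi_norm (fun i => (z i).im) (π i).succ
    refine h1.trans ?_
    have h0 := one_le_nim z
    gcongr
    exact le_abs_self C
  · show G (perm π z) = F k M z
    rw [← F_perm π z]
    apply hG.eqO
    show (fun i => (perm π z i).re) ∈ orth (k + 1)
    rw [hre]
    intro i
    refine Fin.cases ?_ (fun i => ?_) i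
    · rw [perm_zero]; exact hz 0
    · rw [perm_succ]; exact hz _

theorem perm_mem {k M : ℕ} (π : Equiv.Perm (Fin k)) {p : Fin (k + 1) → ℝ}
    (h : ContinuesTo k M p) : ContinuesTo k M (perm π p) := by
  apply perm_mem' π⁻¹
  have : perm π⁻¹ (perm π p) = p := by
    funext i
    refine Fin.cases ?_ (fun i => ?_) i
    · rw [perm_zero, perm_zero]
    · rw [perm_succ, perm_succ]
      simp
  rw [this]; exact h

/-- several dropped variables -/
theorem drop_many (k l : ℕ) {M : ℕ} (hM : 1 ≤ M) {p : Fin (k + (l + 1) + 1) → ℝ}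
    (h : ContinuesTo (k + (l + 1)) 1 p) :
    ContinuesTo k M (fun i => p (Fin.castLE (by omega) i)) := by
  have e : ∀ {n : ℕ} (q : Fin (n + 1) → ℝ), sn (fun i => q i.castSucc) (q (Fin.last n)) = q := by
    intro n q
    funext i
    refine Fin.lastCases ?_ (fun j => ?_) i
    · rw [sn_last]
    · rw [sn_castSucc]
  induction l with
  | zero =>
    have h1 : ContinuesTo (k + 1) 1 (sn (fun i => p i.castSucc) (p (Fin.last _))) := by
      rw [e]; exact h
    have h2 := continuesTo_drop le_rfl hM h1
    rw [one_mul] at h2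
    exact h2
  | succ l ih =>
    have h1 : ContinuesTo (k + (l + 1) + 1) 1 (sn (fun i => p i.castSucc) (p (Fin.last _))) :=
      (e p).symm ▸ h
    have h2 := continuesTo_drop le_rfl le_rfl h1
    exact ih h2

end Pool.Agent.V5helper62.MD
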