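import Pool.Agent.H942R2.SM_T0

/-!
# The factor of the functional equation
-/

set_option autoImplicit false

namespace Pool.Agent.V5helper62.MD

open Complex Set Filter Topology

/-- the factor of the functional equation of an even character -/
noncomputable def X (s : ℂ) : ℂ := Gammaℝ (1 - s) / Gammaℝ s

/-- there is no odd positive integer in `[a, b]` -/
def Free (a b : ℝ) : Prop := ∀ n : ℕ, 2 * (n : ℝ) + 1 < a ∨ b < 2 * (n : ℝ) + 1

theorem Free.ne {a b : ℝ} (h : Free a b) {s : ℂ} (ha : a ≤ s.re) (hb : s.re ≤ b) (n : ℕ) :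
    s ≠ 2 * (n : ℂ) + 1 := by
  intro h0
  have h1 : s.re = 2 * (n : ℝ) + 1 := by rw [h0]; simp
  rcases h n with h2 | h2 <;> linarith

theorem Gammaℝ_ne {s : ℂ} (h : ∀ n : ℕ, s ≠ 2 * (n : ℂ) + 1) : Gammaℝ (1 - s) ≠ 0 := by
  rw [Ne, Gammaℝ_eq_zero_iff]
  rintro ⟨n, hn⟩
  apply h n
  linear_combination -hn

theorem X_diff {s : ℂ} (h : ∀ n : ℕ, s ≠ 2 * (n : ℂ) + 1) : DifferentiableAt ℂ X s := by
  have h1 : DifferentiableAt ℂ (fun s : ℂ => (Gammaℝ (1 - s))⁻¹) s := by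
    have h2 : Differentiable ℂ (fun s : ℂ => (1 : ℂ) - s) := by fun_prop
    exact (differentiable_Gammaℝ_inv.comp h2) s
  have h3 : DifferentiableAt ℂ (fun s : ℂ => ((Gammaℝ (1 - s))⁻¹)⁻¹ * (Gammaℝ s)⁻¹) s :=
    (h1.fun_inv (inv_ne_zero (Gammaℝ_ne h))).mul (differentiable_Gammaℝ_inv s)
  have h4 : X = fun s : ℂ => ((Gammaℝ (1 - s))⁻¹)⁻¹ * (Gammaℝ s)⁻¹ := by
    funext s
    rw [inv_inv]
    rfl
  rw [h4]
  exact h3

theorem Gamma_le_shift (z : ℂ) (h : 1 ≤ |z.im|) (m : ℕ) :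
    ‖Complex.Gamma z‖ ≤ ‖Complex.Gamma (z + m)‖ := by
  induction m with
  | zero => simp
  | succ m ih =>
    have him : (z + m).im = z.im := by simp
    have h1 : 1 ≤ ‖z + m‖ := by
      refine h.trans ?_
      rw [← him]
      exact Complex.abs_im_le_norm _
    have h2 : z + m ≠ 0 := by
      intro h0
      rw [h0, norm_zero] at h1
      linarith
    have h3 : z + ((m + 1 : ℕ) : ℂ) = (z + m) + 1 := by push_cast; ring
    rw [h3, Complex.Gamma_add_one _ h2, norm_mul]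
    nlinarith [norm_nonneg (Complex.Gamma (z + m))]

theorem X_large {a b : ℝ} : ∃ (C : ℝ) (N : ℕ), 0 ≤ C ∧ ∀ s : ℂ, a ≤ s.re → s.re ≤ b →
    1 ≤ |s.im| → ‖X s‖ ≤ C * (1 + |s.im|) ^ N := by
  set m : ℕ := ⌈|b|⌉₊ with hm
  have hmb : |b| ≤ m := Nat.le_ceil _
  set N : ℕ := ⌈|1 - a|⌉₊ + m with hN
  have hNa : |1 - a| + m ≤ N := by
    rw [hN]; push_cast; linarith [Nat.le_ceil |1 - a|]
  have hcG : ContinuousOn Real.Gamma (Icc (1 - b + m) (1 - a + m)) := by
    intro x hx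
    have h1 : 0 < x := by linarith [hx.1, le_abs_self b]
    have hd : DifferentiableAt ℝ Real.Gamma x := by
      apply Real.differentiableAt_Gamma
      intro n hn
      have h2 : (0:ℝ) ≤ n := Nat.cast_nonneg n
      linarith
    exact hd.continuousAt.continuousWithinAt
  obtain ⟨C3, hC3⟩ := isCompact_Icc.exists_bound_of_continuousOn hcG
  refine ⟨2 * (2 * Real.pi) ^ (b - 1) * (3 * |C3| * 2 ^ N), N, by positivity, ?_⟩
  intro s ha hb hs
  set z : ℂ := 1 - s with hz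
  have hzre : z.re = 1 - s.re := by simp [hz]
  have hzim : |z.im| = |s.im| := by simp [hz]
  have hne : ∀ n : ℕ, z ≠ -(2 * n + 1) := by
    intro n h0
    have : z.im = 0 := by rw [h0]; simp
    rw [← hzim, this, abs_zero] at hs
    linarith
  have hX : X s = Gammaℂ z * cos (Real.pi * z / 2) := by
    rw [← Gammaℝ_div_Gammaℝ_one_sub hne]
    unfold X
    congr 2
    rw [hz]; ring
  have hpi : (0 : ℝ) < 2 * Real.pi := by positivity
  have h1 : ‖((2 : ℂ) * Real.pi) ^ (-z)‖ ≤ (2 * Real.pi) ^ (b - 1) := by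
    have e : ((2 : ℂ) * Real.pi) = ((2 * Real.pi : ℝ) : ℂ) := by push_cast; rfl
    rw [e, Complex.norm_cpow_eq_rpow_re_of_pos hpi, Complex.neg_re, hzre]
    apply Real.rpow_le_rpow_of_exponent_le
    · linarith [Real.pi_gt_three]
    · linarith
  have h2 : ‖cos (Real.pi * z / 2)‖ ≤ Real.exp (Real.pi * |s.im| / 2) := by
    refine (Pool.Agent.H942R2.SMT0.norm_cos_le _).trans ?_
    apply Real.exp_le_exp.2
    have e : (Real.pi * z / 2 : ℂ) = ((Real.pi / 2 : ℝ) : ℂ) * z := by push_cast; ring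
    rw [e, Complex.im_ofReal_mul, abs_mul, hzim, abs_of_pos (by positivity)]
    apply le_of_eq
    ring
  have h3 : ‖Complex.Gamma z‖ ≤ (3 * |C3| * 2 ^ N) * (1 + |s.im|) ^ N *
      Real.exp (-(Real.pi * |s.im| / 2)) := by
    refine (Gamma_le_shift z (by rw [hzim]; exact hs) m).trans ?_
    have e : z + m = ((1 - s.re + m : ℝ) : ℂ) + (z.im : ℂ) * I := by
      apply Complex.ext
      · simp [hzre]
      · simp
    have hσ : 0 < 1 - s.re + m := by linarith [le_abs_self b]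
    rw [e]
    refine (Pool.Agent.H942R2.SMT0.gamma_bound (1 - s.re + m) z.im hσ (by rw [hzim]; exact hs)).trans ?_
    rw [hzim]
    have g1 : Real.Gamma (1 - s.re + m) ≤ |C3| := by
      have := hC3 (1 - s.re + m) ⟨by linarith, by linarith⟩
      exact (le_abs_self _).trans (this.trans (le_abs_self _))
    have g2 : (2 * |s.im|) ^ (1 - s.re + m) ≤ 2 ^ N * (1 + |s.im|) ^ N := by
      calc (2 * |s.im|) ^ (1 - s.re + m) ≤ (2 * |s.im|) ^ (N : ℝ) := by
            apply Real.rpow_le_rpow_of_exponent_le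
            · linarith
            · linarith [le_abs_self (1 - a)]
        _ = (2 * |s.im|) ^ N := Real.rpow_natCast _ _
        _ = 2 ^ N * |s.im| ^ N := mul_pow _ _ _
        _ ≤ 2 ^ N * (1 + |s.im|) ^ N := by
            gcongr
            linarith
    have g3 : 0 ≤ Real.Gamma (1 - s.re + m) := (Real.Gamma_pos_of_pos hσ).le
    calc 3 * Real.Gamma (1 - s.re + m) * (2 * |s.im|) ^ (1 - s.re + m) *
          Real.exp (-(Real.pi * |s.im| / 2))
        ≤ 3 * |C3| * (2 ^ N * (1 + |s.im|) ^ N) * Real.exp (-(Real.pi * |s.im| / 2)) := by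
          gcongr
      _ = _ := by ring
  rw [hX, Gammaℂ_def, norm_mul, norm_mul, norm_mul]
  have h4 : ‖(2 : ℂ)‖ = 2 := by simp
  rw [h4]
  have h5 : Real.exp (-(Real.pi * |s.im| / 2)) * Real.exp (Real.pi * |s.im| / 2) = 1 := by
    rw [← Real.exp_add]; simp
  calc 2 * ‖((2 : ℂ) * Real.pi) ^ (-z)‖ * ‖Complex.Gamma z‖ * ‖cos (Real.pi * z / 2)‖
      ≤ 2 * (2 * Real.pi) ^ (b - 1) * ((3 * |C3| * 2 ^ N) * (1 + |s.im|) ^ N *
        Real.exp (-(Real.pi * |s.im| / 2))) * Real.exp (Real.pi * |s.im| / 2) := by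
        gcongr
    _ = 2 * (2 * Real.pi) ^ (b - 1) * (3 * |C3| * 2 ^ N) * (1 + |s.im|) ^ N *
        (Real.exp (-(Real.pi * |s.im| / 2)) * Real.exp (Real.pi * |s.im| / 2)) := by ring
    _ = _ := by rw [h5, mul_one]

theorem X_bound {a b : ℝ} (h : Free a b) : ∃ (C : ℝ) (N : ℕ), 0 ≤ C ∧ ∀ s : ℂ, a ≤ s.re →
    s.re ≤ b → ‖X s‖ ≤ C * (1 + |s.im|) ^ N := by
  obtain ⟨C, N, hC, hb⟩ := X_large (a := a) (b := b)
  have hK : IsCompact (Icc a b ×ℂ Icc (-1 : ℝ) 1) := isCompact_Icc.reProdIm isCompact_Icc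
  have hc : ContinuousOn X (Icc a b ×ℂ Icc (-1 : ℝ) 1) := by
    intro s hs
    rw [Complex.mem_reProdIm] at hs
    exact (X_diff (h.ne hs.1.1 hs.1.2)).continuousAt.continuousWithinAt
  obtain ⟨C', hC'⟩ := hK.exists_bound_of_continuousOn hc
  refine ⟨C + |C'|, N, by positivity, fun s h1 h2 => ?_⟩
  have h0 : 1 ≤ (1 + |s.im|) ^ N := one_le_pow₀ (by linarith [abs_nonneg s.im])
  rcases le_total 1 |s.im| with h3 | h3
  · refine (hb s h1 h2 h3).trans ?_
    gcongr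
    linarith [abs_nonneg C']
  · have h4 : ‖X s‖ ≤ |C'| := (hC' s (by
      rw [Complex.mem_reProdIm]
      exact ⟨⟨h1, h2⟩, abs_le.1 h3⟩)).trans (le_abs_self _)
    nlinarith [abs_nonneg C']

end Pool.Agent.V5helper62.MD
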