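import Pool.Agent.V5helper62.MD.PL

/-!
# Gaussian integrals on vertical lines
-/

set_option autoImplicit false

open MeasureTheory Set Filter Topology Metric

namespace Pool.Agent.V5helper62.MD

open Pool.Agent.Q48.MDS Complex

open scoped FourierTransform RealInnerProductSpace

theorem integrable_two : Integrable (fun y : ℝ => (1 + |y|) ^ (-2 : ℝ)) := by
  have := integrable_one_add_norm (E := ℝ) (μ := volume) (r := 2) (by simp)
  simpa using this

/-- contour shift (as in `Pool.Agent.H295R2.contour_shift`) -/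
theorem contour_shift {H : ℂ → ℂ} {a b B : ℝ} {τ : ℝ} (hab : a ≤ b)
    (hd : ∀ s : ℂ, a ≤ s.re → s.re ≤ b → DifferentiableAt ℂ H s)
    (hB : ∀ s : ℂ, a ≤ s.re → s.re ≤ b → ‖H s‖ ≤ B * (1 + |s.im - τ|) ^ (-2 : ℝ)) :
    ∫ y : ℝ, H (a + y * Complex.I) = ∫ y : ℝ, H (b + y * Complex.I) := by
  have vi : ∀ c : ℝ, a ≤ c → c ≤ b → Integrable (fun y : ℝ => H (c + y * Complex.I)) := by
    intro c h1 h2
    have hc : Continuous (fun y : ℝ => H (c + y * Complex.I)) := by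
      rw [continuous_iff_continuousAt]
      intro y
      have h1 : ContinuousAt H ((c : ℂ) + y * Complex.I) :=
        (hd _ (by simpa using h1) (by simpa using h2)).continuousAt
      exact ContinuousAt.comp (f := fun y : ℝ => (c : ℂ) + y * Complex.I) h1 (by fun_prop)
    refine ((integrable_two.comp_sub_right τ).const_mul B).mono' hc.aestronglyMeasurable
      (Eventually.of_forall fun y => ?_)
    have := hB (c + y * Complex.I) (by simpa using h1) (by simpa using h2)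
    simpa using this
  have ia := vi a le_rfl hab
  have ib := vi b hab le_rfl
  -- rectangles
  have hrect : ∀ T : ℝ, 0 < T →
      (∫ x in a..b, H (x + (-T : ℝ) * Complex.I)) - (∫ x in a..b, H (x + (T : ℝ) * Complex.I)) +
        Complex.I • (∫ y in (-T)..T, H (b + y * Complex.I)) -
        Complex.I • (∫ y in (-T)..T, H (a + y * Complex.I)) = 0 := by
    intro T hT
    have := Complex.integral_boundary_rect_eq_zero_of_differentiableOn H ⟨a, -T⟩ ⟨b, T⟩ ?_
    · simpa using this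
    · intro s hs
      rw [Complex.mem_reProdIm] at hs
      simp only at hs
      rw [uIcc_of_le hab] at hs
      exact (hd s hs.1.1 hs.1.2).differentiableWithinAt
  have hhor : ∀ T : ℝ, ‖∫ x in a..b, H (x + (T : ℝ) * Complex.I)‖ ≤
      B * (1 + |T - τ|) ^ (-2 : ℝ) * |b - a| := by
    intro T
    refine intervalIntegral.norm_integral_le_of_norm_le_const fun x hx => ?_
    rw [uIoc_of_le hab] at hx
    have := hB (x + (T : ℝ) * Complex.I) (by simpa using hx.1.le) (by simpa using hx.2)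
    simpa using this
  have hlim : ∀ f : ℝ → ℝ, Tendsto (fun T : ℝ => |f T - τ|) atTop atTop →
      Tendsto (fun T : ℝ => B * (1 + |f T - τ|) ^ (-2 : ℝ) * |b - a|) atTop (𝓝 0) := by
    intro f hf
    have h1 : Tendsto (fun T : ℝ => (1 + |f T - τ|)) atTop atTop :=
      tendsto_atTop_add_const_left _ _ hf
    have h2 := (tendsto_rpow_neg_atTop (y := 2) (by norm_num)).comp h1
    have h3 := (h2.const_mul B).mul_const |b - a|
    simpa using h3
  have hl1 : Tendsto (fun T : ℝ => ∫ x in a..b, H (x + (T : ℝ) * Complex.I)) atTop (𝓝 0) :=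
    squeeze_zero_norm hhor (hlim (fun T => T)
      (tendsto_abs_atTop_atTop.comp (tendsto_atTop_add_const_right _ _ tendsto_id)))
  have hl2 : Tendsto (fun T : ℝ => ∫ x in a..b, H (x + (-T : ℝ) * Complex.I)) atTop (𝓝 0) := by
    refine squeeze_zero_norm (fun T => hhor (-T)) (hlim (fun T => -T) ?_)
    exact tendsto_abs_atBot_atTop.comp
      (tendsto_atBot_add_const_right _ _ tendsto_neg_atTop_atBot)
  have hl3 := intervalIntegral_tendsto_integral ib tendsto_neg_atTop_atBot tendsto_id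
  have hl4 := intervalIntegral_tendsto_integral ia tendsto_neg_atTop_atBot tendsto_id
  have hfin := ((hl2.sub hl1).add (hl3.const_smul Complex.I)).sub (hl4.const_smul Complex.I)
  have hzero : Tendsto (fun _ : ℝ => (0:ℂ)) atTop (𝓝 0) := tendsto_const_nhds
  have huniq := tendsto_nhds_unique (hfin.congr' ?_) hzero
  · rw [sub_zero, zero_add, ← smul_sub, smul_eq_mul] at huniq
    have := (mul_eq_zero.mp huniq).resolve_left Complex.I_ne_zero
    exact (sub_eq_zero.mp this).symm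
  · filter_upwards [eventually_gt_atTop 0] with T hT
    simpa using hrect T hT

theorem gauss_dom (N : ℕ) : ∃ C : ℝ, 0 ≤ C ∧ ∀ τ v r : ℝ, 0 ≤ r →
    (1 + r + |v|) ^ N * Real.exp (-(v - τ) ^ 2) ≤
      C * (1 + r + |τ|) ^ N * (1 + |v - τ|) ^ (-2 : ℝ) := by
  obtain ⟨C, hC, hb⟩ := pow_mul_gauss_le (N + 2) (c := 1) one_pos
  refine ⟨C, hC.le, fun τ v r hr => ?_⟩
  have h1 := hb |v - τ| (abs_nonneg _)
  have h2 : 1 + r + |v| ≤ (1 + r + |τ|) * (1 + |v - τ|) := by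
    have h3 : |v| ≤ |τ| + |v - τ| := by
      calc |v| = |τ + (v - τ)| := by ring_nf
        _ ≤ |τ| + |v - τ| := abs_add_le _ _
    nlinarith [abs_nonneg τ, abs_nonneg (v - τ), mul_nonneg (add_nonneg hr (abs_nonneg τ))
      (abs_nonneg (v - τ))]
  have h4 : (0 : ℝ) < 1 + |v - τ| := by positivity
  have h5 : (1 + |v - τ|) ^ (-2 : ℝ) = ((1 + |v - τ|) ^ 2)⁻¹ := by
    rw [Real.rpow_neg h4.le]
    congr 1
    exact_mod_cast Real.rpow_natCast (1 + |v - τ|) 2
  have h6 : Real.exp (-(v - τ) ^ 2) = Real.exp (-1 * |v - τ| ^ 2) := by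
    congr 1
    rw [sq_abs]; ring
  rw [h5, ← div_eq_mul_inv, le_div_iff₀ (by positivity), h6]
  calc (1 + r + |v|) ^ N * Real.exp (-1 * |v - τ| ^ 2) * (1 + |v - τ|) ^ 2
      ≤ ((1 + r + |τ|) * (1 + |v - τ|)) ^ N * Real.exp (-1 * |v - τ| ^ 2) *
        (1 + |v - τ|) ^ 2 := by gcongr
    _ = (1 + r + |τ|) ^ N * ((1 + |v - τ|) ^ (N + 2) * Real.exp (-1 * |v - τ| ^ 2)) := by
        rw [mul_pow, pow_add]; ring
    _ ≤ (1 + r + |τ|) ^ N * C := by gcongr
    _ = _ := by ring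

/-- the Gaussian -/
noncomputable def gs (τ : ℝ) (w : ℂ) : ℂ := cexp ((w - I * τ) ^ 2)

theorem norm_gs (τ : ℝ) (w : ℂ) : ‖gs τ w‖ = Real.exp (w.re ^ 2) * Real.exp (-(w.im - τ) ^ 2) := by
  unfold gs
  rw [Complex.norm_exp, ← Real.exp_add]
  congr 1
  have : (w - I * τ) ^ 2 = (w - I * τ) * (w - I * τ) := by ring
  rw [this, Complex.mul_re]
  simp
  ring

theorem differentiable_gs (τ : ℝ) : Differentiable ℂ (gs τ) := by
  unfold gs; fun_prop

variable {k : ℕ}

/-- the point `(w, s)` -/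
def pt (w : ℂ) (s : Fin k → ℂ) : Fin (k + 1) → ℂ := Fin.cons w s

/-- the real point `(w, s)` -/
def rp (w : ℝ) (s : Fin k → ℝ) : Fin (k + 1) → ℝ := Fin.cons w s

theorem pt_re (w : ℂ) (s : Fin k → ℂ) :
    (fun i => (pt w s i).re) = rp w.re (fun j => (s j).re) := by
  funext i
  refine Fin.cases ?_ (fun j => ?_) i <;> simp [pt, rp]

theorem pt_im_le (w : ℂ) (s : Fin k → ℂ) :
    ‖fun i => (pt w s i).im‖ ≤ ‖fun j => (s j).im‖ + |w.im| := by
  rw [pi_norm_le_iff_of_nonneg (by positivity)]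
  intro i
  rw [Real.norm_eq_abs]
  refine Fin.cases ?_ (fun j => ?_) i
  · simp [pt]
  · have h := norm_le_pi_norm (fun j => (s j).im) j
    rw [Real.norm_eq_abs] at h
    have : (pt w s j.succ).im = (s j).im := by simp [pt]
    rw [this]
    linarith [abs_nonneg w.im]

theorem continuous_rp : Continuous (fun x : ℝ × (Fin k → ℝ) => rp x.1 x.2) := by
  refine continuous_pi fun i => ?_
  refine Fin.cases ?_ (fun j => ?_) i
  · simp only [rp, Fin.cons_zero]; fun_prop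
  · simp only [rp, Fin.cons_succ]; fun_prop

theorem differentiable_pt_left (s : Fin k → ℂ) : Differentiable ℂ (fun w => pt w s) := by
  rw [differentiable_pi]
  intro i
  refine Fin.cases ?_ (fun j => ?_) i
  · simp only [pt, Fin.cons_zero]; fun_prop
  · simp only [pt, Fin.cons_succ]; fun_prop

theorem differentiable_pt_right (w : ℂ) : Differentiable ℂ (fun s : Fin k → ℂ => pt w s) := by
  rw [differentiable_pi]
  intro i
  refine Fin.cases ?_ (fun j => ?_) i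
  · simp only [pt, Fin.cons_zero]; fun_prop
  · simp only [pt, Fin.cons_succ]; fun_prop

/-- the integrand -/
noncomputable def ig (G : (Fin (k + 1) → ℂ) → ℂ) (s : Fin k → ℂ) (τ u : ℝ) (w : ℂ) : ℂ :=
  G (pt w s) * gs τ w * cexp (w * u)

/-- the integral on the line `Re w = c` -/
noncomputable def Iv (G : (Fin (k + 1) → ℂ) → ℂ) (s : Fin k → ℂ) (τ c u : ℝ) : ℂ :=
  (1 / (2 * Real.pi) : ℂ) * ∫ v : ℝ, ig G s τ u (c + v * I)

theorem norm_ig_le {G : (Fin (k + 1) → ℂ) → ℂ} {K : Set (Fin (k + 1) → ℝ)} {C : ℝ} {N : ℕ}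
    (hC : 0 ≤ C) (hb : ∀ z : Fin (k + 1) → ℂ, (fun i => (z i).re) ∈ K →
      ‖G z‖ ≤ C * (1 + ‖fun i => (z i).im‖) ^ N) {Cg : ℝ}
    (hg : ∀ τ v r : ℝ, 0 ≤ r → (1 + r + |v|) ^ N * Real.exp (-(v - τ) ^ 2) ≤
      Cg * (1 + r + |τ|) ^ N * (1 + |v - τ|) ^ (-2 : ℝ))
    {s : Fin k → ℂ} {w : ℂ} (h : rp w.re (fun j => (s j).re) ∈ K) (τ u : ℝ) :
    ‖ig G s τ u w‖ ≤ (C * Real.exp (w.re ^ 2) * Real.exp (w.re * u) *
      (Cg * (1 + ‖fun j => (s j).im‖ + |τ|) ^ N)) * (1 + |w.im - τ|) ^ (-2 : ℝ) := by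
  unfold ig
  rw [norm_mul, norm_mul, norm_gs, Complex.norm_exp]
  have e1 : (w * (u : ℂ)).re = w.re * u := by simp
  rw [e1]
  have h1 := hb (pt w s) (by rw [pt_re]; exact h)
  have h2 : (1 + ‖fun i => (pt w s i).im‖) ^ N ≤ (1 + ‖fun j => (s j).im‖ + |w.im|) ^ N := by
    have h4 := pt_im_le w s
    have h0 := norm_nonneg (fun i => (pt w s i).im)
    exact pow_le_pow_left₀ (by linarith) (by linarith) N
  have h3 := hg τ w.im ‖fun j => (s j).im‖ (norm_nonneg _)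
  calc ‖G (pt w s)‖ * (Real.exp (w.re ^ 2) * Real.exp (-(w.im - τ) ^ 2)) * Real.exp (w.re * u)
      ≤ (C * (1 + ‖fun j => (s j).im‖ + |w.im|) ^ N) *
        (Real.exp (w.re ^ 2) * Real.exp (-(w.im - τ) ^ 2)) * Real.exp (w.re * u) := by
        have := h1.trans (mul_le_mul_of_nonneg_left h2 hC)
        gcongr
    _ = (C * Real.exp (w.re ^ 2) * Real.exp (w.re * u)) *
        ((1 + ‖fun j => (s j).im‖ + |w.im|) ^ N * Real.exp (-(w.im - τ) ^ 2)) := by ring
    _ ≤ (C * Real.exp (w.re ^ 2) * Real.exp (w.re * u)) *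
        (Cg * (1 + ‖fun j => (s j).im‖ + |τ|) ^ N * (1 + |w.im - τ|) ^ (-2 : ℝ)) := by gcongr
    _ = _ := by ring

theorem ig_diff {Ω : Set (Fin (k + 1) → ℝ)} (hΩ : IsOpen Ω) {G : (Fin (k + 1) → ℂ) → ℂ}
    (hG : Tempered Ω G) {s : Fin k → ℂ} {w : ℂ} (h : rp w.re (fun j => (s j).re) ∈ Ω) (τ u : ℝ) :
    DifferentiableAt ℂ (ig G s τ u) w := by
  have h1 : pt w s ∈ tube Ω := by
    show (fun i => (pt w s i).re) ∈ Ω
    rw [pt_re]; exact h
  have h2 : DifferentiableAt ℂ G (pt w s) := hG.1.differentiableAt ((isOpen_tube hΩ).mem_nhds h1)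
  have h3 : DifferentiableAt ℂ (fun w => G (pt w s)) w := h2.comp w (differentiable_pt_left s w)
  unfold ig
  exact (h3.mul (differentiable_gs τ w)).mul (by fun_prop)

theorem ig_continuous {Ω : Set (Fin (k + 1) → ℝ)} (hΩ : IsOpen Ω) {G : (Fin (k + 1) → ℂ) → ℂ}
    (hG : Tempered Ω G) {s : Fin k → ℂ} {c : ℝ} (h : rp c (fun j => (s j).re) ∈ Ω) (τ u : ℝ) :
    Continuous (fun v : ℝ => ig G s τ u (c + v * I)) := by
  rw [continuous_iff_continuousAt]
  intro v
  have h1 : ContinuousAt (ig G s τ u) ((c : ℂ) + v * I) :=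
    (ig_diff hΩ hG (by simpa using h) τ u).continuousAt
  exact ContinuousAt.comp (f := fun v : ℝ => (c : ℂ) + v * I) h1 (by fun_prop)

/-- the constant `∫ (1+|v|)^(-2)` -/
noncomputable def I2 : ℝ := ∫ y : ℝ, (1 + |y|) ^ (-2 : ℝ)

theorem I2_nonneg : 0 ≤ I2 := integral_nonneg fun y => by positivity

theorem integral_two (τ : ℝ) : ∫ v : ℝ, (1 + |v - τ|) ^ (-2 : ℝ) = I2 :=
  integral_sub_right_eq_self (fun v : ℝ => (1 + |v|) ^ (-2 : ℝ)) τ

/-- the integral does not depend on the line -/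
theorem Iv_shift {Ω : Set (Fin (k + 1) → ℝ)} (hΩ : IsOpen Ω) {G : (Fin (k + 1) → ℂ) → ℂ}
    (hG : Tempered Ω G) {s : Fin k → ℂ} {a b : ℝ} (hab : a ≤ b)
    (h : ∀ c, a ≤ c → c ≤ b → rp c (fun j => (s j).re) ∈ Ω) (τ u : ℝ) :
    Iv G s τ a u = Iv G s τ b u := by
  have hK : IsCompact ((fun c => rp c (fun j => (s j).re)) '' Icc a b) := by
    refine isCompact_Icc.image ?_
    exact continuous_rp.comp (continuous_id.prodMk continuous_const)
  obtain ⟨C, N, hb⟩ := hG.2 _ (by rintro _ ⟨c, hc, rfl⟩; exact h c hc.1 hc.2) hK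
  obtain ⟨Cg, hCg, hg⟩ := gauss_dom N
  unfold Iv
  congr 1
  set B1 : ℝ := Real.exp ((|a| + |b|) ^ 2) * Real.exp ((|a| + |b|) * |u|) with hB1
  refine contour_shift (τ := τ) (B := |C| * B1 * (Cg * (1 + ‖fun j => (s j).im‖ + |τ|) ^ N)) hab
    (fun w h1 h2 => ig_diff hΩ hG (h _ h1 h2) τ u) (fun w h1 h2 => ?_)
  have h3 := norm_ig_le (C := |C|) (K := (fun c => rp c (fun j => (s j).re)) '' Icc a b)
    (abs_nonneg C) (fun z hz => (hb z hz).trans (by
      have := one_le_nim z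
      gcongr
      exact le_abs_self C)) hg (s := s) (w := w) ⟨w.re, ⟨h1, h2⟩, rfl⟩ τ u
  refine h3.trans ?_
  have h4 : |w.re| ≤ |a| + |b| := by
    rw [abs_le]
    constructor
    · linarith [neg_abs_le a, abs_nonneg b]
    · linarith [le_abs_self b, abs_nonneg a]
  have h5 : Real.exp (w.re ^ 2) ≤ Real.exp ((|a| + |b|) ^ 2) := by
    apply Real.exp_le_exp.2
    rw [← sq_abs w.re]
    gcongr
  have h6 : Real.exp (w.re * u) ≤ Real.exp ((|a| + |b|) * |u|) := by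
    apply Real.exp_le_exp.2
    calc w.re * u ≤ |w.re * u| := le_abs_self _
      _ = |w.re| * |u| := abs_mul _ _
      _ ≤ (|a| + |b|) * |u| := by gcongr
  rw [hB1]
  have h7 : (0 : ℝ) ≤ (1 + |w.im - τ|) ^ (-2 : ℝ) := by positivity
  have h8 : 0 ≤ (1 + ‖fun j => (s j).im‖ + |τ|) ^ N := by positivity
  calc _ = |C| * (Real.exp (w.re ^ 2) * Real.exp (w.re * u)) *
        (Cg * (1 + ‖fun j => (s j).im‖ + |τ|) ^ N) * (1 + |w.im - τ|) ^ (-2 : ℝ) := by ring
    _ ≤ _ := by gcongr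

/-- the bound of the integral -/
theorem Iv_bound {Ω : Set (Fin (k + 1) → ℝ)} (hΩ : IsOpen Ω) {G : (Fin (k + 1) → ℂ) → ℂ}
    (hG : Tempered Ω G) {c : ℝ} {K : Set (Fin k → ℝ)} (hK : IsCompact K)
    (h : ∀ x ∈ K, rp c x ∈ Ω) : ∃ (C : ℝ) (N : ℕ), 0 ≤ C ∧ ∀ s : Fin k → ℂ,
      (fun j => (s j).re) ∈ K → ∀ τ u : ℝ,
        Integrable (fun v : ℝ => ig G s τ u (c + v * I)) ∧
        ‖Iv G s τ c u‖ ≤ C * (1 + ‖fun j => (s j).im‖ + |τ|) ^ N * Real.exp (c * u) := by
  have hK' : IsCompact ((fun x => rp c x) '' K) := by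
    refine hK.image ?_
    exact continuous_rp.comp (continuous_const.prodMk continuous_id)
  obtain ⟨C, N, hb⟩ := hG.2 _ (by rintro _ ⟨x, hx, rfl⟩; exact h x hx) hK'
  obtain ⟨Cg, hCg, hg⟩ := gauss_dom N
  refine ⟨|C| * Real.exp (c ^ 2) * Cg * I2, N, by have := I2_nonneg; positivity,
    fun s hs τ u => ?_⟩
  have hbd : ∀ v : ℝ, ‖ig G s τ u (c + v * I)‖ ≤ (|C| * Real.exp (c ^ 2) * Real.exp (c * u) *
      (Cg * (1 + ‖fun j => (s j).im‖ + |τ|) ^ N)) * (1 + |v - τ|) ^ (-2 : ℝ) := by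
    intro v
    have h3 := norm_ig_le (C := |C|) (K := (fun x => rp c x) '' K)
      (abs_nonneg C) (fun z hz => (hb z hz).trans (by
        have := one_le_nim z
        gcongr
        exact le_abs_self C)) hg (s := s) (w := c + v * I) ⟨_, hs, by simp⟩ τ u
    simpa using h3
  have hdom := (integrable_two.comp_sub_right τ).const_mul (|C| * Real.exp (c ^ 2) *
    Real.exp (c * u) * (Cg * (1 + ‖fun j => (s j).im‖ + |τ|) ^ N))
  refine ⟨hdom.mono' (ig_continuous hΩ hG (h _ hs) τ u).aestronglyMeasurable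
    (Eventually.of_forall hbd), ?_⟩
  unfold Iv
  rw [norm_mul]
  have h1 : ‖∫ v : ℝ, ig G s τ u (c + v * I)‖ ≤ (|C| * Real.exp (c ^ 2) * Real.exp (c * u) *
      (Cg * (1 + ‖fun j => (s j).im‖ + |τ|) ^ N)) * I2 := by
    refine (norm_integral_le_of_norm_le hdom (Eventually.of_forall hbd)).trans_eq ?_
    rw [integral_const_mul, integral_two]
  have h2 : ‖(1 / (2 * Real.pi) : ℂ)‖ ≤ 1 := by
    rw [norm_div, norm_mul, Complex.norm_real, Real.norm_of_nonneg Real.pi_pos.le]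
    simp only [norm_one, Complex.norm_ofNat]
    rw [div_le_one (by positivity)]
    linarith [Real.pi_gt_three]
  calc ‖(1 / (2 * Real.pi) : ℂ)‖ * ‖∫ v : ℝ, ig G s τ u (c + v * I)‖ ≤
      1 * ((|C| * Real.exp (c ^ 2) * Real.exp (c * u) *
      (Cg * (1 + ‖fun j => (s j).im‖ + |τ|) ^ N)) * I2) := by gcongr
    _ = _ := by ring

/-- Fourier inversion -/
theorem inversion {φ : ℝ → ℂ} (hc : Continuous φ) (hi : Integrable φ) {g : ℝ → ℂ}
    (hg : ∀ u : ℝ, g u = (1 / (2 * Real.pi) : ℂ) * ∫ v : ℝ, φ v * cexp (I * v * u))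
    (hgi : Integrable g) (v : ℝ) : ∫ u : ℝ, g u * cexp (-(I * v * u)) = φ v := by
  have hpi : (2 * Real.pi : ℂ) ≠ 0 := by
    exact_mod_cast (by positivity : (2 * Real.pi : ℝ) ≠ 0)
  have h1 : ∀ ξ : ℝ, (𝓕⁻ φ) ξ = (2 * Real.pi : ℂ) * g (2 * Real.pi * ξ) := by
    intro ξ
    rw [Real.fourierInv_eq', hg, ← mul_assoc, mul_one_div, div_self hpi, one_mul]
    refine integral_congr_ae (Eventually.of_forall fun v => ?_)
    simp only [smul_eq_mul]
    rw [mul_comm]
    congr 2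
    simp
    ring
  have h2 : ∀ ξ : ℝ, (𝓕 φ) ξ = (2 * Real.pi : ℂ) * g (2 * Real.pi * (-ξ)) := by
    intro ξ
    rw [← h1, Real.fourierInv_eq_fourier_neg, neg_neg]
  have h3 : Integrable (𝓕 φ) := by
    have e1 : (𝓕 φ) = fun ξ => (2 * Real.pi : ℂ) * g ((-(2 * Real.pi)) * ξ) := by
      funext ξ
      rw [h2]
      congr 2
      ring
    rw [e1]
    exact (hgi.comp_mul_left' (by have := Real.pi_pos; linarith)).const_mul _
  have h4 := hc.fourier_fourierInv_eq hi h3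
  have h5 : φ v = (𝓕 (𝓕⁻ φ)) v := by rw [h4]
  rw [h5, Real.fourier_eq']
  have h6 : ∀ ξ : ℝ, cexp (↑(-2 * Real.pi * inner ℝ ξ v) * I) • (𝓕⁻ φ) ξ =
      (2 * Real.pi : ℂ) * (g (2 * Real.pi * ξ) * cexp (-(I * v * ((2 * Real.pi * ξ : ℝ) : ℂ)))) := by
    intro ξ
    rw [h1, smul_eq_mul]
    have : cexp (↑(-2 * Real.pi * inner ℝ ξ v) * I) =
        cexp (-(I * v * ((2 * Real.pi * ξ : ℝ) : ℂ))) := by
      congr 1
      simp
      ring
    rw [this]; ring
  simp_rw [h6]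
  rw [integral_const_mul]
  have h7 := Measure.integral_comp_mul_left
    (fun u : ℝ => g u * cexp (-(I * v * u))) (2 * Real.pi)
  rw [h7, abs_of_pos (by positivity), Complex.real_smul]
  push_cast
  rw [← mul_assoc, mul_inv_cancel₀ hpi, one_mul]

end Pool.Agent.V5helper62.MD
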