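import Pool.Agent.W215.QP.Fe

/-!
# The root number of a primitive quadratic character

The proof is the first part of the proof of `Pool.Agent.W215.QP.fe` (starting file of the library).
-/

set_option autoImplicit false

namespace Pool.Agent.V5helper62.MD

open Finset Filter Topology MeasureTheory Pool.Agent.H306R2.RZ Pool.Agent.H306R2.RG
open Pool.Agent.W169.QP Pool.Agent.W215.QP

theorem rootNumber_one (N : ℕ) (hN0 : NeZero N) (χ : DirichletCharacter ℂ N)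
    (h1 : χ.IsPrimitive) (h2 : χ ^ 2 = 1) (h3 : χ ≠ 1) : DirichletCharacter.rootNumber χ = 1 := by
  obtain ⟨φ, d, hφ, hd, hs, hN, hχ⟩ := LnkC.CLS N hN0.out χ h1 h2 h3
  subst hN
  obtain ⟨hd0, χ', _, _, _, hχ', hsgn⟩ := LnkC.CC1 φ hφ d hd hs
  have hχχ' : χ' = χ := char_ext χ' χ fun n hn => by rw [hχ' n hn, hχ n hn]
  rw [hχχ'] at hsgn
  have hr0 : 0 < φ.r := Pool.Agent.H852R2.RGCC6.r_pos hφ
  have hQ0 : 0 < φ.r * d := Nat.mul_pos hr0 hd0
  obtain ⟨Q, hQ⟩ : ∃ Q : ℝ, Q = ((φ.r * d : ℕ) : ℝ) := ⟨_, rfl⟩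
  have hQpos : 0 < Q := by rw [hQ]; exact_mod_cast hQ0
  have hQ' : (φ.r : ℝ) * d = Q := by rw [hQ]; push_cast; rfl
  have ha0 : (0 : ℝ) ≤ φ.a := Nat.cast_nonneg _
  have hval : ∀ σ : ℝ, 0 < σ → DirichletCharacter.LFunction χ (σ : ℂ) = ((LLg φ d σ : ℝ) : ℂ) :=
    fun σ hσ => LnkC.CC5 φ hφ d hd hs hN0 χ h3 hχ σ hσ
  have hdiff := DirichletCharacter.differentiable_completedLFunction h3
  -- the gamma factor
  have hgam : ∀ σ : ℝ, DirichletCharacter.gammaFactor χ (σ : ℂ) =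
      ((gm (σ + φ.a) : ℝ) : ℂ) := by
    intro σ
    rcases fam_a hφ with ha | ha
    · have he : χ.Even := by
        rw [ha, if_pos rfl] at hsgn
        exact hsgn
      rw [he.gammaFactor_def, ha, Nat.cast_zero, add_zero, gammaR_real]
    · have he : χ.Odd := by
        rw [ha, if_neg one_ne_zero] at hsgn
        exact hsgn
      rw [he.gammaFactor_def, ha, Nat.cast_one, ← gammaR_real]
      push_cast
      rfl
  have hgm : ∀ σ : ℝ, 0 < σ → 0 < gm (σ + φ.a) := fun σ hσ =>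
    Pool.Agent.H852R2.RGCC6.gm_pos (by linarith)
  have hcomp : ∀ σ : ℝ, 0 < σ → DirichletCharacter.completedLFunction χ (σ : ℂ) =
      ((LLg φ d σ * gm (σ + φ.a) : ℝ) : ℂ) := by
    intro σ hσ
    have e1 := DirichletCharacter.LFunction_eq_completed_div_gammaFactor χ (σ : ℂ)
      (Or.inl (by exact_mod_cast hσ.ne'))
    rw [hgam, hval σ hσ] at e1
    have e2 : ((gm (σ + φ.a) : ℝ) : ℂ) ≠ 0 := by exact_mod_cast (hgm σ hσ).ne'
    rw [eq_div_iff e2] at e1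
    rw [← e1]
    push_cast
    rfl
  have hLLg : ∀ σ : ℝ, 0 < σ → LLg φ d σ * gm (σ + φ.a) * Q ^ ((σ + φ.a) / 2) =
      Pool.Agent.H852R2.RGCC6.Lam φ d σ := by
    intro σ hσ
    rw [Pool.Agent.H852R2.RGCC6.LLg_eq, hQ']
    have e1 := hgm σ hσ
    have e2 : 0 < Q ^ ((σ + φ.a) / 2) := Real.rpow_pos_of_pos hQpos _
    field_simp
  have hsym : ∀ σ : ℝ, 0 < σ → σ < 1 → LLg φ d (1 - σ) * gm (1 - σ + φ.a) =
      Q ^ (σ - 1 / 2) * (LLg φ d σ * gm (σ + φ.a)) := by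
    intro σ h0 h4
    have e1 := hLLg σ h0
    have e2 := hLLg (1 - σ) (by linarith)
    rw [← Pool.Agent.H852R2.RGCC6.Lam_symm φ d (fun y hy => LnkC.CC3 φ hφ d hd hs y hy) σ,
      ← e1] at e2
    have e3 : Q ^ ((σ + φ.a) / 2) = Q ^ (σ - 1 / 2) * Q ^ ((1 - σ + φ.a) / 2) := by
      rw [← Real.rpow_add hQpos]
      congr 1
      ring
    rw [e3] at e2
    have e4 : 0 < Q ^ ((1 - σ + φ.a) / 2) := Real.rpow_pos_of_pos hQpos _
    apply mul_right_cancel₀ e4.ne'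
    rw [e2]
    ring
  -- the functional equation of Mathlib
  have hinv : χ⁻¹ = χ := by
    have : χ * χ = 1 := by rw [← pow_two]; exact h2
    exact inv_eq_of_mul_eq_one_left this
  have hcpow : ∀ σ : ℝ, (((φ.r * d : ℕ) : ℂ)) ^ ((σ : ℂ) - 1 / 2) =
      ((Q ^ (σ - 1 / 2) : ℝ) : ℂ) := by
    intro σ
    rw [Complex.ofReal_cpow hQpos.le, hQ]
    push_cast
    rfl
  have hFE : ∀ σ : ℝ, DirichletCharacter.completedLFunction χ (1 - (σ : ℂ)) =
      ((Q ^ (σ - 1 / 2) : ℝ) : ℂ) * DirichletCharacter.rootNumber χ *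
        DirichletCharacter.completedLFunction χ (σ : ℂ) := by
    intro σ
    have e1 := h1.completedLFunction_one_sub (σ : ℂ)
    rw [hinv, hcpow] at e1
    exact e1
  -- a point where the function is not zero
  have hcontC : Continuous (fun σ : ℝ => DirichletCharacter.completedLFunction χ (σ : ℂ)) :=
    hdiff.continuous.comp Complex.continuous_ofReal
  have hne1 : ∀ σ : ℝ, 1 ≤ σ → LLg φ d σ ≠ 0 := by
    intro σ hσ h0
    have h4 := DirichletCharacter.LFunction_ne_zero_of_one_le_re χ (s := (σ : ℂ)) (Or.inl h3)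
      (by simpa using hσ)
    apply h4
    rw [hval σ (by linarith), h0, Complex.ofReal_zero]
  have h1ne : DirichletCharacter.completedLFunction χ ((1 : ℝ) : ℂ) ≠ 0 := by
    rw [hcomp 1 one_pos]
    exact_mod_cast mul_ne_zero (hne1 1 le_rfl) (hgm 1 one_pos).ne'
  obtain ⟨s0, hs00, hs01, hs0ne⟩ : ∃ s0 : ℝ, 0 < s0 ∧ s0 < 1 ∧
      DirichletCharacter.completedLFunction χ (s0 : ℂ) ≠ 0 := by
    have e1 : ∀ᶠ σ : ℝ in 𝓝 1, DirichletCharacter.completedLFunction χ (σ : ℂ) ≠ 0 :=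
      hcontC.continuousAt.eventually_ne h1ne
    have e2 : ∀ᶠ σ : ℝ in 𝓝[<] 1, DirichletCharacter.completedLFunction χ (σ : ℂ) ≠ 0 :=
      e1.filter_mono nhdsWithin_le_nhds
    have e3 : ∀ᶠ σ : ℝ in 𝓝[<] 1, 0 < σ :=
      (lt_mem_nhds (zero_lt_one)).filter_mono nhdsWithin_le_nhds
    have e4 : ∀ᶠ σ : ℝ in 𝓝[<] (1 : ℝ), σ < 1 := self_mem_nhdsWithin
    obtain ⟨σ, h5, h6, h7⟩ := (e2.and (e3.and e4)).exists
    exact ⟨σ, h6, h7, h5⟩
  have e1 := hFE s0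
  have e2 : (1 : ℂ) - (s0 : ℂ) = ((1 - s0 : ℝ) : ℂ) := by push_cast; rfl
  rw [e2, hcomp (1 - s0) (by linarith), hsym s0 hs00 hs01, Complex.ofReal_mul,
    ← hcomp s0 hs00] at e1
  have e3 : ((Q ^ (s0 - 1 / 2) : ℝ) : ℂ) ≠ 0 := by
    exact_mod_cast (Real.rpow_pos_of_pos hQpos _).ne'
  have e4 : ((Q ^ (s0 - 1 / 2) : ℝ) : ℂ) * DirichletCharacter.completedLFunction χ (s0 : ℂ) *
      (DirichletCharacter.rootNumber χ - 1) = 0 := by
    linear_combination -e1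
  rcases mul_eq_zero.mp e4 with h | h
  · exact absurd h (mul_ne_zero e3 hs0ne)
  · exact sub_eq_zero.mp h

end Pool.Agent.V5helper62.MD
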