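import Pool.Agent.V5helper62.MD.Char
import Pool.Agent.V5helper62.MD.Gam
import Pool.Agent.V5helper62.MD.Root
import Pool.Agent.H370R2.DirGood
import Pool.Agent.Y801.FK.Core

/-!
# The L-functions of the positive fundamental discriminants
-/

set_option autoImplicit false

namespace Pool.Agent.V5helper62.MD

open Pool.Agent.Q48.MDS Complex

/-- The L-function of the Kronecker symbol of the fundamental discriminant `D > 1`, an entire
function (for the other `D` the value is not used). -/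
noncomputable def Lf (D : ℕ) (s : ℂ) : ℂ := by
  classical exact
    if h : FundDisc D ∧ 1 < D then
      haveI : NeZero D := ⟨by omega⟩
      (Classical.choose (exists_char h.1 h.2)).LFunction s
    else 0

theorem Lf_spec {D : ℕ} (hD : FundDisc D) (h1 : 1 < D) (_h : NeZero D) : ∃ χ : DirichletCharacter ℂ D,
    χ.IsPrimitive ∧ χ ^ 2 = 1 ∧ χ ≠ 1 ∧ χ (-1) = 1 ∧
      (∀ n : ℕ, n ≠ 0 → χ (n : ZMod D) = ((kron D n : ℤ) : ℂ)) ∧ Lf D = χ.LFunction := by
  have h := Classical.choose_spec (exists_char hD h1)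
  refine ⟨Classical.choose (exists_char hD h1), h.1, h.2.1, h.2.2.1, h.2.2.2.1, h.2.2.2.2, ?_⟩
  funext s
  unfold Lf
  rw [dif_pos ⟨hD, h1⟩]

/-- any character with the values of the Kronecker symbol gives this L-function -/
theorem Lf_eq_of_char {D : ℕ} (hD : FundDisc D) (h1 : 1 < D) [_h : NeZero D]
    (χ : DirichletCharacter ℂ D) (hχ : ∀ n : ℕ, n ≠ 0 → χ (n : ZMod D) = ((kron D n : ℤ) : ℂ)) :
    χ.LFunction = Lf D := by
  obtain ⟨ψ, _, _, _, _, hψ, hL⟩ := Lf_spec hD h1 _h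
  rw [hL, Pool.Agent.W215.QP.char_ext χ ψ fun n hn => by rw [hχ n hn, hψ n hn]]

theorem Lf_diff {D : ℕ} (hD : FundDisc D) (h1 : 1 < D) : Differentiable ℂ (Lf D) := by
  have h0 : NeZero D := ⟨by omega⟩
  obtain ⟨χ, _, _, h3, _, _, h6⟩ := Lf_spec hD h1 h0
  rw [h6]
  exact DirichletCharacter.differentiable_LFunction h3

theorem Lf_eq {D : ℕ} (hD : FundDisc D) (h1 : 1 < D) {s : ℂ} (hs : 1 < s.re) :
    Lf D s = Lchi D s := by
  have h0 : NeZero D := ⟨by omega⟩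
  obtain ⟨χ, _, _, h3, _, h5, h6⟩ := Lf_spec hD h1 h0
  rw [h6, DirichletCharacter.LFunction_eq_LSeries χ hs]
  unfold Lchi
  refine LSeries_congr (fun {n} hn => ?_) s
  exact h5 n hn

theorem Lf_right {D : ℕ} (hD : FundDisc D) (h1 : 1 < D) {s : ℂ} (hs : 1 < s.re) :
    ‖Lf D s‖ ≤ 1 + 1 / (s.re - 1) := by
  have h0 : NeZero D := ⟨by omega⟩
  obtain ⟨χ, _, _, h3, _, h5, h6⟩ := Lf_spec hD h1 h0
  rw [h6]
  exact Pool.Agent.Y801.FK.Core.norm_LFunction_le D χ s hs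

theorem Lf_mid {D : ℕ} (hD : FundDisc D) (h1 : 1 < D) {s : ℂ} (hs : 1 / 4 ≤ s.re) :
    ‖Lf D s‖ ≤ 8 * D * ‖s‖ := by
  have h0 : NeZero D := ⟨by omega⟩
  obtain ⟨χ, _, _, h3, _, h5, h6⟩ := Lf_spec hD h1 h0
  have hs0 : 0 < s.re := by linarith
  have hA : ∀ u : ℝ, ‖∑ k ∈ Finset.Icc 1 ⌊u⌋₊, χ (k : ZMod D)‖ ≤ (D + 1 : ℝ) :=
    fun u => H370.DL.norm_sum_Icc_le h3 _
  rw [h6, H370.DL.L_integral h3 hs0, norm_mul]
  have h4 := H370.DL.J_bound hA hs0
  have hD1 : (1 : ℝ) ≤ D := by exact_mod_cast h1.le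
  have h5 : (D + 1 : ℝ) / s.re ≤ 8 * D := by
    rw [div_le_iff₀ hs0]
    nlinarith
  calc _ ≤ ‖s‖ * (8 * D) := mul_le_mul_of_nonneg_left (h4.trans h5) (norm_nonneg _)
    _ = _ := by ring

/-- the functional equation -/
theorem Lf_fe {D : ℕ} (hD : FundDisc D) (h1 : 1 < D) {s : ℂ} (hs : ∀ n : ℕ, s ≠ 2 * (n : ℂ) + 1) :
    Lf D s = (D : ℂ) ^ (1 / 2 - s) * X s * Lf D (1 - s) := by
  have h0 : NeZero D := ⟨by omega⟩
  obtain ⟨χ, c1, c2, c3, c4, c5, c6⟩ := Lf_spec hD h1 h0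
  have he : χ.Even := c4
  have hinv : χ⁻¹ = χ := by
    have : χ * χ = 1 := by rw [← pow_two]; exact c2
    exact inv_eq_of_mul_eq_one_left this
  have e1 := c1.completedLFunction_one_sub (1 - s)
  rw [hinv, rootNumber_one D h0 χ c1 c2 c3, mul_one, sub_sub_cancel] at e1
  have hN : D ≠ 1 := by omega
  have e2 := DirichletCharacter.LFunction_eq_completed_div_gammaFactor χ s (Or.inr hN)
  have e3 := DirichletCharacter.LFunction_eq_completed_div_gammaFactor χ (1 - s) (Or.inr hN)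
  rw [he.gammaFactor_def] at e2 e3
  have hg := Gammaℝ_ne hs
  rw [c6, e2, e3, e1, show (1 : ℂ) - s - 1 / 2 = 1 / 2 - s by ring]
  unfold X
  field_simp

end Pool.Agent.V5helper62.MD
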