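import Pool.Agent.V5helper62.MD.PL
import Pool.Agent.H353R2.R1

/-!
# Continuation gives bounds on the central line (Landau's theorem)
-/

set_option autoImplicit false

open MeasureTheory Set Filter Topology Metric

namespace Pool.Agent.V5helper62.MD

open Pool.Agent.Q48.MDS Complex

theorem Lf_conj {D : ℕ} (hD : FundDisc D) (h1 : 1 < D) {s : ℂ} (hs : s ≠ 1) :
    Lf D ((starRingEnd ℂ) s) = (starRingEnd ℂ) (Lf D s) := by
  have h0 : NeZero D := ⟨by omega⟩
  obtain ⟨χ, _, c2, _, _, _, c6⟩ := Lf_spec hD h1 h0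
  have hinv : χ⁻¹ = χ := by
    have : χ * χ = 1 := by rw [← pow_two]; exact c2
    exact inv_eq_of_mul_eq_one_left this
  have := H370.DL.LFunction_conj χ s hs
  rw [hinv] at this
  rw [c6, this]

/-- the point `(w, 1/2 + it, ..., 1/2 - it, ...)` -/
noncomputable def zz (m : ℕ) (t : ℝ) (w : ℂ) : Fin (m + m + 1) → ℂ :=
  Fin.cons w (fun j => if (j : ℕ) < m then 1 / 2 + I * t else 1 / 2 - I * t)

theorem zz_re (m : ℕ) (t : ℝ) (w : ℂ) : (fun i => (zz m t w i).re) = mid (m + m) w.re := by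
  funext i
  refine Fin.cases ?_ (fun j => ?_) i
  · simp [zz, mid]
  · simp only [zz, mid, Fin.cons_succ]
    split_ifs <;> simp

theorem zz_im_le (m : ℕ) (t : ℝ) (w : ℂ) : ‖fun i => (zz m t w i).im‖ ≤ |w.im| + |t| := by
  rw [pi_norm_le_iff_of_nonneg (by positivity)]
  intro i
  rw [Real.norm_eq_abs]
  refine Fin.cases ?_ (fun j => ?_) i
  · simp [zz]
  · simp only [zz, Fin.cons_succ]
    split_ifs
    · simp
    · simp

theorem differentiable_zz (m : ℕ) (t : ℝ) : Differentiable ℂ (zz m t) := by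
  rw [differentiable_pi]
  intro i
  refine Fin.cases ?_ (fun j => ?_) i
  · simp only [zz, Fin.cons_zero]; fun_prop
  · simp only [zz, Fin.cons_succ]; fun_prop

theorem sigma_zz_re (m : ℕ) (t : ℝ) (w : ℂ) (J : Finset (Fin (m + m))) :
    (sigma J (zz m t w) - 1).re = w.re - 1 := by
  rw [Complex.sub_re, sigma_re, zz_re, rsig_eq, Complex.one_re]
  simp [mid]

/-- the coefficients -/
noncomputable def hc (m : ℕ) (t : ℝ) (n : ℕ) : ℝ := by
  classical exact if FundDisc n ∧ n ≠ 1 then ‖Lf n (1 / 2 + I * t)‖ ^ (m + m) else 0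

theorem hc_nonneg (m : ℕ) (t : ℝ) (n : ℕ) : 0 ≤ hc m t n := by
  unfold hc
  split_ifs <;> positivity

theorem prod_zz {D : ℕ} (hD : FundDisc D) (h1 : 1 < D) (m : ℕ) (t : ℝ) (w : ℂ) :
    ∏ j : Fin (m + m), Lf D (zz m t w j.succ) = ((‖Lf D (1 / 2 + I * t)‖ ^ (m + m) : ℝ) : ℂ) := by
  have hne : (1 / 2 + I * t : ℂ) ≠ 1 := by
    intro h
    have := congrArg Complex.re h
    simp at this
  have hc : (1 / 2 - I * t : ℂ) = (starRingEnd ℂ) (1 / 2 + I * t) := by
    apply Complex.ext
    · simp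
    · simp
  rw [Fin.prod_univ_add]
  have e1 : ∀ i : Fin m, Lf D (zz m t w (Fin.castAdd m i).succ) = Lf D (1 / 2 + I * t) := by
    intro i
    simp only [zz, Fin.cons_succ, Fin.val_castAdd]
    rw [if_pos i.2]
  have e2 : ∀ i : Fin m, Lf D (zz m t w (Fin.natAdd m i).succ) =
      (starRingEnd ℂ) (Lf D (1 / 2 + I * t)) := by
    intro i
    simp only [zz, Fin.cons_succ, Fin.val_natAdd]
    rw [if_neg (by omega), hc, Lf_conj hD h1 hne]
  rw [Finset.prod_congr rfl fun i _ => e1 i, Finset.prod_congr rfl fun i _ => e2 i,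
    Finset.prod_const, Finset.prod_const, Finset.card_univ, Fintype.card_fin, ← mul_pow,
    Complex.mul_conj, Complex.normSq_eq_norm_sq]
  push_cast
  rw [← two_mul, pow_mul]

/-- the value of the series at `zz` -/
theorem A1_zz (m : ℕ) (t : ℝ) (w : ℂ) (hw : w ≠ 0) :
    A1 (m + m) 1 (zz m t w) = LSeries (fun n => (hc m t n : ℂ)) w := by
  classical
  unfold A1 LSeries
  have h1 : ∀ d : {d : ℕ // FundDisc d}, tm (m + m) 1 d (zz m t w) =
      LSeries.term (fun n => (hc m t n : ℂ)) w (d : ℕ) := by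
    intro d
    have hd0 : (d : ℕ) ≠ 0 := by
      rcases Nat.eq_zero_or_pos (d : ℕ) with h | h
      · intro _
        rcases d.2 with ⟨h', _⟩ | ⟨m', h', h'', _⟩ <;> omega
      · omega
    rw [LSeries.term_of_ne_zero hd0]
    unfold tm hc
    by_cases h : (d : ℕ) = 1
    · rw [if_pos h, if_neg (fun h' => h'.2 h)]
      simp
    · rw [if_neg h, if_pos ⟨d.2, h⟩, prod_zz d.2 (one_lt_of d.2 h)]
      have e1 : zz m t w 0 = w := by simp [zz]
      have e2 : kron (d : ℕ) 1 = 1 := by
        unfold kron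
        simp
      rw [e1, e2, Complex.cpow_neg]
      push_cast
      rw [one_mul]
      exact (mul_comm _ _).trans (div_eq_mul_inv _ _).symm
  rw [tsum_congr h1]
  have h2 := tsum_subtype {d : ℕ | FundDisc d} (fun n => LSeries.term (fun n => (hc m t n : ℂ)) w n)
  refine Eq.trans h2 ?_
  refine tsum_congr fun n => ?_
  by_cases hn : n ∈ {d : ℕ | FundDisc d}
  · rw [Set.indicator_of_mem hn]
  · rw [Set.indicator_of_notMem hn]
    have : hc m t n = 0 := by
      unfold hc
      rw [if_neg (fun h => hn h.1)]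
    unfold LSeries.term
    split_ifs
    · rfl
    · show (0 : ℂ) = (hc m t n : ℂ) / _
      rw [this]; simp

theorem norm_hc_le {m : ℕ} {D : ℕ} (hD : FundDisc D) (h1 : 1 < D) (t : ℝ) :
    hc m t D = ‖Lf D (1 / 2 + I * t)‖ ^ (m + m) := by
  unfold hc
  rw [if_pos ⟨hD, by omega⟩]

/-- **Landau.** If `F_1` with `2m` variables continues to the central point `(w0, 1/2, ..)`,
`w0 ≥ 1`, then `|L(1/2 + it, χ_d)|^(2m) ≪ d^w (1 + |t|)^N` for every `w > w0`. -/
theorem bound_of_mid {m : ℕ} {w0 : ℝ} (hw0 : 1 ≤ w0)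
    (h : ContinuesTo (m + m) 1 (mid (m + m) w0)) {w : ℝ} (hw : w0 < w) :
    ∃ (C : ℝ) (N : ℕ), 0 ≤ C ∧ ∀ t : ℝ, ∀ D : ℕ, FundDisc D → 1 < D →
      ‖Lf D (1 / 2 + I * t)‖ ^ (m + m) ≤ C * (1 + |t|) ^ N * (D : ℝ) ^ w := by
  obtain ⟨Ω, G, hpΩ, hG⟩ := cont_of h
  have hmem : ∀ v : ℝ, w0 ≤ v → mid (m + m) v ∈ Ω := by
    intro v hv
    refine mem_of_ge hG.op hG.conv hG.orth hpΩ fun i => ?_
    refine Fin.cases ?_ (fun j => ?_) i
    · simpa [mid] using hv
    · simp [mid]
  obtain ⟨C, N, hb⟩ := hG.temp.2 {mid (m + m) w} (singleton_subset_iff.2 (hmem w hw.le))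
    isCompact_singleton
  have hw1 : 0 < w - 1 := by linarith
  refine ⟨|C| / (w - 1) ^ (Fintype.card (Finset (Fin (m + m)))), N, by positivity,
    fun t D hD h1 => ?_⟩
  -- the function of one variable
  set Q : ℂ → ℂ := fun v => ∏ J : Finset (Fin (m + m)), (sigma J (zz m t v) - 1) with hQ
  have hQne : ∀ v : ℂ, 1 < v.re → Q v ≠ 0 := by
    intro v hv
    rw [hQ]
    simp only
    rw [Finset.prod_ne_zero_iff]
    intro J _ h0
    have := sigma_zz_re m t v J
    rw [h0, Complex.zero_re] at this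
    linarith
  have hQd : Differentiable ℂ Q := by
    refine diff_prod _ fun J _ => ?_
    exact ((differentiable_sigma J).comp (differentiable_zz m t)).sub_const 1
  set H : ℂ → ℂ := fun v => G (zz m t v) / Q v with hH
  have hHd : DifferentiableOn ℂ H {v : ℂ | w0 < v.re} := by
    intro v hv
    have hv' : w0 < v.re := hv
    have e1 : zz m t v ∈ tube Ω := by
      show (fun i => (zz m t v i).re) ∈ Ω
      rw [zz_re]; exact hmem _ hv'.le
    have e2 : DifferentiableAt ℂ G (zz m t v) :=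
      hG.temp.1.differentiableAt ((isOpen_tube hG.op).mem_nhds e1)
    have e3 : DifferentiableAt ℂ (fun v => G (zz m t v)) v := e2.comp v (differentiable_zz m t v)
    exact (e3.div (hQd v) (hQne v (by linarith))).differentiableWithinAt
  -- the shift
  set c : ℝ := ((m + m : ℕ) : ℝ) + 1 + w0 with hc'
  have hcpos : 0 < c := by
    have : (0 : ℝ) ≤ ((m + m : ℕ) : ℝ) := Nat.cast_nonneg _
    rw [hc']; linarith
  have hcw : ((m + m : ℕ) : ℝ) + 1 < c := by rw [hc']; linarith
  set h' : ℕ → ℝ := fun n => hc m t n / (n : ℝ) ^ c with hh'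
  have hh0 : ∀ n, 0 ≤ h' n := fun n => div_nonneg (hc_nonneg m t n) (by positivity)
  have hterm : ∀ (s : ℂ) (n : ℕ), LSeries.term (fun n => (h' n : ℂ)) s n =
      LSeries.term (fun n => (hc m t n : ℂ)) (s + c) n := by
    intro s n
    rcases eq_or_ne n 0 with hn | hn
    · simp [hn]
    · have hn' : (n : ℂ) ≠ 0 := by exact_mod_cast hn
      rw [LSeries.term_of_ne_zero hn, LSeries.term_of_ne_zero hn, Complex.cpow_add _ _ hn', hh']
      push_cast
      rw [Complex.ofReal_cpow (Nat.cast_nonneg n)]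
      push_cast
      rw [div_div, mul_comm]
  have hLs : ∀ s : ℂ, LSeries (fun n => (h' n : ℂ)) s = LSeries (fun n => (hc m t n : ℂ)) (s + c) :=
    fun s => tsum_congr (hterm s)
  have hVmem : ∀ v : ℝ, ((m + m : ℕ) : ℝ) + 1 < v → mid (m + m) v ∈ V (m + m) := by
    intro v hv J
    rw [rsig_eq]
    simpa [mid] using hv
  -- convergence and value on the right
  have hval : ∀ s : ℂ, 0 < s.re → H (s + c) = LSeries (fun n => (h' n : ℂ)) s := by
    intro s hs
    have hre : (s + c : ℂ).re = s.re + c := by simp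
    have e1 : zz m t (s + c) ∈ tube (V (m + m)) := by
      show (fun i => (zz m t (s + c) i).re) ∈ V (m + m)
      rw [zz_re, hre]; exact hVmem _ (by linarith)
    have hne0 : (s + c : ℂ) ≠ 0 := by
      intro h0
      rw [h0] at hre
      simp at hre
      linarith
    have hQ0 := hQne (s + c) (by rw [hre, hc']; have : (0 : ℝ) ≤ ((m + m : ℕ) : ℝ) := Nat.cast_nonneg _; linarith)
    rw [hLs, ← A1_zz m t (s + c) hne0, hH]
    simp only
    rw [hG.eqV e1]
    unfold F1
    rw [hQ] at hQ0 ⊢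
    exact mul_div_cancel_right₀ _ hQ0
  have hsum : ∀ s : ℂ, 1 < s.re → LSeriesSummable (fun n => (h' n : ℂ)) s := by
    intro s hs
    have hre : (s + c : ℂ).re = s.re + c := by simp
    have e1 : zz m t (s + c) ∈ tube (V (m + m)) := by
      show (fun i => (zz m t (s + c) i).re) ∈ V (m + m)
      rw [zz_re, hre]; exact hVmem _ (by linarith)
    have e2 := (dom_V (m + m) 1).summable e1
    have e3 : Summable (fun d : {d : ℕ // FundDisc d} =>
        LSeries.term (fun n => (h' n : ℂ)) s (d : ℕ)) := by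
      refine e2.congr fun d => ?_
      rw [hterm]
      have hd0 : (d : ℕ) ≠ 0 := by
        rcases Nat.eq_zero_or_pos (d : ℕ) with h | h
        · intro _
          rcases d.2 with ⟨h', _⟩ | ⟨m', h', h'', _⟩ <;> omega
        · omega
      rw [LSeries.term_of_ne_zero hd0]
      unfold tm hc
      by_cases h : (d : ℕ) = 1
      · rw [if_pos h, if_neg (fun h' => h'.2 h)]
        simp
      · rw [if_neg h, if_pos ⟨d.2, h⟩, prod_zz d.2 (one_lt_of d.2 h)]
        have e1 : zz m t (s + c) 0 = s + c := by simp [zz]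
        have e2 : kron (d : ℕ) 1 = 1 := by
          unfold kron
          simp
        rw [e1, e2, Complex.cpow_neg]
        push_cast
        rw [one_mul]
        exact (mul_comm _ _).trans (div_eq_mul_inv _ _).symm
    unfold LSeriesSummable
    have e4 : Function.support (LSeries.term (fun n => (h' n : ℂ)) s) ⊆ {d : ℕ | FundDisc d} := by
      intro n hn
      by_contra hn2
      apply hn
      have : hc m t n = 0 := by
        unfold hc
        rw [if_neg (fun h => hn2 h.1)]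
      rw [hterm]
      unfold LSeries.term
      split_ifs
      · rfl
      · show (hc m t n : ℂ) / _ = 0
        rw [this]; simp
    have e5 := Function.Injective.summable_iff (Subtype.val_injective (p := FundDisc))
      (f := LSeries.term (fun n => (h' n : ℂ)) s) (fun n hn => by
        by_contra h0
        exact hn ⟨⟨n, e4 h0⟩, rfl⟩)
    exact e5.1 e3
  set H' : ℂ → ℂ := fun s => H (s + c) with hH'
  have hH'd : DifferentiableOn ℂ H' {s : ℂ | w0 - c < s.re} := by
    refine hHd.comp (by fun_prop) fun s hs => ?_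
    have : w0 - c < s.re := hs
    show w0 < (s + c : ℂ).re
    simp
    linarith
  have hθ1 : w0 - c < 1 := by
    have : (0 : ℝ) ≤ ((m + m : ℕ) : ℝ) := Nat.cast_nonneg _
    rw [hc']; linarith
  have hland : ∀ σ : ℝ, w0 - c < σ → LSeriesSummable (fun n => (h' n : ℂ)) σ := fun σ hσ =>
    H353.landau_half h' hh0 H' (w0 - c) hθ1 hH'd hsum
      (fun s hs => hval s (by linarith)) σ hσ
  have habs : LSeries.abscissaOfAbsConv (fun n => (h' n : ℂ)) ≤ ((w0 - c : ℝ) : EReal) :=
    LSeries.abscissaOfAbsConv_le_of_forall_lt_LSeriesSummable hland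
  have hopen : IsOpen {s : ℂ | w0 - c < s.re} := isOpen_lt continuous_const Complex.continuous_re
  have hLd : DifferentiableOn ℂ (LSeries (fun n => (h' n : ℂ))) {s : ℂ | w0 - c < s.re} := by
    refine (LSeries_differentiableOn (fun n => (h' n : ℂ))).mono fun s hs => ?_
    have : w0 - c < s.re := hs
    show LSeries.abscissaOfAbsConv (fun n => (h' n : ℂ)) < s.re
    exact lt_of_le_of_lt habs (by exact_mod_cast this)
  have heq : EqOn H' (LSeries (fun n => (h' n : ℂ))) {s : ℂ | w0 - c < s.re} := by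
    refine AnalyticOnNhd.eqOn_of_preconnected_of_eventuallyEq (z₀ := 2)
      (hH'd.analyticOnNhd hopen) (hLd.analyticOnNhd hopen)
      (convex_halfSpace_re_gt _).isPreconnected ?_ ?_
    · show w0 - c < (2 : ℂ).re
      simp
      linarith
    · have hopen1 : IsOpen {s : ℂ | 0 < s.re} := isOpen_lt continuous_const Complex.continuous_re
      filter_upwards [hopen1.mem_nhds (show (2:ℂ) ∈ {s : ℂ | 0 < s.re} by simp)] with z hz
      exact hval z hz
  -- the value at `w`
  have hσ : w0 - c < w - c := by linarith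
  have e1 : H' ((w - c : ℝ) : ℂ) = LSeries (fun n => (h' n : ℂ)) ((w - c : ℝ) : ℂ) :=
    heq (show w0 - c < (((w - c : ℝ) : ℂ)).re by simpa using hσ)
  have e2 : H' ((w - c : ℝ) : ℂ) = H (w : ℂ) := by
    simp only [hH']
    congr 1
    push_cast
    ring
  -- one term is at most the sum
  have hreal : ∀ n : ℕ, LSeries.term (fun n => (h' n : ℂ)) ((w - c : ℝ) : ℂ) n =
      (((if n = 0 then 0 else h' n / (n : ℝ) ^ (w - c)) : ℝ) : ℂ) := by
    intro n
    rcases eq_or_ne n 0 with hn | hn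
    · simp [hn]
    · rw [LSeries.term_of_ne_zero hn, if_neg hn]
      push_cast
      rw [Complex.ofReal_cpow (Nat.cast_nonneg n)]
      push_cast
      rfl
  have hsr : Summable (fun n : ℕ => if n = 0 then 0 else h' n / (n : ℝ) ^ (w - c)) := by
    have := hland (w - c) hσ
    unfold LSeriesSummable at this
    rw [show LSeries.term (fun n => (h' n : ℂ)) ((w - c : ℝ) : ℂ) = fun n =>
      (((if n = 0 then 0 else h' n / (n : ℝ) ^ (w - c)) : ℝ) : ℂ) from funext hreal] at this
    exact_mod_cast (Complex.summable_ofReal.1 this)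
  have hterm_nonneg : ∀ n : ℕ, 0 ≤ if n = 0 then 0 else h' n / (n : ℝ) ^ (w - c) := by
    intro n
    split_ifs
    · exact le_rfl
    · exact div_nonneg (hh0 n) (by positivity)
  have hLre : LSeries (fun n => (h' n : ℂ)) ((w - c : ℝ) : ℂ) =
      ((∑' n : ℕ, if n = 0 then 0 else h' n / (n : ℝ) ^ (w - c) : ℝ) : ℂ) := by
    unfold LSeries
    rw [Complex.ofReal_tsum]
    exact tsum_congr hreal
  have hone : h' D / (D : ℝ) ^ (w - c) ≤ ‖H (w : ℂ)‖ := by
    rw [← e2, e1, hLre, Complex.norm_real, Real.norm_eq_abs]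
    refine le_trans ?_ (le_abs_self _)
    have := hsr.le_tsum D (fun n _ => hterm_nonneg n)
    rwa [if_neg (by omega)] at this
  have hD0 : (0 : ℝ) < D := by exact_mod_cast (by omega : 0 < D)
  have hDval : h' D / (D : ℝ) ^ (w - c) = ‖Lf D (1 / 2 + I * t)‖ ^ (m + m) / (D : ℝ) ^ w := by
    simp only [hh']
    rw [norm_hc_le hD h1, div_div, ← Real.rpow_add hD0]
    congr 2
    ring
  rw [hDval, div_le_iff₀ (Real.rpow_pos_of_pos hD0 _)] at hone
  refine hone.trans ?_
  have hHn : ‖H (w : ℂ)‖ ≤ |C| / (w - 1) ^ (Fintype.card (Finset (Fin (m + m)))) *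
      (1 + |t|) ^ N := by
    simp only [hH]
    rw [norm_div]
    have g1 : ‖G (zz m t (w : ℂ))‖ ≤ |C| * (1 + |t|) ^ N := by
      have g2 := hb (zz m t (w : ℂ)) (by rw [zz_re]; simp)
      refine g2.trans ?_
      have g3 : 1 + ‖fun i => (zz m t (w : ℂ) i).im‖ ≤ 1 + |t| := by
        have := zz_im_le m t (w : ℂ)
        rw [Complex.ofReal_im, abs_zero, zero_add] at this
        linarith
      have g4 := one_le_nim (zz m t (w : ℂ))
      gcongr
      exact le_abs_self C
    have g5 : (w - 1) ^ (Fintype.card (Finset (Fin (m + m)))) ≤ ‖Q (w : ℂ)‖ := by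
      simp only [hQ]
      rw [norm_prod, ← Finset.card_univ, ← Finset.prod_const]
      refine Finset.prod_le_prod (fun J _ => hw1.le) fun J _ => ?_
      have g6 := Complex.re_le_norm (sigma J (zz m t (w : ℂ)) - 1)
      rw [sigma_zz_re, Complex.ofReal_re] at g6
      exact g6
    have g7 : 0 < (w - 1) ^ (Fintype.card (Finset (Fin (m + m)))) := by positivity
    calc ‖G (zz m t (w : ℂ))‖ / ‖Q (w : ℂ)‖ ≤
        (|C| * (1 + |t|) ^ N) / (w - 1) ^ (Fintype.card (Finset (Fin (m + m)))) := by gcongr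
      _ = _ := by ring
  have hDw : 0 < (D : ℝ) ^ w := Real.rpow_pos_of_pos hD0 _
  gcongr

/-- one level gives an admissible exponent -/
theorem LH_of_level {m : ℕ} (hm : 1 ≤ m) {p : Fin (m + m + 1) → ℝ}
    (h : ContinuesTo (m + m) 1 p) : LH (max 1 (level p) / (2 * m)) := by
  intro ε hε
  set w0 : ℝ := max 1 (level p) with hw0
  have hm0 : (0 : ℝ) < 2 * m := by
    have : (1 : ℝ) ≤ m := by exact_mod_cast hm
    linarith
  have h1 : ContinuesTo (m + m) 1 (mid (m + m) w0) := mid_iff.2 ⟨p, h, le_max_right _ _⟩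
  obtain ⟨C, N, hC, hb⟩ := bound_of_mid (le_max_left _ _) h1
    (show w0 < w0 + 2 * m * ε by have := mul_pos hm0 hε; linarith)
  refine ⟨C + N + 1, by positivity, fun D hD hD1 t => ?_⟩
  have hD1' : (1 : ℝ) ≤ D := by exact_mod_cast hD1.le
  have hD0 : (0 : ℝ) < D := by linarith
  have ht : 1 ≤ 1 + |t| := by linarith [abs_nonneg t]
  have hN0 : (0 : ℝ) ≤ N := Nat.cast_nonneg N
  have h2 := hb t D hD hD1
  have h3 : w0 + 2 * m * ε = (w0 / (2 * m) + ε) * ((m + m : ℕ) : ℝ) := by
    push_cast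
    field_simp
    ring
  have h4 : C * (1 + |t|) ^ N * (D : ℝ) ^ (w0 + 2 * m * ε) ≤
      ((C + N + 1) * (D : ℝ) ^ (w0 / (2 * m) + ε) * (1 + |t|) ^ (C + N + 1)) ^ (m + m) := by
    rw [h3, Real.rpow_mul hD0.le, Real.rpow_natCast, mul_pow, mul_pow]
    have hmm : m + m ≠ 0 := by omega
    have g1 : C ≤ (C + N + 1) ^ (m + m) := by
      have : C + N + 1 ≤ (C + N + 1) ^ (m + m) := le_self_pow₀ (by linarith) hmm
      linarith
    have g2 : (1 + |t|) ^ N ≤ ((1 + |t|) ^ (C + N + 1)) ^ (m + m) := by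
      have g3 : (1 + |t|) ^ N ≤ (1 + |t|) ^ (C + N + 1) := by
        rw [← Real.rpow_natCast]
        exact Real.rpow_le_rpow_of_exponent_le ht (by linarith)
      have g4 : 1 ≤ (1 + |t|) ^ (C + N + 1) := Real.one_le_rpow ht (by positivity)
      exact g3.trans (le_self_pow₀ g4 hmm)
    calc C * (1 + |t|) ^ N * ((D : ℝ) ^ (w0 / (2 * m) + ε)) ^ (m + m)
        ≤ (C + N + 1) ^ (m + m) * ((1 + |t|) ^ (C + N + 1)) ^ (m + m) *
          ((D : ℝ) ^ (w0 / (2 * m) + ε)) ^ (m + m) := by gcongr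
      _ = _ := by ring
  exact le_of_pow_le_pow_left₀ (by omega) (by positivity) (h2.trans h4)

theorem LH_of_approx {θ : ℝ} (h : ∀ ε : ℝ, 0 < ε → ∃ θ' : ℝ, θ' ≤ θ + ε ∧ LH θ') : LH θ := by
  intro ε hε
  obtain ⟨θ', h1, h2⟩ := h (ε / 2) (by linarith)
  obtain ⟨A, hA, hb⟩ := h2 (ε / 2) (by linarith)
  refine ⟨A, hA, fun D hD hD1 t => (hb D hD hD1 t).trans ?_⟩
  have hD1' : (1 : ℝ) ≤ D := by exact_mod_cast hD1.le
  have : (D : ℝ) ^ (θ' + ε / 2) ≤ (D : ℝ) ^ (θ + ε) :=
    Real.rpow_le_rpow_of_exponent_le hD1' (by linarith)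
  gcongr

/-- **Small levels for infinitely many `k`.** -/
theorem LH_of_levels {θ : ℝ} (hθ : 0 ≤ θ) (h : ∀ ε : ℝ, 0 < ε → ∀ K : ℕ, ∃ k ≥ K,
    ∃ p : Fin (k + 1) → ℝ, ContinuesTo k 1 p ∧ level p ≤ (θ + ε) * k) : LH θ := by
  refine LH_of_approx fun ε hε => ?_
  obtain ⟨K, hK⟩ := exists_nat_ge ((2 * θ + ε + 4) / ε + 3)
  obtain ⟨k, hk, p, hp, hl⟩ := h (ε / 2) (by linarith) K
  have hkK : (K : ℝ) ≤ k := by exact_mod_cast hk
  have hε0 : 0 < (2 * θ + ε + 4) / ε := by apply div_pos <;> linarith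
  have hk3 : (3 : ℝ) < k := by linarith
  -- an even number of variables
  obtain ⟨m, hm1, hmk, hc⟩ : ∃ m : ℕ, 1 ≤ m ∧ k ≤ 2 * m + 1 ∧ 2 * m ≤ k ∧
      ContinuesTo (m + m) 1 (mid (m + m) (max 1 (level p))) := by
    have h1 : ContinuesTo k 1 (mid k (max 1 (level p))) := mid_iff.2 ⟨p, hp, le_max_right _ _⟩
    have hk3' : 3 < k := by exact_mod_cast hk3
    rcases Nat.even_or_odd' k with ⟨m, hm | hm⟩
    · refine ⟨m, by omega, by omega, by omega, ?_⟩
      have e : k = m + m := by omega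
      subst e
      exact h1
    · refine ⟨m, by omega, by omega, by omega, ?_⟩
      have e : k = m + m + 1 := by omega
      subst e
      have e2 : mid (m + m + 1) (max 1 (level p)) =
          sn (mid (m + m) (max 1 (level p))) (1 / 2 : ℝ) := by
        funext i
        refine Fin.cases ?_ (fun j => ?_) i
        · rw [sn_zero]; simp [mid]
        · refine Fin.lastCases ?_ (fun l => ?_) j
          · rw [sn_succ_last]; simp [mid]
          · rw [sn_succ]; simp [mid]
      rw [e2] at h1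
      have := continuesTo_drop (m := 1) le_rfl le_rfl h1
      rwa [one_mul] at this
  obtain ⟨hmk2, hc⟩ := hc
  refine ⟨_, ?_, LH_of_level hm1 hc⟩
  rw [level_mid]
  have hm0 : (0 : ℝ) < 2 * m := by
    have : (1 : ℝ) ≤ m := by exact_mod_cast hm1
    linarith
  have g1 : (k : ℝ) ≤ 2 * m + 1 := by exact_mod_cast hmk
  rw [max_eq_right (le_max_left 1 (level p)), div_le_iff₀ hm0]
  have g2 : (2 * θ + ε + 4) / ε ≤ 2 * m := by linarith
  rw [div_le_iff₀ hε] at g2
  have g3 : (θ + ε / 2) * k ≤ (θ + ε / 2) * (2 * m + 1) := by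
    have : 0 ≤ θ + ε / 2 := by linarith
    gcongr
  refine max_le ?_ ?_
  · nlinarith
  · nlinarith

end Pool.Agent.V5helper62.MD
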