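import Pool.Agent.V5helper62.MD.Lan
import Mathlib.Analysis.Normed.Lp.PiLp

/-!
# Moments on the central line give continuation
-/

set_option autoImplicit false

open MeasureTheory Set Filter Topology Metric

namespace Pool.Agent.V5helper62.MD

open Pool.Agent.Q48.MDS Complex

/-- the fundamental discriminants `1 < D ≤ X` -/
noncomputable def FD (X : ℕ) : Finset ℕ := by
  classical exact (Finset.Icc 2 X).filter FundDisc

theorem mem_FD {X D : ℕ} : D ∈ FD X ↔ (1 < D ∧ D ≤ X) ∧ FundDisc D := by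
  classical
  unfold FD
  rw [Finset.mem_filter, Finset.mem_Icc]
  rfl

theorem card_FD (X : ℕ) : ((FD X).card : ℝ) ≤ X := by
  classical
  have h1 : (FD X).card ≤ (Finset.Icc 2 X).card := by
    unfold FD
    exact Finset.card_filter_le _ _
  have h2 : (Finset.Icc 2 X).card ≤ X := by
    rw [Nat.card_Icc]; omega
  exact_mod_cast h1.trans h2

/-- `e` is an exponent of the moment of order `k` on the central line -/
def Mom (k : ℕ) (e : ℝ) : Prop := ∀ ε : ℝ, 0 < ε → ∃ A : ℝ, 0 < A ∧ ∀ X : ℕ, 1 ≤ X → ∀ t : ℝ,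
  ∑ D ∈ FD X, ‖Lf D (1 / 2 + I * t)‖ ^ k ≤ A * (X : ℝ) ^ (e + ε) * (1 + |t|) ^ A

/-- the Phragmen-Lindeloef principle for vectors -/
theorem right_of_line_mom {k : ℕ} (hk : 1 ≤ k) {e A : ℝ} (he : 1 ≤ e) (hA : 0 < A)
    (h : ∀ X : ℕ, 1 ≤ X → ∀ t : ℝ,
      ∑ D ∈ FD X, ‖Lf D (1 / 2 + I * t)‖ ^ k ≤ A * (X : ℝ) ^ e * (1 + |t|) ^ A) :
    ∃ (C : ℝ) (N : ℕ), 0 ≤ C ∧ ∀ X : ℕ, 1 ≤ X → ∀ s : ℂ, 1 / 2 ≤ s.re →
      ∑ D ∈ FD X, ‖Lf D s‖ ^ k ≤ C * (1 + |s.im|) ^ N * (X : ℝ) ^ e := by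
  obtain ⟨N, hN⟩ := exists_nat_ge A
  refine ⟨(A * 2 ^ N + 2 ^ k) * 4 ^ (N * k), N * k, by positivity, fun X hX s hs => ?_⟩
  have hX1 : (1 : ℝ) ≤ X := by exact_mod_cast hX
  have hX0 : (0 : ℝ) < X := by linarith
  have hXe : (X : ℝ) ≤ (X : ℝ) ^ e := by
    calc (X : ℝ) = (X : ℝ) ^ (1 : ℝ) := (Real.rpow_one _).symm
      _ ≤ _ := Real.rpow_le_rpow_of_exponent_le hX1 he
  have hXe0 : 0 ≤ (X : ℝ) ^ e := by positivity
  have ht : 1 ≤ (1 + |s.im|) := by linarith [abs_nonneg s.im]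
  have htN : 1 ≤ (1 + |s.im|) ^ (N * k) := one_le_pow₀ ht
  have h4 : (1 : ℝ) ≤ 4 ^ (N * k) := one_le_pow₀ (by norm_num)
  have htriv : ∀ z : ℂ, 2 ≤ z.re → ∑ D ∈ FD X, ‖Lf D z‖ ^ k ≤ 2 ^ k * (X : ℝ) ^ e := by
    intro z hz
    calc ∑ D ∈ FD X, ‖Lf D z‖ ^ k ≤ ∑ D ∈ FD X, (2 : ℝ) ^ k := by
          refine Finset.sum_le_sum fun D hD => ?_
          obtain ⟨⟨h1, _⟩, hD⟩ := mem_FD.1 hD
          have h3 := Lf_right hD h1 (s := z) (by linarith)
          have h5 : 1 / (z.re - 1) ≤ 1 := by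
            rw [div_le_one (by linarith)]; linarith
          exact pow_le_pow_left₀ (norm_nonneg _) (by linarith) k
      _ = (FD X).card * 2 ^ k := by rw [Finset.sum_const, nsmul_eq_mul]
      _ ≤ X * 2 ^ k := mul_le_mul_of_nonneg_right (card_FD X) (by positivity)
      _ = 2 ^ k * X := by ring
      _ ≤ _ := by gcongr
  rcases le_total 2 s.re with h2 | h2
  · refine (htriv s h2).trans ?_
    calc 2 ^ k * (X : ℝ) ^ e = (0 + 2 ^ k) * 1 * 1 * (X : ℝ) ^ e := by ring
      _ ≤ (A * 2 ^ N + 2 ^ k) * 4 ^ (N * k) * (1 + |s.im|) ^ (N * k) * (X : ℝ) ^ e := by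
          gcongr
          positivity
  · have hadd : ∀ z : ℂ, 1 / 2 ≤ z.re → 1 ≤ ‖z + 1‖ := by
      intro z hz
      have h3 := Complex.re_le_norm (z + 1)
      simp only [Complex.add_re, Complex.one_re] at h3
      linarith
    have hne : ∀ z : ℂ, 1 / 2 ≤ z.re → (z + 1) ^ N ≠ 0 := by
      intro z hz
      apply pow_ne_zero
      rw [← norm_ne_zero_iff]
      linarith [hadd z hz]
    have hcl : closure (Complex.re ⁻¹' Ioo (1 / 2 : ℝ) 2) ⊆ {z : ℂ | 1 / 2 ≤ z.re} := by
      apply closure_minimal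
      · intro z hz
        exact hz.1.le
      · exact isClosed_le continuous_const Complex.continuous_re
    have : Fact ((1 : ENNReal) ≤ (k : ENNReal)) := ⟨by exact_mod_cast hk⟩
    have hk0 : k ≠ 0 := by omega
    set g : ℂ → ({D // D ∈ FD X} → ℂ) := fun z D => Lf D z / (z + 1) ^ N with hg
    set L := (PiLp.continuousLinearEquiv (k : ENNReal) ℂ (fun _ : {D // D ∈ FD X} => ℂ)).symm
      with hL
    set f : ℂ → PiLp (k : ENNReal) (fun _ : {D // D ∈ FD X} => ℂ) := fun z => L (g z) with hf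
    -- the norm
    have hnorm : ∀ z : ℂ, ‖f z‖ ^ k * ‖(z + 1) ^ N‖ ^ k = ∑ D ∈ FD X, ‖Lf D z‖ ^ k ∨
        (z + 1) ^ N = 0 := by
      intro z
      by_cases h0 : (z + 1) ^ N = 0
      · exact Or.inr h0
      left
      have e1 : ‖f z‖ = (∑ D : {D // D ∈ FD X}, ‖g z D‖ ^ k) ^ (1 / (k : ℝ)) := by
        rw [PiLp.norm_eq_of_nat k rfl]
        rfl
      have e2 : ‖f z‖ ^ k = ∑ D : {D // D ∈ FD X}, ‖g z D‖ ^ k := by
        rw [e1, one_div, Real.rpow_inv_natCast_pow (Finset.sum_nonneg fun D _ => by positivity) hk0]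
      rw [e2, Finset.sum_mul, ← Finset.sum_coe_sort (FD X) (fun D => ‖Lf D z‖ ^ k)]
      refine Finset.sum_congr rfl fun D _ => ?_
      rw [hg]
      simp only
      rw [norm_div, div_pow, div_mul_cancel₀]
      exact pow_ne_zero _ (norm_ne_zero_iff.2 h0)
    set B : ℝ := (A * 2 ^ N + 2 ^ k) * (X : ℝ) ^ e with hB
    have hB0 : 0 ≤ B := by positivity
    have key := PhragmenLindelof.vertical_strip (a := 1 / 2) (b := 2)
      (f := f) (C := B ^ ((k : ℝ)⁻¹)) ?_ ?_ ?_ ?_
      (z := s) hs h2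
    · have h5 : ‖f s‖ ^ k ≤ B := by
        calc ‖f s‖ ^ k ≤ (B ^ ((k : ℝ)⁻¹)) ^ k := pow_le_pow_left₀ (norm_nonneg _) key k
          _ = B := Real.rpow_inv_natCast_pow hB0 hk0
      have h6 := (hnorm s).resolve_right (hne s hs)
      rw [← h6]
      have h7 : ‖s + 1‖ ≤ 4 * (1 + |s.im|) := by
        refine (Complex.norm_le_abs_re_add_abs_im _).trans ?_
        simp only [Complex.add_re, Complex.one_re, Complex.add_im, Complex.one_im, add_zero]
        rw [abs_of_nonneg (by linarith)]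
        linarith [abs_nonneg s.im]
      have h8 : ‖(s + 1) ^ N‖ ^ k ≤ (4 * (1 + |s.im|)) ^ (N * k) := by
        rw [norm_pow, ← pow_mul]
        exact pow_le_pow_left₀ (norm_nonneg _) h7 _
      calc ‖f s‖ ^ k * ‖(s + 1) ^ N‖ ^ k ≤ B * (4 * (1 + |s.im|)) ^ (N * k) := by gcongr
        _ = _ := by rw [hB, mul_pow]; ring
    · refine DifferentiableOn.diffContOnCl ?_
      intro z hz
      refine DifferentiableAt.differentiableWithinAt ?_
      have h5 : DifferentiableAt ℂ g z := by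
        rw [differentiableAt_pi]
        intro D
        obtain ⟨⟨h1, _⟩, hD⟩ := mem_FD.1 D.2
        exact (Lf_diff hD h1 z).div (by fun_prop) (hne z (hcl hz))
      exact (L.differentiable.differentiableAt).comp z h5
    · refine ⟨1, ?_, 1, ?_⟩
      · rw [lt_div_iff₀ (by norm_num)]
        linarith [Real.pi_gt_three]
      · refine Asymptotics.IsBigO.of_bound (‖(L : ({D // D ∈ FD X} → ℂ) →L[ℂ]
          PiLp (k : ENNReal) (fun _ : {D // D ∈ FD X} => ℂ))‖ * (24 * X)) ?_
        rw [eventually_inf_principal]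
        refine Eventually.of_forall fun z hz => ?_
        have hz' : 1 / 2 < z.re ∧ z.re < 2 := hz
        have h5 : ‖g z‖ ≤ 8 * X * ‖z‖ := by
          rw [pi_norm_le_iff_of_nonneg (by positivity)]
          intro D
          obtain ⟨⟨h1, hDX⟩, hD⟩ := mem_FD.1 D.2
          rw [hg]
          simp only
          rw [norm_div, norm_pow]
          have h6 : 1 ≤ ‖z + 1‖ ^ N := one_le_pow₀ (hadd z hz'.1.le)
          refine (div_le_self (norm_nonneg _) h6).trans ?_
          refine (Lf_mid hD h1 (by linarith)).trans ?_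
          have : ((D : ℕ) : ℝ) ≤ X := by exact_mod_cast hDX
          gcongr
        have h6 : ‖z‖ ≤ 3 * (1 + |z.im|) := by
          have := norm_pow_le (s := z) le_rfl (B := 2) (by rw [abs_of_pos (by linarith)]; linarith)
          linarith
        have h7 : 1 + |z.im| ≤ Real.exp |z.im| := by linarith [Real.add_one_le_exp |z.im|]
        have h8 : Real.exp |z.im| ≤ Real.exp (Real.exp |z.im|) := by
          apply Real.exp_le_exp.2
          linarith [Real.add_one_le_exp |z.im|]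
        rw [Real.norm_eq_abs, abs_of_pos (Real.exp_pos _), one_mul, one_mul]
        have h9 : ‖f z‖ ≤ ‖(L : ({D // D ∈ FD X} → ℂ) →L[ℂ]
          PiLp (k : ENNReal) (fun _ : {D // D ∈ FD X} => ℂ))‖ * ‖g z‖ :=
          ContinuousLinearMap.le_opNorm (L : ({D // D ∈ FD X} → ℂ) →L[ℂ]
          PiLp (k : ENNReal) (fun _ : {D // D ∈ FD X} => ℂ)) (g z)
        refine h9.trans ?_
        rw [mul_assoc]
        refine mul_le_mul_of_nonneg_left ?_ (norm_nonneg _)
        calc ‖g z‖ ≤ 8 * X * ‖z‖ := h5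
          _ ≤ 8 * X * (3 * (1 + |z.im|)) := by gcongr
          _ = 24 * X * (1 + |z.im|) := by ring
          _ ≤ 24 * X * Real.exp (Real.exp |z.im|) := by
              gcongr
              linarith
    · intro z hz
      have e1 : z = 1 / 2 + I * (z.im : ℂ) := by
        apply Complex.ext
        · simp [hz]
        · simp
      have h5 := h X hX z.im
      rw [← e1] at h5
      have h6 := hadd z hz.ge
      have h9 := (hnorm z).resolve_right (hne z hz.ge)
      have ht' : 1 ≤ (1 + |z.im|) := by linarith [abs_nonneg z.im]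
      have h7 : (1 + |z.im|) ^ A ≤ (1 + |z.im|) ^ N := by
        rw [← Real.rpow_natCast]
        exact Real.rpow_le_rpow_of_exponent_le ht' hN
      have h8 : 1 + |z.im| ≤ 2 * ‖z + 1‖ := by
        have h9 := Complex.abs_im_le_norm (z + 1)
        simp only [Complex.add_im, Complex.one_im, add_zero] at h9
        linarith
      have h10 : ‖z + 1‖ ^ N ≤ ‖(z + 1) ^ N‖ ^ k := by
        rw [norm_pow]
        exact le_self_pow₀ (one_le_pow₀ h6) hk0
      have h11 : ‖f z‖ ^ k * ‖(z + 1) ^ N‖ ^ k ≤ B * ‖(z + 1) ^ N‖ ^ k := by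
        rw [h9]
        refine h5.trans ?_
        calc A * (X : ℝ) ^ e * (1 + |z.im|) ^ A ≤ A * (X : ℝ) ^ e * (2 * ‖z + 1‖) ^ N := by
              gcongr
              refine h7.trans ?_
              gcongr
          _ = (A * 2 ^ N) * (X : ℝ) ^ e * ‖z + 1‖ ^ N := by rw [mul_pow]; ring
          _ ≤ (A * 2 ^ N + 2 ^ k) * (X : ℝ) ^ e * ‖(z + 1) ^ N‖ ^ k := by
              gcongr
              have : (0 : ℝ) ≤ 2 ^ k := by positivity
              linarith
      have h12 : 0 < ‖(z + 1) ^ N‖ ^ k := by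
        have := norm_pos_iff.2 (hne z hz.ge)
        positivity
      have h13 : ‖f z‖ ^ k ≤ B := le_of_mul_le_mul_right h11 h12
      refine le_of_pow_le_pow_left₀ hk0 (by positivity) ?_
      rw [Real.rpow_inv_natCast_pow hB0 hk0]
      exact h13
    · intro z hz
      have h6 := hadd z (by rw [hz]; norm_num)
      have h9 := (hnorm z).resolve_right (hne z (by rw [hz]; norm_num))
      have h10 : 1 ≤ ‖(z + 1) ^ N‖ ^ k := by
        rw [norm_pow]
        exact one_le_pow₀ (one_le_pow₀ h6)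
      have h11 : ‖f z‖ ^ k ≤ B := by
        calc ‖f z‖ ^ k = ‖f z‖ ^ k * 1 := (mul_one _).symm
          _ ≤ ‖f z‖ ^ k * ‖(z + 1) ^ N‖ ^ k := by gcongr
          _ = _ := h9
          _ ≤ 2 ^ k * (X : ℝ) ^ e := htriv z hz.ge
          _ ≤ B := by
              rw [hB]
              gcongr
              have : 0 ≤ A * 2 ^ N := by positivity
              linarith
      refine le_of_pow_le_pow_left₀ hk0 (by positivity) ?_
      rw [Real.rpow_inv_natCast_pow hB0 hk0]
      exact h11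

end Pool.Agent.V5helper62.MD
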