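import Pool.Agent.V5helper62.MD.Blk

/-!
# Continuation gives moments; comparison of moments
-/

set_option autoImplicit false

open MeasureTheory Set Filter Topology Metric

namespace Pool.Agent.V5helper62.MD

open Pool.Agent.Q48.MDS Complex

/-- **Landau.** If `F_1` with `2m` variables continues to the central point `(w0, 1/2, ..)`,
`w0 ≥ 1`, then the sum of `|L(1/2 + it, χ_d)|^(2m) d^(-w)` is `≪ (1 + |t|)^N` for every `w > w0`. -/
theorem sum_of_mid {m : ℕ} {w0 : ℝ} (hw0 : 1 ≤ w0)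
    (h : ContinuesTo (m + m) 1 (mid (m + m) w0)) {w : ℝ} (hw : w0 < w) :
    ∃ (C : ℝ) (N : ℕ), 0 ≤ C ∧ ∀ t : ℝ, ∀ S : Finset ℕ, (∀ D ∈ S, FundDisc D ∧ 1 < D) →
      ∑ D ∈ S, ‖Lf D (1 / 2 + I * t)‖ ^ (m + m) / (D : ℝ) ^ w ≤ C * (1 + |t|) ^ N := by
  obtain ⟨Ω, G, hpΩ, hG⟩ := cont_of h
  have hmem : ∀ v : ℝ, w0 ≤ v → mid (m + m) v ∈ Ω := by
    intro v hv
    refine mem_of_ge hG.op hG.conv hG.orth hpΩ fun i => ?_
    refine Fin.cases ?_ (fun j => ?_) i
    · simpa [mid] using hv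
    · simp [mid]
  obtain ⟨C, N, hb⟩ := hG.temp.2 {mid (m + m) w} (singleton_subset_iff.2 (hmem w hw.le))
    isCompact_singleton
  have hw1 : 0 < w - 1 := by linarith
  refine ⟨|C| / (w - 1) ^ (Fintype.card (Finset (Fin (m + m)))), N, by positivity,
    fun t S hS => ?_⟩
  -- the function of one variable
  set Q : ℂ → ℂ := fun v => ∏ J : Finset (Fin (m + m)), (sigma J (zz m t v) - 1) with hQ
  have hQne : ∀ v : ℂ, 1 < v.re → Q v ≠ 0 := by
    intro v hv
    rw [hQ]
    simp only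
    rw [Finset.prod_ne_zero_iff]
    intro J _ h0
    have := sigma_zz_re m t v J
    rw [h0, Complex.zero_re] at this
    linarith
  have hQd : Differentiable ℂ Q := by
    refine diff_prod _ fun J _ => ?_
    exact ((differentiable_sigma J).comp (differentiable_zz m t)).sub_const 1
  set H : ℂ → ℂ := fun v => G (zz m t v) / Q v with hH
  have hHd : DifferentiableOn ℂ H {v : ℂ | w0 < v.re} := by
    intro v hv
    have hv' : w0 < v.re := hv
    have e1 : zz m t v ∈ tube Ω := by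
      show (fun i => (zz m t v i).re) ∈ Ω
      rw [zz_re]; exact hmem _ hv'.le
    have e2 : DifferentiableAt ℂ G (zz m t v) :=
      hG.temp.1.differentiableAt ((isOpen_tube hG.op).mem_nhds e1)
    have e3 : DifferentiableAt ℂ (fun v => G (zz m t v)) v := e2.comp v (differentiable_zz m t v)
    exact (e3.div (hQd v) (hQne v (by linarith))).differentiableWithinAt
  -- the shift
  set c : ℝ := ((m + m : ℕ) : ℝ) + 1 + w0 with hc'
  have hcpos : 0 < c := by
    have : (0 : ℝ) ≤ ((m + m : ℕ) : ℝ) := Nat.cast_nonneg _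
    rw [hc']; linarith
  have hcw : ((m + m : ℕ) : ℝ) + 1 < c := by rw [hc']; linarith
  set h' : ℕ → ℝ := fun n => hc m t n / (n : ℝ) ^ c with hh'
  have hh0 : ∀ n, 0 ≤ h' n := fun n => div_nonneg (hc_nonneg m t n) (by positivity)
  have hterm : ∀ (s : ℂ) (n : ℕ), LSeries.term (fun n => (h' n : ℂ)) s n =
      LSeries.term (fun n => (hc m t n : ℂ)) (s + c) n := by
    intro s n
    rcases eq_or_ne n 0 with hn | hn
    · simp [hn]
    · have hn' : (n : ℂ) ≠ 0 := by exact_mod_cast hn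
      rw [LSeries.term_of_ne_zero hn, LSeries.term_of_ne_zero hn, Complex.cpow_add _ _ hn', hh']
      push_cast
      rw [Complex.ofReal_cpow (Nat.cast_nonneg n)]
      push_cast
      rw [div_div, mul_comm]
  have hLs : ∀ s : ℂ, LSeries (fun n => (h' n : ℂ)) s = LSeries (fun n => (hc m t n : ℂ)) (s + c) :=
    fun s => tsum_congr (hterm s)
  have hVmem : ∀ v : ℝ, ((m + m : ℕ) : ℝ) + 1 < v → mid (m + m) v ∈ V (m + m) := by
    intro v hv J
    rw [rsig_eq]
    simpa [mid] using hv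
  -- convergence and value on the right
  have hval : ∀ s : ℂ, 0 < s.re → H (s + c) = LSeries (fun n => (h' n : ℂ)) s := by
    intro s hs
    have hre : (s + c : ℂ).re = s.re + c := by simp
    have e1 : zz m t (s + c) ∈ tube (V (m + m)) := by
      show (fun i => (zz m t (s + c) i).re) ∈ V (m + m)
      rw [zz_re, hre]; exact hVmem _ (by linarith)
    have hne0 : (s + c : ℂ) ≠ 0 := by
      intro h0
      rw [h0] at hre
      simp at hre
      linarith
    have hQ0 := hQne (s + c) (by rw [hre, hc']; have : (0 : ℝ) ≤ ((m + m : ℕ) : ℝ) := Nat.cast_nonneg _; linarith)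
    rw [hLs, ← A1_zz m t (s + c) hne0, hH]
    simp only
    rw [hG.eqV e1]
    unfold F1
    rw [hQ] at hQ0 ⊢
    exact mul_div_cancel_right₀ _ hQ0
  have hsum : ∀ s : ℂ, 1 < s.re → LSeriesSummable (fun n => (h' n : ℂ)) s := by
    intro s hs
    have hre : (s + c : ℂ).re = s.re + c := by simp
    have e1 : zz m t (s + c) ∈ tube (V (m + m)) := by
      show (fun i => (zz m t (s + c) i).re) ∈ V (m + m)
      rw [zz_re, hre]; exact hVmem _ (by linarith)
    have e2 := (dom_V (m + m) 1).summable e1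
    have e3 : Summable (fun d : {d : ℕ // FundDisc d} =>
        LSeries.term (fun n => (h' n : ℂ)) s (d : ℕ)) := by
      refine e2.congr fun d => ?_
      rw [hterm]
      have hd0 : (d : ℕ) ≠ 0 := by
        rcases Nat.eq_zero_or_pos (d : ℕ) with h | h
        · intro _
          rcases d.2 with ⟨h', _⟩ | ⟨m', h', h'', _⟩ <;> omega
        · omega
      rw [LSeries.term_of_ne_zero hd0]
      unfold tm hc
      by_cases h : (d : ℕ) = 1
      · rw [if_pos h, if_neg (fun h' => h'.2 h)]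
        simp
      · rw [if_neg h, if_pos ⟨d.2, h⟩, prod_zz d.2 (one_lt_of d.2 h)]
        have e1 : zz m t (s + c) 0 = s + c := by simp [zz]
        have e2 : kron (d : ℕ) 1 = 1 := by
          unfold kron
          simp
        rw [e1, e2, Complex.cpow_neg]
        push_cast
        rw [one_mul]
        exact (mul_comm _ _).trans (div_eq_mul_inv _ _).symm
    unfold LSeriesSummable
    have e4 : Function.support (LSeries.term (fun n => (h' n : ℂ)) s) ⊆ {d : ℕ | FundDisc d} := by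
      intro n hn
      by_contra hn2
      apply hn
      have : hc m t n = 0 := by
        unfold hc
        rw [if_neg (fun h => hn2 h.1)]
      rw [hterm]
      unfold LSeries.term
      split_ifs
      · rfl
      · show (hc m t n : ℂ) / _ = 0
        rw [this]; simp
    have e5 := Function.Injective.summable_iff (Subtype.val_injective (p := FundDisc))
      (f := LSeries.term (fun n => (h' n : ℂ)) s) (fun n hn => by
        by_contra h0
        exact hn ⟨⟨n, e4 h0⟩, rfl⟩)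
    exact e5.1 e3
  set H' : ℂ → ℂ := fun s => H (s + c) with hH'
  have hH'd : DifferentiableOn ℂ H' {s : ℂ | w0 - c < s.re} := by
    refine hHd.comp (by fun_prop) fun s hs => ?_
    have : w0 - c < s.re := hs
    show w0 < (s + c : ℂ).re
    simp
    linarith
  have hθ1 : w0 - c < 1 := by
    have : (0 : ℝ) ≤ ((m + m : ℕ) : ℝ) := Nat.cast_nonneg _
    rw [hc']; linarith
  have hland : ∀ σ : ℝ, w0 - c < σ → LSeriesSummable (fun n => (h' n : ℂ)) σ := fun σ hσ =>
    H353.landau_half h' hh0 H' (w0 - c) hθ1 hH'd hsum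
      (fun s hs => hval s (by linarith)) σ hσ
  have habs : LSeries.abscissaOfAbsConv (fun n => (h' n : ℂ)) ≤ ((w0 - c : ℝ) : EReal) :=
    LSeries.abscissaOfAbsConv_le_of_forall_lt_LSeriesSummable hland
  have hopen : IsOpen {s : ℂ | w0 - c < s.re} := isOpen_lt continuous_const Complex.continuous_re
  have hLd : DifferentiableOn ℂ (LSeries (fun n => (h' n : ℂ))) {s : ℂ | w0 - c < s.re} := by
    refine (LSeries_differentiableOn (fun n => (h' n : ℂ))).mono fun s hs => ?_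
    have : w0 - c < s.re := hs
    show LSeries.abscissaOfAbsConv (fun n => (h' n : ℂ)) < s.re
    exact lt_of_le_of_lt habs (by exact_mod_cast this)
  have heq : EqOn H' (LSeries (fun n => (h' n : ℂ))) {s : ℂ | w0 - c < s.re} := by
    refine AnalyticOnNhd.eqOn_of_preconnected_of_eventuallyEq (z₀ := 2)
      (hH'd.analyticOnNhd hopen) (hLd.analyticOnNhd hopen)
      (convex_halfSpace_re_gt _).isPreconnected ?_ ?_
    · show w0 - c < (2 : ℂ).re
      simp
      linarith
    · have hopen1 : IsOpen {s : ℂ | 0 < s.re} := isOpen_lt continuous_const Complex.continuous_re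
      filter_upwards [hopen1.mem_nhds (show (2:ℂ) ∈ {s : ℂ | 0 < s.re} by simp)] with z hz
      exact hval z hz
  -- the value at `w`
  have hσ : w0 - c < w - c := by linarith
  have e1 : H' ((w - c : ℝ) : ℂ) = LSeries (fun n => (h' n : ℂ)) ((w - c : ℝ) : ℂ) :=
    heq (show w0 - c < (((w - c : ℝ) : ℂ)).re by simpa using hσ)
  have e2 : H' ((w - c : ℝ) : ℂ) = H (w : ℂ) := by
    simp only [hH']
    congr 1
    push_cast
    ring
  -- one term is at most the sum
  have hreal : ∀ n : ℕ, LSeries.term (fun n => (h' n : ℂ)) ((w - c : ℝ) : ℂ) n =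
      (((if n = 0 then 0 else h' n / (n : ℝ) ^ (w - c)) : ℝ) : ℂ) := by
    intro n
    rcases eq_or_ne n 0 with hn | hn
    · simp [hn]
    · rw [LSeries.term_of_ne_zero hn, if_neg hn]
      push_cast
      rw [Complex.ofReal_cpow (Nat.cast_nonneg n)]
      push_cast
      rfl
  have hsr : Summable (fun n : ℕ => if n = 0 then 0 else h' n / (n : ℝ) ^ (w - c)) := by
    have := hland (w - c) hσ
    unfold LSeriesSummable at this
    rw [show LSeries.term (fun n => (h' n : ℂ)) ((w - c : ℝ) : ℂ) = fun n =>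
      (((if n = 0 then 0 else h' n / (n : ℝ) ^ (w - c)) : ℝ) : ℂ) from funext hreal] at this
    exact_mod_cast (Complex.summable_ofReal.1 this)
  have hterm_nonneg : ∀ n : ℕ, 0 ≤ if n = 0 then 0 else h' n / (n : ℝ) ^ (w - c) := by
    intro n
    split_ifs
    · exact le_rfl
    · exact div_nonneg (hh0 n) (by positivity)
  have hLre : LSeries (fun n => (h' n : ℂ)) ((w - c : ℝ) : ℂ) =
      ((∑' n : ℕ, if n = 0 then 0 else h' n / (n : ℝ) ^ (w - c) : ℝ) : ℂ) := by
    unfold LSeries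
    rw [Complex.ofReal_tsum]
    exact tsum_congr hreal
  have hDval : ∀ D ∈ S, ‖Lf D (1 / 2 + I * t)‖ ^ (m + m) / (D : ℝ) ^ w =
      if D = 0 then 0 else h' D / (D : ℝ) ^ (w - c) := by
    intro D hDS
    obtain ⟨hD, h1⟩ := hS D hDS
    have hD0 : (0 : ℝ) < D := by exact_mod_cast (by omega : 0 < D)
    rw [if_neg (by omega)]
    simp only [hh']
    rw [norm_hc_le hD h1, div_div, ← Real.rpow_add hD0]
    congr 2
    ring
  have hone : ∑ D ∈ S, ‖Lf D (1 / 2 + I * t)‖ ^ (m + m) / (D : ℝ) ^ w ≤ ‖H (w : ℂ)‖ := by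
    rw [← e2, e1, hLre, Complex.norm_real, Real.norm_eq_abs, Finset.sum_congr rfl hDval]
    refine le_trans ?_ (le_abs_self _)
    exact hsr.sum_le_tsum S (fun n _ => hterm_nonneg n)
  refine hone.trans ?_
  have hHn : ‖H (w : ℂ)‖ ≤ |C| / (w - 1) ^ (Fintype.card (Finset (Fin (m + m)))) *
      (1 + |t|) ^ N := by
    simp only [hH]
    rw [norm_div]
    have g1 : ‖G (zz m t (w : ℂ))‖ ≤ |C| * (1 + |t|) ^ N := by
      have g2 := hb (zz m t (w : ℂ)) (by rw [zz_re]; simp)
      refine g2.trans ?_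
      have g3 : 1 + ‖fun i => (zz m t (w : ℂ) i).im‖ ≤ 1 + |t| := by
        have := zz_im_le m t (w : ℂ)
        rw [Complex.ofReal_im, abs_zero, zero_add] at this
        linarith
      have g4 := one_le_nim (zz m t (w : ℂ))
      gcongr
      exact le_abs_self C
    have g5 : (w - 1) ^ (Fintype.card (Finset (Fin (m + m)))) ≤ ‖Q (w : ℂ)‖ := by
      simp only [hQ]
      rw [norm_prod, ← Finset.card_univ, ← Finset.prod_const]
      refine Finset.prod_le_prod (fun J _ => hw1.le) fun J _ => ?_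
      have g6 := Complex.re_le_norm (sigma J (zz m t (w : ℂ)) - 1)
      rw [sigma_zz_re, Complex.ofReal_re] at g6
      exact g6
    have g7 : 0 < (w - 1) ^ (Fintype.card (Finset (Fin (m + m)))) := by positivity
    calc ‖G (zz m t (w : ℂ))‖ / ‖Q (w : ℂ)‖ ≤
        (|C| * (1 + |t|) ^ N) / (w - 1) ^ (Fintype.card (Finset (Fin (m + m)))) := by gcongr
      _ = _ := by ring
  exact hHn


/-- **continuation to a point gives the moment of order `2m`** -/
theorem mom_of_level {m : ℕ} {p : Fin (m + m + 1) → ℝ}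
    (h : ContinuesTo (m + m) 1 p) : Mom (m + m) (max 1 (level p)) := by
  intro ε hε
  set w0 : ℝ := max 1 (level p) with hw0
  have hw1 : 1 ≤ w0 := le_max_left _ _
  have h1 : ContinuesTo (m + m) 1 (mid (m + m) w0) := mid_iff.2 ⟨p, h, le_max_right _ _⟩
  obtain ⟨C, N, hC, hb⟩ := sum_of_mid hw1 h1 (show w0 < w0 + ε by linarith)
  refine ⟨C + N + 1, by positivity, fun X hX t => ?_⟩
  have hX1 : (1 : ℝ) ≤ X := by exact_mod_cast hX
  have hX0 : (0 : ℝ) < X := by linarith
  have ht : 1 ≤ 1 + |t| := by linarith [abs_nonneg t]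
  have h2 := hb t (FD X) fun D hD => ⟨(mem_FD.1 hD).2, (mem_FD.1 hD).1.1⟩
  have h3 : ∑ D ∈ FD X, ‖Lf D (1 / 2 + I * t)‖ ^ (m + m) ≤
      (X : ℝ) ^ (w0 + ε) * ∑ D ∈ FD X, ‖Lf D (1 / 2 + I * t)‖ ^ (m + m) / (D : ℝ) ^ (w0 + ε) := by
    rw [Finset.mul_sum]
    refine Finset.sum_le_sum fun D hD => ?_
    obtain ⟨⟨hD1, hDX⟩, _⟩ := mem_FD.1 hD
    have hD0 : (0 : ℝ) < D := by exact_mod_cast (by omega : 0 < D)
    have hDX' : (D : ℝ) ≤ X := by exact_mod_cast hDX
    have h4 : (D : ℝ) ^ (w0 + ε) ≤ (X : ℝ) ^ (w0 + ε) :=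
      Real.rpow_le_rpow hD0.le hDX' (by linarith)
    have h5 : 0 < (D : ℝ) ^ (w0 + ε) := Real.rpow_pos_of_pos hD0 _
    rw [mul_div_assoc', le_div_iff₀ h5, mul_comm]
    gcongr
  refine h3.trans ?_
  have h6 : (1 + |t|) ^ N ≤ (1 + |t|) ^ (C + N + 1) := by
    rw [← Real.rpow_natCast]
    exact Real.rpow_le_rpow_of_exponent_le ht (by linarith)
  have hN0 : (0 : ℝ) ≤ N := Nat.cast_nonneg N
  calc (X : ℝ) ^ (w0 + ε) * ∑ D ∈ FD X, ‖Lf D (1 / 2 + I * t)‖ ^ (m + m) / (D : ℝ) ^ (w0 + ε)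
      ≤ (X : ℝ) ^ (w0 + ε) * ((C + N + 1) * (1 + |t|) ^ (C + N + 1)) := by
        gcongr
        refine h2.trans ?_
        gcongr
        linarith
    _ = _ := by ring

theorem mom_mono {k : ℕ} {e e' : ℝ} (h : Mom k e) (he : e ≤ e') : Mom k e' := by
  intro ε hε
  obtain ⟨A, hA, hb⟩ := h ε hε
  refine ⟨A, hA, fun X hX t => (hb X hX t).trans ?_⟩
  have hX1 : (1 : ℝ) ≤ X := by exact_mod_cast hX
  have : (X : ℝ) ^ (e + ε) ≤ (X : ℝ) ^ (e' + ε) :=
    Real.rpow_le_rpow_of_exponent_le hX1 (by linarith)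
  gcongr

theorem mom_of_approx {k : ℕ} {e : ℝ} (h : ∀ ε : ℝ, 0 < ε → ∃ e' : ℝ, e' ≤ e + ε ∧ Mom k e') :
    Mom k e := by
  intro ε hε
  obtain ⟨e', h1, h2⟩ := h (ε / 2) (by linarith)
  obtain ⟨A, hA, hb⟩ := h2 (ε / 2) (by linarith)
  refine ⟨A, hA, fun X hX t => (hb X hX t).trans ?_⟩
  have hX1 : (1 : ℝ) ≤ X := by exact_mod_cast hX
  have : (X : ℝ) ^ (e' + ε / 2) ≤ (X : ℝ) ^ (e + ε) :=
    Real.rpow_le_rpow_of_exponent_le hX1 (by linarith)
  gcongr

/-- a lower order -/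
theorem mom_down {n k : ℕ} (hk : 1 ≤ k) (hkn : k ≤ n) {e : ℝ} (h : Mom n e) :
    Mom k (1 + (e - 1) * k / n) := by
  have hk0 : (0 : ℝ) < k := by exact_mod_cast hk
  have hn0 : (0 : ℝ) < n := by exact_mod_cast (by omega : 0 < n)
  have hkn' : (k : ℝ) ≤ n := by exact_mod_cast hkn
  intro ε hε
  obtain ⟨A, hA, hb⟩ := h (ε * n / k) (by positivity)
  set q : ℝ := (n : ℝ) / k with hq
  have hq1 : 1 ≤ q := by rw [hq, one_le_div hk0]; exact hkn'
  have hq0 : 0 < q := by linarith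
  refine ⟨(A + 1), by linarith, fun X hX t => ?_⟩
  have hX1 : (1 : ℝ) ≤ X := by exact_mod_cast hX
  have hX0 : (0 : ℝ) < X := by linarith
  have ht : 1 ≤ 1 + |t| := by linarith [abs_nonneg t]
  have ht0 : 0 < 1 + |t| := by linarith
  set S : ℝ := ∑ D ∈ FD X, ‖Lf D (1 / 2 + I * t)‖ ^ k with hS
  have hS0 : 0 ≤ S := Finset.sum_nonneg fun D _ => by positivity
  have h1 : S ^ q ≤ (X : ℝ) ^ (q - 1) * (A * (X : ℝ) ^ (e + ε * n / k) * (1 + |t|) ^ A) := by
    have h2 := Real.rpow_sum_le_const_mul_sum_rpow_of_nonneg (s := FD X)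
      (f := fun D => ‖Lf D (1 / 2 + I * t)‖ ^ k) hq1 (fun D _ => by positivity)
    refine h2.trans ?_
    have h3 : ∑ D ∈ FD X, (‖Lf D (1 / 2 + I * t)‖ ^ k) ^ q =
        ∑ D ∈ FD X, ‖Lf D (1 / 2 + I * t)‖ ^ n := by
      refine Finset.sum_congr rfl fun D _ => ?_
      rw [← Real.rpow_natCast, ← Real.rpow_mul (norm_nonneg _), hq, mul_div_cancel₀ _ hk0.ne',
        Real.rpow_natCast]
    rw [h3]
    have h4 : ((FD X).card : ℝ) ^ (q - 1) ≤ (X : ℝ) ^ (q - 1) :=
      Real.rpow_le_rpow (Nat.cast_nonneg _) (card_FD X) (by linarith)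
    have h5 := hb X hX t
    have h6 : 0 ≤ ∑ D ∈ FD X, ‖Lf D (1 / 2 + I * t)‖ ^ n :=
      Finset.sum_nonneg fun D _ => by positivity
    calc ((FD X).card : ℝ) ^ (q - 1) * ∑ D ∈ FD X, ‖Lf D (1 / 2 + I * t)‖ ^ n
        ≤ (X : ℝ) ^ (q - 1) * ∑ D ∈ FD X, ‖Lf D (1 / 2 + I * t)‖ ^ n := by gcongr
      _ ≤ _ := by gcongr
  have h7 : (X : ℝ) ^ (q - 1) * (A * (X : ℝ) ^ (e + ε * n / k) * (1 + |t|) ^ A) ≤
      ((A + 1) * (X : ℝ) ^ (1 + (e - 1) * k / n + ε) * (1 + |t|) ^ (A + 1)) ^ q := by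
    rw [Real.mul_rpow (by positivity) (by positivity), Real.mul_rpow (by positivity) (by positivity),
      ← Real.rpow_mul hX0.le, ← Real.rpow_mul ht0.le]
    have e1 : (1 + (e - 1) * k / n + ε) * q = (q - 1) + (e + ε * n / k) := by
      rw [hq]
      field_simp
      ring
    rw [e1, Real.rpow_add hX0 (q - 1) (e + ε * n / k)]
    have g1 : A ≤ (A + 1) ^ q := by
      have : A + 1 ≤ (A + 1) ^ q := by
        calc A + 1 = (A + 1) ^ (1 : ℝ) := (Real.rpow_one _).symm
          _ ≤ (A + 1) ^ q := Real.rpow_le_rpow_of_exponent_le (by linarith) hq1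
      linarith
    have g2 : (1 + |t|) ^ A ≤ (1 + |t|) ^ ((A + 1) * q) :=
      Real.rpow_le_rpow_of_exponent_le ht (by nlinarith)
    calc (X : ℝ) ^ (q - 1) * (A * (X : ℝ) ^ (e + ε * n / k) * (1 + |t|) ^ A)
        ≤ (X : ℝ) ^ (q - 1) * ((A + 1) ^ q * (X : ℝ) ^ (e + ε * n / k) *
          (1 + |t|) ^ ((A + 1) * q)) := by gcongr
      _ = _ := by ring
  exact (Real.rpow_le_rpow_iff hS0 (by positivity) hq0).1 (h1.trans h7)

/-- a higher order -/
theorem mom_up {n k : ℕ} (hn : 1 ≤ n) (hnk : n ≤ k) {e : ℝ} (h : Mom n e) :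
    Mom k (e * k / n) := by
  have hn0 : (0 : ℝ) < n := by exact_mod_cast hn
  have hk0 : (0 : ℝ) < k := by exact_mod_cast (by omega : 0 < k)
  have hkn' : (n : ℝ) ≤ k := by exact_mod_cast hnk
  have hn0' : n ≠ 0 := by omega
  intro ε hε
  obtain ⟨A, hA, hb⟩ := h (ε * n / k) (by positivity)
  set q : ℝ := (k : ℝ) / n with hq
  have hq1 : 1 ≤ q := by rw [hq, one_le_div hn0]; exact hkn'
  have hq0 : 0 < q := by linarith
  refine ⟨max (A ^ q) (A * q), lt_max_of_lt_left (by positivity), fun X hX t => ?_⟩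
  have hX1 : (1 : ℝ) ≤ X := by exact_mod_cast hX
  have hX0 : (0 : ℝ) < X := by linarith
  have ht : 1 ≤ 1 + |t| := by linarith [abs_nonneg t]
  have ht0 : 0 < 1 + |t| := by linarith
  set S : ℝ := ∑ D ∈ FD X, ‖Lf D (1 / 2 + I * t)‖ ^ n with hS
  have hS0 : 0 ≤ S := Finset.sum_nonneg fun D _ => by positivity
  set B : ℝ := S ^ ((n : ℝ)⁻¹) with hB
  have hB0 : 0 ≤ B := by positivity
  have hBn : B ^ n = S := Real.rpow_inv_natCast_pow hS0 hn0'
  have hle : ∀ D ∈ FD X, ‖Lf D (1 / 2 + I * t)‖ ≤ B := by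
    intro D hD
    refine le_of_pow_le_pow_left₀ hn0' hB0 ?_
    rw [hBn, hS]
    exact Finset.single_le_sum (f := fun D => ‖Lf D (1 / 2 + I * t)‖ ^ n)
      (fun D _ => by positivity) hD
  have h1 : ∑ D ∈ FD X, ‖Lf D (1 / 2 + I * t)‖ ^ k ≤ B ^ k := by
    calc ∑ D ∈ FD X, ‖Lf D (1 / 2 + I * t)‖ ^ k ≤
        ∑ D ∈ FD X, ‖Lf D (1 / 2 + I * t)‖ ^ n * B ^ (k - n) := by
          refine Finset.sum_le_sum fun D hD => ?_
          have : k = n + (k - n) := by omega
          calc ‖Lf D (1 / 2 + I * t)‖ ^ k = ‖Lf D (1 / 2 + I * t)‖ ^ n *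
                ‖Lf D (1 / 2 + I * t)‖ ^ (k - n) := by
                rw [← pow_add]
                congr 1
            _ ≤ _ := by
                have := hle D hD
                gcongr
      _ = B ^ n * B ^ (k - n) := by rw [← Finset.sum_mul, hBn]
      _ = B ^ k := by
          rw [← pow_add]
          congr 1
          omega
  have h2 : B ^ k = S ^ q := by
    rw [hB, ← Real.rpow_natCast, ← Real.rpow_mul hS0, hq]
    congr 1
    field_simp
  rw [h2] at h1
  refine h1.trans ?_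
  have h3 : S ^ q ≤ (A * (X : ℝ) ^ (e + ε * n / k) * (1 + |t|) ^ A) ^ q :=
    Real.rpow_le_rpow hS0 (hb X hX t) hq0.le
  refine h3.trans ?_
  rw [Real.mul_rpow (by positivity) (by positivity), Real.mul_rpow (by positivity) (by positivity),
    ← Real.rpow_mul hX0.le, ← Real.rpow_mul ht0.le]
  have e1 : (e + ε * n / k) * q = e * k / n + ε := by
    rw [hq]
    field_simp
  rw [e1]
  have g1 : A ^ q ≤ max (A ^ q) (A * q) := le_max_left _ _
  have g2 : (1 + |t|) ^ (A * q) ≤ (1 + |t|) ^ (max (A ^ q) (A * q)) :=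
    Real.rpow_le_rpow_of_exponent_le ht (le_max_right _ _)
  gcongr

end Pool.Agent.V5helper62.MD
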