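import Pool.Agent.V5helper62.MD.Fold

/-!
# Bounds on the central line give continuation
-/

set_option autoImplicit false

open MeasureTheory Set Filter Topology Metric

namespace Pool.Agent.V5helper62.MD

open Pool.Agent.Q48.MDS Complex

/-- `θ` is an admissible exponent: `L(1/2 + it, χ_d) ≪ d^(θ+ε) (1+|t|)^A` -/
def LH (θ : ℝ) : Prop := ∀ ε : ℝ, 0 < ε → ∃ A : ℝ, 0 < A ∧ ∀ D : ℕ, FundDisc D → 1 < D → ∀ t : ℝ,
  ‖Lf D (1 / 2 + I * t)‖ ≤ A * (D : ℝ) ^ (θ + ε) * (1 + |t|) ^ A

/-- the Phragmen-Lindeloef principle -/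
theorem right_of_line {e A : ℝ} (he : 0 ≤ e) (hA : 0 < A)
    (h : ∀ D : ℕ, FundDisc D → 1 < D → ∀ t : ℝ,
      ‖Lf D (1 / 2 + I * t)‖ ≤ A * (D : ℝ) ^ e * (1 + |t|) ^ A) :
    ∃ (C : ℝ) (N : ℕ), 0 ≤ C ∧ ∀ D : ℕ, FundDisc D → 1 < D → ∀ s : ℂ, 1 / 2 ≤ s.re →
      ‖Lf D s‖ ≤ C * (1 + |s.im|) ^ N * (D : ℝ) ^ e := by
  obtain ⟨N, hN⟩ := exists_nat_ge A
  refine ⟨(A * 2 ^ N + 2) * 4 ^ N, N, by positivity, fun D hD h1 s hs => ?_⟩
  have hD1 : (1 : ℝ) ≤ D := by exact_mod_cast h1.le
  have hDe : 1 ≤ (D : ℝ) ^ e := Real.one_le_rpow hD1 he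
  have ht : 1 ≤ (1 + |s.im|) := by linarith [abs_nonneg s.im]
  have htN : 1 ≤ (1 + |s.im|) ^ N := one_le_pow₀ ht
  have h4 : (1 : ℝ) ≤ 4 ^ N := one_le_pow₀ (by norm_num)
  rcases le_total 2 s.re with h2 | h2
  · have h3 := Lf_right hD h1 (s := s) (by linarith)
    have h5 : 1 / (s.re - 1) ≤ 1 := by
      rw [div_le_one (by linarith)]; linarith
    calc ‖Lf D s‖ ≤ 2 := by linarith
      _ = 2 * 1 * 1 * 1 := by ring
      _ ≤ (A * 2 ^ N + 2) * 4 ^ N * (1 + |s.im|) ^ N * (D : ℝ) ^ e := by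
          have : 0 ≤ A * 2 ^ N := by positivity
          gcongr
          linarith
  · have hadd : ∀ z : ℂ, 1 / 2 ≤ z.re → 1 ≤ ‖z + 1‖ := by
      intro z hz
      have h3 := Complex.re_le_norm (z + 1)
      simp only [Complex.add_re, Complex.one_re] at h3
      linarith
    have hne : ∀ z : ℂ, 1 / 2 ≤ z.re → (z + 1) ^ N ≠ 0 := by
      intro z hz
      apply pow_ne_zero
      rw [← norm_ne_zero_iff]
      linarith [hadd z hz]
    have hcl : closure (Complex.re ⁻¹' Ioo (1 / 2 : ℝ) 2) ⊆ {z : ℂ | 1 / 2 ≤ z.re} := by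
      apply closure_minimal
      · intro z hz
        exact hz.1.le
      · exact isClosed_le continuous_const Complex.continuous_re
    have key := PhragmenLindelof.vertical_strip (a := 1 / 2) (b := 2)
      (f := fun z => Lf D z / (z + 1) ^ N) (C := (A * 2 ^ N + 2) * (D : ℝ) ^ e) ?_ ?_ ?_ ?_
      (z := s) hs h2
    · rw [norm_div, norm_pow, div_le_iff₀ (by have := hadd s hs; positivity)] at key
      refine key.trans ?_
      have h5 : ‖s + 1‖ ≤ 4 * (1 + |s.im|) := by
        refine (Complex.norm_le_abs_re_add_abs_im _).trans ?_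
        simp only [Complex.add_re, Complex.one_re, Complex.add_im, Complex.one_im, add_zero]
        rw [abs_of_nonneg (by linarith)]
        linarith [abs_nonneg s.im]
      calc (A * 2 ^ N + 2) * (D : ℝ) ^ e * ‖s + 1‖ ^ N
          ≤ (A * 2 ^ N + 2) * (D : ℝ) ^ e * (4 * (1 + |s.im|)) ^ N := by gcongr
        _ = _ := by rw [mul_pow]; ring
    · refine DifferentiableOn.diffContOnCl ?_
      intro z hz
      refine DifferentiableAt.differentiableWithinAt ?_
      exact (Lf_diff hD h1 z).div (by fun_prop) (hne z (hcl hz))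
    · refine ⟨1, ?_, 1, ?_⟩
      · rw [lt_div_iff₀ (by norm_num)]
        linarith [Real.pi_gt_three]
      · refine Asymptotics.IsBigO.of_bound (24 * D) ?_
        rw [eventually_inf_principal]
        refine Eventually.of_forall fun z hz => ?_
        have hz' : 1 / 2 < z.re ∧ z.re < 2 := hz
        have h5 : ‖Lf D z / (z + 1) ^ N‖ ≤ 8 * D * ‖z‖ := by
          rw [norm_div, norm_pow]
          have h6 : 1 ≤ ‖z + 1‖ ^ N := one_le_pow₀ (hadd z hz'.1.le)
          refine (div_le_self (norm_nonneg _) h6).trans ?_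
          exact Lf_mid hD h1 (by linarith)
        have h6 : ‖z‖ ≤ 3 * (1 + |z.im|) := by
          have := norm_pow_le (s := z) le_rfl (B := 2) (by rw [abs_of_pos (by linarith)]; linarith)
          linarith
        have h7 : 1 + |z.im| ≤ Real.exp |z.im| := by linarith [Real.add_one_le_exp |z.im|]
        have h8 : Real.exp |z.im| ≤ Real.exp (Real.exp |z.im|) := by
          apply Real.exp_le_exp.2
          linarith [Real.add_one_le_exp |z.im|]
        rw [Real.norm_eq_abs, abs_of_pos (Real.exp_pos _), one_mul, one_mul]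
        refine h5.trans ?_
        calc 8 * D * ‖z‖ ≤ 8 * D * (3 * (1 + |z.im|)) := by gcongr
          _ = 24 * D * (1 + |z.im|) := by ring
          _ ≤ 24 * D * Real.exp (Real.exp |z.im|) := by
              gcongr
              linarith
    · intro z hz
      have e1 : z = 1 / 2 + I * (z.im : ℂ) := by
        apply Complex.ext
        · simp [hz]
        · simp
      have h5 := h D hD h1 z.im
      rw [← e1] at h5
      have h6 := hadd z hz.ge
      have ht' : 1 ≤ (1 + |z.im|) := by linarith [abs_nonneg z.im]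
      rw [norm_div, norm_pow, div_le_iff₀ (by positivity)]
      refine h5.trans ?_
      have h7 : (1 + |z.im|) ^ A ≤ (1 + |z.im|) ^ N := by
        rw [← Real.rpow_natCast]
        exact Real.rpow_le_rpow_of_exponent_le ht' hN
      have h8 : 1 + |z.im| ≤ 2 * ‖z + 1‖ := by
        have h9 := Complex.abs_im_le_norm (z + 1)
        simp only [Complex.add_im, Complex.one_im, add_zero] at h9
        linarith
      calc A * (D : ℝ) ^ e * (1 + |z.im|) ^ A ≤ A * (D : ℝ) ^ e * (2 * ‖z + 1‖) ^ N := by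
            gcongr
            refine h7.trans ?_
            gcongr
        _ = (A * 2 ^ N) * (D : ℝ) ^ e * ‖z + 1‖ ^ N := by rw [mul_pow]; ring
        _ ≤ (A * 2 ^ N + 2) * (D : ℝ) ^ e * ‖z + 1‖ ^ N := by
            gcongr
            linarith
    · intro z hz
      have h3 := Lf_right hD h1 (s := z) (by rw [hz]; norm_num)
      rw [hz] at h3
      have h6 := hadd z (by rw [hz]; norm_num)
      have h7 : 1 ≤ ‖z + 1‖ ^ N := one_le_pow₀ h6
      rw [norm_div, norm_pow]
      refine (div_le_self (norm_nonneg _) h7).trans ?_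
      calc ‖Lf D z‖ ≤ 2 := by norm_num at h3; linarith
        _ = 2 * 1 := by ring
        _ ≤ (A * 2 ^ N + 2) * (D : ℝ) ^ e := by
            have : 0 ≤ A * 2 ^ N := by positivity
            gcongr
            linarith

/-- the region on the right of the central line -/
theorem mem_of_LH {θ : ℝ} (hθ : 0 ≤ θ) (h : LH θ) {k M : ℕ} {p : Fin (k + 1) → ℝ}
    (h0 : 1 + k * θ < p 0) (hj : ∀ j : Fin k, 1 / 2 < p j.succ) : ContinuesTo k M p := by
  have hk : (0 : ℝ) ≤ k := Nat.cast_nonneg k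
  obtain ⟨ε, hε, hε1⟩ : ∃ ε : ℝ, 0 < ε ∧ 1 + k * (θ + ε) < p 0 := by
    refine ⟨(p 0 - 1 - k * θ) / (2 * (1 + k)), by apply div_pos <;> linarith, ?_⟩
    have e1 : (k : ℝ) * ((p 0 - 1 - k * θ) / (2 * (1 + k))) ≤ (p 0 - 1 - k * θ) / 2 := by
      rw [mul_div_assoc', div_le_div_iff₀ (by positivity) (by norm_num)]
      nlinarith
    nlinarith
  obtain ⟨A, hA, hb⟩ := h ε hε
  obtain ⟨C, N, hC, hb'⟩ := right_of_line (add_nonneg hθ hε.le) hA hb
  set U : Set (Fin (k + 1) → ℝ) := {x | 1 + k * (θ + ε) < x 0} ∩ ⋂ j : Fin k, {x | 1 / 2 < x j.succ}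
    with hU
  have hUo : IsOpen U := (isOpen_lt continuous_const (continuous_apply _)).inter
    (isOpen_iInter_of_finite fun j => isOpen_lt continuous_const (continuous_apply _))
  have hUj : ∀ x ∈ U, ∀ j : Fin k, 1 / 2 < x j.succ := fun x hx j => mem_iInter.1 hx.2 j
  have hUc : Convex ℝ U := by
    have h1 : ∀ (i : Fin (k + 1)) (c : ℝ), Convex ℝ {x : Fin (k + 1) → ℝ | c < x i} := by
      intro i c x hx y hy a b ha hb hab
      exact (convex_Ioi c) hx hy ha hb hab
    exact (h1 0 _).inter (convex_iInter fun j => h1 j.succ _)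
  have hdom : Dom U (tm k M) := by
    refine dom_of (fun _ => θ + ε) continuous_const (fun x hx => ?_) (fun K hK _ => ?_)
    · rw [Finset.sum_const, Finset.card_univ, Fintype.card_fin, nsmul_eq_mul]
      have : 1 + k * (θ + ε) < x 0 := hx.1
      linarith
    · exact ⟨C, N, hC, fun x hx j D hD h1 s hs =>
        hb' D hD h1 s (by rw [hs]; exact (hUj x (hK hx) j).le)⟩
  have h2 : ContinuesTo k M (fun _ => 2) := orth_mem fun i => by norm_num
  obtain ⟨Ω, G, _, hG⟩ := cont_of h2
  refine hG.glue hUo hUc (tempered_F1 hUo hdom) ?_ (fun z _ => rfl)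
    (p := p) ⟨hε1, mem_iInter.2 hj⟩
  obtain ⟨T, hT, hV⟩ := exists_addw_mem_V p
  refine ⟨addw T p, ⟨?_, mem_iInter.2 fun j => ?_⟩, hV⟩
  · exact hε1.trans_le (le_addw hT p 0)
  · exact (hj j).trans_le (le_addw hT p j.succ)

/-- the reflections in all `j ∈ S` -/
noncomputable def rfS {k : ℕ} (S : Finset (Fin k)) (p : Fin (k + 1) → ℝ) : Fin (k + 1) → ℝ :=
  Fin.cons (p 0 + ∑ j ∈ S, (p j.succ - 1 / 2)) (fun j => if j ∈ S then 1 - p j.succ else p j.succ)

theorem rfS_zero {k : ℕ} (S : Finset (Fin k)) (p : Fin (k + 1) → ℝ) :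
    rfS S p 0 = p 0 + ∑ j ∈ S, (p j.succ - 1 / 2) := by simp [rfS]

theorem rfS_succ {k : ℕ} (S : Finset (Fin k)) (p : Fin (k + 1) → ℝ) (j : Fin k) :
    rfS S p j.succ = if j ∈ S then 1 - p j.succ else p j.succ := by simp [rfS]

theorem rfS_insert {k : ℕ} {S : Finset (Fin k)} {j : Fin k} (hj : j ∉ S) (p : Fin (k + 1) → ℝ) :
    rfS (insert j S) p = rf j (rfS S p) := by
  funext i
  refine Fin.cases ?_ (fun i => ?_) i
  · rw [rf_zero, rfS_zero, rfS_zero, rfS_succ, if_neg hj, Finset.sum_insert hj]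
    ring
  · by_cases h : i = j
    · subst h
      rw [rf_self, rfS_succ, rfS_succ, if_pos (Finset.mem_insert_self _ _), if_neg hj]
    · rw [rf_ne j _ h, rfS_succ, rfS_succ]
      have : i ∈ insert j S ↔ i ∈ S := by simp [h]
      simp only [this]

theorem rfS_mem {k M : ℕ} {p : Fin (k + 1) → ℝ} (h : ContinuesTo k M p) (S : Finset (Fin k)) :
    ContinuesTo k M (rfS S p) := by
  induction S using Finset.induction_on with
  | empty =>
    have : rfS ∅ p = p := by
      funext i
      refine Fin.cases ?_ (fun i => ?_) i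
      · rw [rfS_zero]; simp
      · rw [rfS_succ]; simp
    rw [this]; exact h
  | insert j S hj ih =>
    rw [rfS_insert hj]
    exact refl ih j

theorem rfS_rfS {k : ℕ} (S : Finset (Fin k)) (p : Fin (k + 1) → ℝ) : rfS S (rfS S p) = p := by
  funext i
  refine Fin.cases ?_ (fun i => ?_) i
  · rw [rfS_zero, rfS_zero]
    have : ∑ j ∈ S, (rfS S p j.succ - 1 / 2) = -∑ j ∈ S, (p j.succ - 1 / 2) := by
      rw [← Finset.sum_neg_distrib]
      refine Finset.sum_congr rfl fun j hj => ?_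
      rw [rfS_succ, if_pos hj]
      ring
    rw [this]; ring
  · rw [rfS_succ, rfS_succ]
    split_ifs <;> ring

theorem rsig_eq {k : ℕ} (J : Finset (Fin k)) (x : Fin (k + 1) → ℝ) :
    rsig J x = x 0 + ∑ j ∈ J, (x j.succ - 1 / 2) := by
  unfold rsig
  rw [Finset.sum_sub_distrib, Finset.sum_const, nsmul_eq_mul]
  ring

/-- the whole chamber -/
theorem chamber_of_LH {θ : ℝ} (hθ : 0 ≤ θ) (h : LH θ) {k M : ℕ} {p : Fin (k + 1) → ℝ}
    (hp : ∀ J : Finset (Fin k), 1 + k * θ < p 0 + ∑ j ∈ J, (p j.succ - 1 / 2)) :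
    ContinuesTo k M p := by
  classical
  have hk : (0 : ℝ) ≤ k := Nat.cast_nonneg k
  set S : Finset (Fin k) := Finset.univ.filter fun j => p j.succ < 1 / 2 with hS
  set q := rfS S p with hq
  have hq0 : 1 + k * θ < q 0 := by rw [hq, rfS_zero]; exact hp S
  have hqj : ∀ j : Fin k, 1 / 2 ≤ q j.succ := by
    intro j
    rw [hq, rfS_succ]
    split_ifs with h1
    · have : p j.succ < 1 / 2 := (Finset.mem_filter.1 h1).2
      linarith
    · by_contra h2
      push Not at h2
      exact h1 (Finset.mem_filter.2 ⟨Finset.mem_univ _, h2⟩)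
  have hqD : ContinuesTo k M q := by
    obtain ⟨δ, hδ, hδ1⟩ : ∃ δ : ℝ, 0 < δ ∧ 1 + k * θ < q 0 - k * δ := by
      refine ⟨(q 0 - 1 - k * θ) / (2 * (1 + k)), by apply div_pos <;> linarith, ?_⟩
      have e1 : (k : ℝ) * ((q 0 - 1 - k * θ) / (2 * (1 + k))) ≤ (q 0 - 1 - k * θ) / 2 := by
        rw [mul_div_assoc', div_le_div_iff₀ (by positivity) (by norm_num)]
        nlinarith
      linarith
    set E : Finset (Fin k) := Finset.univ.filter fun j => q j.succ = 1 / 2 with hE
    have hEm : ∀ j, j ∈ E ↔ q j.succ = 1 / 2 := fun j => by simp [hE]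
    set r : Fin (k + 1) → ℝ := Fin.cons (q 0 - k * δ)
      (fun j => if j ∈ E then 1 / 2 + δ else q j.succ) with hr
    have hr0 : r 0 = q 0 - k * δ := by simp [hr]
    have hrj : ∀ j : Fin k, r j.succ = if j ∈ E then 1 / 2 + δ else q j.succ := fun j => by
      simp [hr]
    have h1 : ContinuesTo k M r := by
      refine mem_of_LH hθ h (by rw [hr0]; exact hδ1) fun j => ?_
      rw [hrj]
      split_ifs with h2
      · linarith
      · exact lt_of_le_of_ne (hqj j) (fun h3 => h2 ((hEm j).2 h3.symm))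
    refine (fold_mem h1 E).up fun i => ?_
    refine Fin.cases ?_ (fun j => ?_) i
    · rw [fold_zero, hr0]
      have h3 : ∑ j ∈ E, (r j.succ - 1 / 2) = E.card * δ := by
        rw [Finset.sum_congr rfl (fun j hj => by rw [hrj, if_pos hj]), Finset.sum_const,
          nsmul_eq_mul]
        ring
      rw [h3]
      have h4 : (E.card : ℝ) ≤ k := by
        exact_mod_cast (Finset.card_le_univ E).trans_eq (Fintype.card_fin k)
      nlinarith
    · rw [fold_succ]
      split_ifs with h2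
      · exact ((hEm j).1 h2).ge
      · rw [hrj, if_neg h2]
  have := rfS_mem hqD S
  rwa [hq, rfS_rfS] at this

end Pool.Agent.V5helper62.MD
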