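import Pool.Agent.V5helper62.MD.Reg

/-!
# The reflections
-/

set_option autoImplicit false

open MeasureTheory Set Filter Topology Metric

namespace Pool.Agent.V5helper62.MD

open Pool.Agent.Q48.MDS Complex

/-- The reflection `s_j -> 1 - s_j`, `w -> w + s_j - 1/2`. -/
def rf {α : Type*} [Field α] {k : ℕ} (j : Fin k) (x : Fin (k + 1) → α) : Fin (k + 1) → α :=
  fun i => if i = 0 then x 0 + x j.succ - 1 / 2 else if i = j.succ then 1 - x j.succ else x i

section basic

variable {α : Type*} [Field α] {k : ℕ} (j : Fin k) (x : Fin (k + 1) → α)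

theorem rf_zero : rf j x 0 = x 0 + x j.succ - 1 / 2 := by simp [rf]

theorem rf_self : rf j x j.succ = 1 - x j.succ := by simp [rf, Fin.succ_ne_zero]

theorem rf_ne {i : Fin k} (h : i ≠ j) : rf j x i.succ = x i.succ := by
  have h1 : i.succ ≠ j.succ := fun h' => h (Fin.succ_injective _ h')
  simp [rf, Fin.succ_ne_zero, h1]

theorem rf_rf (h2 : (2 : α) ≠ 0) : rf j (rf j x) = x := by
  funext i
  refine Fin.cases ?_ (fun i => ?_) i
  · rw [rf_zero, rf_zero, rf_self]
    field_simp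
    ring
  · by_cases h : i = j
    · subst h
      rw [rf_self, rf_self]; ring
    · rw [rf_ne j _ h, rf_ne j _ h]

end basic

theorem rf_re {k : ℕ} (j : Fin k) (z : Fin (k + 1) → ℂ) :
    (fun i => (rf j z i).re) = rf j (fun i => (z i).re) := by
  funext i
  refine Fin.cases ?_ (fun i => ?_) i
  · rw [rf_zero, rf_zero]
    simp
  · by_cases h : i = j
    · subst h
      rw [rf_self, rf_self]; simp
    · rw [rf_ne j _ h, rf_ne j _ h]

theorem rf_comb {k : ℕ} (j : Fin k) (x y : Fin (k + 1) → ℝ) {a b : ℝ} (hab : a + b = 1) :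
    rf j (a • x + b • y) = a • rf j x + b • rf j y := by
  funext i
  refine Fin.cases ?_ (fun i => ?_) i
  · simp only [rf_zero, Pi.add_apply, Pi.smul_apply, smul_eq_mul]
    linear_combination (1 / 2 : ℝ) * hab
  · by_cases h : i = j
    · subst h
      simp only [rf_self, Pi.add_apply, Pi.smul_apply, smul_eq_mul]
      linear_combination -hab
    · simp only [rf_ne j _ h, Pi.add_apply, Pi.smul_apply, smul_eq_mul]

theorem continuous_rf {k : ℕ} (j : Fin k) : Continuous (rf j : (Fin (k + 1) → ℝ) → _) := by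
  refine continuous_pi fun i => ?_
  refine Fin.cases ?_ (fun i => ?_) i
  · simp only [rf_zero]; fun_prop
  · by_cases h : i = j
    · subst h
      simp only [rf_self]; fun_prop
    · simp only [rf_ne j _ h]; fun_prop

theorem differentiable_rf {k : ℕ} (j : Fin k) :
    Differentiable ℂ (rf j : (Fin (k + 1) → ℂ) → (Fin (k + 1) → ℂ)) := by
  rw [differentiable_pi]
  intro i
  refine Fin.cases ?_ (fun i => ?_) i
  · simp only [rf_zero]; fun_prop
  · by_cases h : i = j
    · subst h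
      simp only [rf_self]; fun_prop
    · simp only [rf_ne j _ h]; fun_prop

theorem im_rf_le {k : ℕ} (j : Fin k) (z : Fin (k + 1) → ℂ) :
    ‖fun i => (rf j z i).im‖ ≤ 2 * ‖fun i => (z i).im‖ := by
  have h4 : ∀ i, |(z i).im| ≤ ‖fun i => (z i).im‖ := fun i =>
    norm_le_pi_norm (fun i => (z i).im) i
  rw [pi_norm_le_iff_of_nonneg (by positivity)]
  intro i
  rw [Real.norm_eq_abs]
  refine Fin.cases ?_ (fun i => ?_) i
  · rw [rf_zero]
    have : (z 0 + z j.succ - 1 / 2).im = (z 0).im + (z j.succ).im := by simp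
    rw [this]
    linarith [abs_add_le (z 0).im (z j.succ).im, h4 0, h4 j.succ]
  · by_cases h : i = j
    · subst h
      rw [rf_self]
      have : (1 - z i.succ).im = -(z i.succ).im := by simp
      rw [this, abs_neg]
      linarith [h4 i.succ, abs_nonneg (z i.succ).im]
    · rw [rf_ne j _ h]
      linarith [h4 i.succ, abs_nonneg (z i.succ).im]

/-- exchange `J` and `J Δ {j}` -/
def tog {k : ℕ} (j : Fin k) (J : Finset (Fin k)) : Finset (Fin k) :=
  if j ∈ J then J.erase j else insert j J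

theorem tog_tog {k : ℕ} (j : Fin k) (J : Finset (Fin k)) : tog j (tog j J) = J := by
  unfold tog
  by_cases h : j ∈ J
  · simp [h]
  · simp [h]

theorem sigma_rf {k : ℕ} (j : Fin k) (J : Finset (Fin k)) (z : Fin (k + 1) → ℂ) :
    sigma J (rf j z) = sigma (tog j J) z := by
  unfold sigma tog
  rw [rf_zero]
  by_cases h : j ∈ J
  · rw [if_pos h, ← Finset.add_sum_erase J _ h, rf_self, Finset.card_erase_of_mem h]
    have h1 : ∑ i ∈ J.erase j, rf j z i.succ = ∑ i ∈ J.erase j, z i.succ :=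
      Finset.sum_congr rfl fun i hi => rf_ne j _ (Finset.ne_of_mem_erase hi)
    have h2 : ((J.card - 1 : ℕ) : ℂ) = (J.card : ℂ) - 1 := by
      rw [Nat.cast_sub (Finset.card_pos.2 ⟨j, h⟩), Nat.cast_one]
    rw [h1, h2]
    ring
  · rw [if_neg h, Finset.sum_insert h, Finset.card_insert_of_notMem h]
    have h1 : ∑ i ∈ J, rf j z i.succ = ∑ i ∈ J, z i.succ :=
      Finset.sum_congr rfl fun i hi => rf_ne j _ (fun h' => h (h' ▸ hi))
    rw [h1]
    push_cast
    ring

theorem rsig_rf {k : ℕ} (j : Fin k) (J : Finset (Fin k)) (x : Fin (k + 1) → ℝ) :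
    rsig J (rf j x) = rsig (tog j J) x := by
  unfold rsig tog
  rw [rf_zero]
  by_cases h : j ∈ J
  · rw [if_pos h, ← Finset.add_sum_erase J _ h, rf_self, Finset.card_erase_of_mem h]
    have h1 : ∑ i ∈ J.erase j, rf j x i.succ = ∑ i ∈ J.erase j, x i.succ :=
      Finset.sum_congr rfl fun i hi => rf_ne j _ (Finset.ne_of_mem_erase hi)
    have h2 : ((J.card - 1 : ℕ) : ℝ) = (J.card : ℝ) - 1 := by
      rw [Nat.cast_sub (Finset.card_pos.2 ⟨j, h⟩), Nat.cast_one]
    rw [h1, h2]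
    ring
  · rw [if_neg h, Finset.sum_insert h, Finset.card_insert_of_notMem h]
    have h1 : ∑ i ∈ J, rf j x i.succ = ∑ i ∈ J, x i.succ :=
      Finset.sum_congr rfl fun i hi => rf_ne j _ (fun h' => h (h' ▸ hi))
    rw [h1]
    push_cast
    ring

theorem rf_mem_V {k : ℕ} (j : Fin k) {x : Fin (k + 1) → ℝ} (hx : x ∈ V k) : rf j x ∈ V k := by
  intro J
  rw [rsig_rf]
  exact hx _

theorem prod_sigma_rf {k : ℕ} (j : Fin k) (z : Fin (k + 1) → ℂ) :
    ∏ J : Finset (Fin k), (sigma J (rf j z) - 1) = ∏ J : Finset (Fin k), (sigma J z - 1) := by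
  simp_rw [sigma_rf]
  exact Equiv.prod_comp (Function.Involutive.toPerm (tog j) (tog_tog j))
    (fun J => sigma J z - 1)

/-- **The functional equation of the series.** -/
theorem F1_fe {k M : ℕ} (j : Fin k) {z : Fin (k + 1) → ℂ}
    (hz : ∀ n : ℕ, z j.succ ≠ 2 * (n : ℂ) + 1) : F1 k M z = X (z j.succ) * F1 k M (rf j z) := by
  have h1 : ∀ d : {d : ℕ // FundDisc d}, tm k M d z = X (z j.succ) * tm k M d (rf j z) := by
    intro d
    unfold tm
    split_ifs with hd1
    · rw [mul_zero]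
    have hd := one_lt_of d.2 hd1
    have hd0 : ((d : ℕ) : ℂ) ≠ 0 := by exact_mod_cast (by omega : (d : ℕ) ≠ 0)
    rw [← Finset.mul_prod_erase Finset.univ (fun i : Fin k => Lf d (z i.succ)) (Finset.mem_univ j),
      ← Finset.mul_prod_erase Finset.univ (fun i : Fin k => Lf d (rf j z i.succ))
        (Finset.mem_univ j), rf_zero, rf_self]
    have h2 : ∏ i ∈ Finset.univ.erase j, Lf d (rf j z i.succ) =
        ∏ i ∈ Finset.univ.erase j, Lf d (z i.succ) :=
      Finset.prod_congr rfl fun i hi => by rw [rf_ne j _ (Finset.ne_of_mem_erase hi)]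
    have h3 : ((d : ℕ) : ℂ) ^ (-(z 0 + z j.succ - 1 / 2)) =
        ((d : ℕ) : ℂ) ^ (-(z 0)) * ((d : ℕ) : ℂ) ^ (1 / 2 - z j.succ) := by
      rw [← Complex.cpow_add _ _ hd0]
      congr 1
      ring
    rw [h2, h3, Lf_fe d.2 hd hz]
    ring
  unfold F1 A1
  rw [prod_sigma_rf, tsum_congr h1, tsum_mul_left]
  ring

/-- a continuation to a convex domain which contains the two standard regions -/
structure Cont (k M : ℕ) (Ω : Set (Fin (k + 1) → ℝ)) (G : (Fin (k + 1) → ℂ) → ℂ) : Prop where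
  op : IsOpen Ω
  conv : Convex ℝ Ω
  orth : orth (k + 1) ⊆ Ω
  V : V k ⊆ Ω
  temp : Tempered Ω G
  eqV : EqOn G (F1 k M) (tube (MD.V k))
  eqO : EqOn G (F k M) (tube (Pool.Agent.Q48.MDS.orth (k + 1)))

theorem orth_inter_V_nonempty (k : ℕ) : (orth (k + 1) ∩ V k).Nonempty := by
  refine ⟨fun i => if i = 0 then (k : ℝ) + 3 else 2, fun i => ?_, fun J => ?_⟩
  · show 1 < if i = 0 then (k : ℝ) + 3 else 2
    have : (0 : ℝ) ≤ k := Nat.cast_nonneg k
    split_ifs <;> linarith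
  · unfold rsig
    simp only [if_true, Fin.succ_ne_zero, if_false, Finset.sum_const, nsmul_eq_mul]
    have : (0 : ℝ) ≤ J.card := Nat.cast_nonneg _
    linarith

/-- gluing on a convex domain which meets the first one -/
theorem glue_hull {n : ℕ} {W₁ W₂ W₀ : Set (Fin n → ℝ)} (h₁ : IsOpen W₁) (h₂ : IsOpen W₂)
    (c₁ : Convex ℝ W₁) (c₂ : Convex ℝ W₂) {G₁ G₂ : (Fin n → ℂ) → ℂ} (hG₁ : Tempered W₁ G₁)
    (hG₂ : Tempered W₂ G₂) (h₀ : IsOpen W₀) (hne : W₀.Nonempty) (hs : W₀ ⊆ W₁ ∩ W₂)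
    (he : EqOn G₁ G₂ (tube W₀)) :
    ∃ G : (Fin n → ℂ) → ℂ, Tempered (convexHull ℝ (W₁ ∪ W₂)) G ∧ EqOn G G₁ (tube W₁) ∧
      EqOn G G₂ (tube W₂) := by
  have he' : EqOn G₁ G₂ (tube (W₁ ∩ W₂)) :=
    eqOn_tube h₀ hne (h₁.inter h₂) (c₁.inter c₂) hs (hG₁.1.mono fun z hz => hz.1)
      (hG₂.1.mono fun z hz => hz.2) he
  obtain ⟨g, hg, hg₁, hg₂⟩ := tempered_glue h₁ h₂ hG₁ hG₂ he'
  obtain ⟨x, hx⟩ := hne
  have hconn : IsConnected (W₁ ∪ W₂) :=
    ⟨⟨x, Or.inl (hs hx).1⟩, IsPreconnected.union x (hs hx).1 (hs hx).2 c₁.isPreconnected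
      c₂.isPreconnected⟩
  obtain ⟨g', hg', hgg'⟩ := bochner (h₁.union h₂) hconn hg
  exact ⟨g', hg', fun z hz => (hgg' (show z ∈ tube (W₁ ∪ W₂) from Or.inl hz)).trans (hg₁ hz),
    fun z hz => (hgg' (show z ∈ tube (W₁ ∪ W₂) from Or.inr hz)).trans (hg₂ hz)⟩

theorem cont_of {k M : ℕ} {p : Fin (k + 1) → ℝ} (h : ContinuesTo k M p) :
    ∃ (Ω : Set (Fin (k + 1) → ℝ)) (G : (Fin (k + 1) → ℂ) → ℂ), p ∈ Ω ∧ Cont k M Ω G := by
  obtain ⟨Ω, hΩo, hΩc, hsub, hp, G₀, hG₀, hGeq⟩ := h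
  obtain ⟨G, hG, hGG⟩ := bochner hΩo hΩc hG₀
  have hΩW : Ω ⊆ convexHull ℝ Ω := subset_convexHull ℝ Ω
  have hGO : EqOn G (F k M) (tube (orth (k + 1))) := fun z hz => by rw [hGG (hsub hz), hGeq hz]
  obtain ⟨g, hg, hg₁, hg₂⟩ := glue_hull hΩo.convexHull (isOpen_V k) (convex_convexHull ℝ Ω)
    (convex_V k) hG (tempered_F1 (M := M) (isOpen_V k) (dom_V k M))
    ((isOpen_orth (k + 1)).inter (isOpen_V k)) (orth_inter_V_nonempty k)
    (fun x hx => ⟨hΩW (hsub hx.1), hx.2⟩) (fun z hz => by rw [hGO hz.1, F1_eq M hz.1])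
  have hW : convexHull ℝ Ω ∪ V k ⊆ convexHull ℝ (convexHull ℝ Ω ∪ V k) := subset_convexHull ℝ _
  refine ⟨_, g, hW (Or.inl (hΩW hp)), ?_⟩
  constructor
  · exact (hΩo.convexHull.union (isOpen_V k)).convexHull
  · exact convex_convexHull ℝ _
  · exact fun x hx => hW (Or.inl (hΩW (hsub hx)))
  · exact fun x hx => hW (Or.inr hx)
  · exact hg
  · exact hg₂
  · exact fun z hz => (hg₁ (hΩW (hsub hz))).trans (hGO hz)

theorem Cont.continuesTo {k M : ℕ} {Ω : Set (Fin (k + 1) → ℝ)} {G : (Fin (k + 1) → ℂ) → ℂ}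
    (h : Cont k M Ω G) {p : Fin (k + 1) → ℝ} (hp : p ∈ Ω) : ContinuesTo k M p :=
  ⟨Ω, h.op, ⟨⟨p, hp⟩, h.conv.isPreconnected⟩, h.orth, hp, G, h.temp, h.eqO⟩

theorem Cont.glue {k M : ℕ} {Ω : Set (Fin (k + 1) → ℝ)} {G : (Fin (k + 1) → ℂ) → ℂ}
    (h : Cont k M Ω G) {W : Set (Fin (k + 1) → ℝ)} {G' : (Fin (k + 1) → ℂ) → ℂ} (hW : IsOpen W)
    (hc : Convex ℝ W) (hG' : Tempered W G') (hne : (W ∩ MD.V k).Nonempty)
    (he : EqOn G' (F1 k M) (tube (W ∩ MD.V k))) {p : Fin (k + 1) → ℝ} (hp : p ∈ W) :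
    ContinuesTo k M p := by
  obtain ⟨g, hg, hg₁, hg₂⟩ := glue_hull h.op hW h.conv hc h.temp hG' (hW.inter (isOpen_V k)) hne
    (fun x hx => ⟨h.V hx.2, hx.1⟩) (fun z hz => by rw [he hz, h.eqV hz.2])
  have hs : Ω ∪ W ⊆ convexHull ℝ (Ω ∪ W) := subset_convexHull ℝ _
  refine ⟨convexHull ℝ (Ω ∪ W), (h.op.union hW).convexHull,
    ⟨⟨p, hs (Or.inr hp)⟩, (convex_convexHull ℝ _).isPreconnected⟩,
    fun x hx => hs (Or.inl (h.orth hx)), hs (Or.inr hp), g, hg, fun z hz => ?_⟩
  rw [hg₁ (h.orth hz), h.eqO hz]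

/-- add `T` to the first coordinate -/
def addw {k : ℕ} (T : ℝ) (x : Fin (k + 1) → ℝ) : Fin (k + 1) → ℝ :=
  fun i => if i = 0 then x 0 + T else x i

theorem rsig_addw {k : ℕ} (T : ℝ) (x : Fin (k + 1) → ℝ) (J : Finset (Fin k)) :
    rsig J (addw T x) = rsig J x + T := by
  unfold rsig addw
  simp only [if_true, Fin.succ_ne_zero, if_false]
  ring

theorem rf_addw {k : ℕ} (T : ℝ) (x : Fin (k + 1) → ℝ) (j : Fin k) :
    rf j (addw T x) = addw T (rf j x) := by
  funext i
  refine Fin.cases ?_ (fun i => ?_) i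
  · rw [rf_zero]
    simp only [addw, if_true, Fin.succ_ne_zero, if_false, rf_zero]
    ring
  · by_cases h : i = j
    · subst h
      rw [rf_self]
      simp only [addw, Fin.succ_ne_zero, if_false, rf_self]
    · rw [rf_ne j _ h]
      simp only [addw, Fin.succ_ne_zero, if_false, rf_ne j _ h]

theorem exists_addw_mem_V {k : ℕ} (x : Fin (k + 1) → ℝ) : ∃ T : ℝ, 0 ≤ T ∧ addw T x ∈ V k := by
  refine ⟨∑ J : Finset (Fin k), (|rsig J x| + (k + 2)), ?_, fun J => ?_⟩
  · exact Finset.sum_nonneg fun J _ => by positivity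
  · rw [rsig_addw]
    have h1 : |rsig J x| + ((k : ℝ) + 2) ≤ ∑ J : Finset (Fin k), (|rsig J x| + (k + 2)) :=
      Finset.single_le_sum (f := fun J : Finset (Fin k) => |rsig J x| + ((k : ℝ) + 2))
        (fun J _ => by positivity) (Finset.mem_univ J)
    linarith [neg_abs_le (rsig J x)]

theorem le_addw {k : ℕ} {T : ℝ} (hT : 0 ≤ T) (x : Fin (k + 1) → ℝ) (i : Fin (k + 1)) :
    x i ≤ addw T x i := by
  unfold addw
  split_ifs with h
  · subst h; linarith
  · exact le_rfl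

theorem exists_free {y : ℝ} (hy : ∀ n : ℕ, y ≠ 2 * (n : ℝ) + 1) :
    ∃ a b : ℝ, a < y ∧ y < b ∧ Free a b := by
  rcases lt_or_ge y 1 with h | h
  · refine ⟨y - 1, (y + 1) / 2, by linarith, by linarith, fun n => Or.inr ?_⟩
    have : (0 : ℝ) ≤ n := Nat.cast_nonneg n
    linarith
  · obtain ⟨m, hm⟩ : ∃ m : ℕ, m = ⌊(y - 1) / 2⌋₊ := ⟨_, rfl⟩
    have h1 : (m : ℝ) ≤ (y - 1) / 2 := by rw [hm]; exact Nat.floor_le (by linarith)
    have h2 : (y - 1) / 2 < m + 1 := by rw [hm]; exact Nat.lt_floor_add_one _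
    have h3 : 2 * (m : ℝ) + 1 < y := lt_of_le_of_ne (by linarith) (hy m).symm
    refine ⟨(2 * (m : ℝ) + 1 + y) / 2, (y + (2 * (m : ℝ) + 3)) / 2, by linarith, by linarith,
      fun n => ?_⟩
    rcases le_or_gt n m with h4 | h4
    · left
      have : (n : ℝ) ≤ m := by exact_mod_cast h4
      linarith
    · right
      have : (m : ℝ) + 1 ≤ n := by exact_mod_cast h4
      linarith

theorem refl_generic {k M : ℕ} {p : Fin (k + 1) → ℝ} (h : ContinuesTo k M p) (j : Fin k)
    (hp : ∀ n : ℕ, 1 - p j.succ ≠ 2 * (n : ℝ) + 1) : ContinuesTo k M (rf j p) := by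
  obtain ⟨Ω, G, hpΩ, hG⟩ := cont_of h
  obtain ⟨a, b, ha, hb, hfree⟩ := exists_free hp
  obtain ⟨C', N', hC', hX⟩ := X_bound hfree
  set W : Set (Fin (k + 1) → ℝ) := {x | rf j x ∈ Ω ∧ a < x j.succ ∧ x j.succ < b} with hW
  have hWo : IsOpen W := by
    refine (hG.op.preimage (continuous_rf j)).inter (IsOpen.inter ?_ ?_)
    · exact isOpen_lt continuous_const (continuous_apply _)
    · exact isOpen_lt (continuous_apply _) continuous_const
  have hWc : Convex ℝ W := by
    intro x hx y hy u v hu hv huv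
    refine ⟨?_, ?_, ?_⟩
    · rw [rf_comb j x y huv]
      exact hG.conv hx.1 hy.1 hu hv huv
    · exact (convex_Ioi a) hx.2.1 hy.2.1 hu hv huv
    · exact (convex_Iio b) hx.2.2 hy.2.2 hu hv huv
  have hmem : rf j p ∈ W := by
    refine ⟨?_, ?_, ?_⟩
    · rw [rf_rf j p two_ne_zero]; exact hpΩ
    · rw [rf_self]; exact ha
    · rw [rf_self]; exact hb
  have hT : Tempered W (fun z => X (z j.succ) * G (rf j z)) := by
    refine ⟨?_, fun K hK hc => ?_⟩
    · intro z hz
      have hz' : (fun i => (z i).re) ∈ W := hz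
      have h1 : DifferentiableAt ℂ (fun z : Fin (k + 1) → ℂ => X (z j.succ)) z := by
        have h2 : DifferentiableAt ℂ X (z j.succ) := X_diff (hfree.ne hz'.2.1.le hz'.2.2.le)
        have h2' : DifferentiableAt ℂ (fun z : Fin (k + 1) → ℂ => z j.succ) z := by fun_prop
        exact DifferentiableAt.comp (g := X) (f := fun z : Fin (k + 1) → ℂ => z j.succ) z h2 h2'
      have h3 : DifferentiableAt ℂ (fun z : Fin (k + 1) → ℂ => G (rf j z)) z := by
        have h4 : rf j z ∈ tube Ω := by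
          show (fun i => (rf j z i).re) ∈ Ω
          rw [rf_re]; exact hz'.1
        have h5 : DifferentiableAt ℂ G (rf j z) :=
          hG.temp.1.differentiableAt ((isOpen_tube hG.op).mem_nhds h4)
        exact h5.comp z (differentiable_rf j z)
      exact (h1.mul h3).differentiableWithinAt
    · obtain ⟨C, N, hb'⟩ := hG.temp.2 (rf j '' K) (by
        rintro _ ⟨x, hx, rfl⟩; exact (hK hx).1) (hc.image (continuous_rf j))
      refine ⟨C' * (|C| * 2 ^ N), N' + N, fun z hz => ?_⟩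
      have h0 := one_le_nim z
      have h1 := hX (z j.succ) (hK hz).2.1.le (hK hz).2.2.le
      have h2 := hb' (rf j z) (by rw [rf_re]; exact ⟨_, hz, rfl⟩)
      have h3 : |(z j.succ).im| ≤ ‖fun i => (z i).im‖ := norm_le_pi_norm (fun i => (z i).im) j.succ
      have h4 : ‖G (rf j z)‖ ≤ |C| * 2 ^ N * (1 + ‖fun i => (z i).im‖) ^ N := by
        refine h2.trans ?_
        have h5 : 1 + ‖fun i => (rf j z i).im‖ ≤ 2 * (1 + ‖fun i => (z i).im‖) := by
          linarith [im_rf_le j z]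
        calc C * (1 + ‖fun i => (rf j z i).im‖) ^ N ≤
            |C| * (2 * (1 + ‖fun i => (z i).im‖)) ^ N := by
              gcongr
              exact le_abs_self C
          _ = _ := by rw [mul_pow]; ring
      have h6 : ‖X (z j.succ)‖ ≤ C' * (1 + ‖fun i => (z i).im‖) ^ N' :=
        h1.trans (by gcongr)
      rw [norm_mul]
      calc ‖X (z j.succ)‖ * ‖G (rf j z)‖ ≤ (C' * (1 + ‖fun i => (z i).im‖) ^ N') *
          (|C| * 2 ^ N * (1 + ‖fun i => (z i).im‖) ^ N) := by gcongr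
        _ = _ := by rw [pow_add]; ring
  refine hG.glue hWo hWc hT ?_ ?_ hmem
  · obtain ⟨T, hT0, hTV⟩ := exists_addw_mem_V (rf j p)
    refine ⟨addw T (rf j p), ⟨?_, ?_, ?_⟩, hTV⟩
    · rw [rf_addw, rf_rf j p two_ne_zero]
      exact mem_of_ge hG.op hG.conv hG.orth hpΩ (le_addw hT0 p)
    · show a < addw T (rf j p) j.succ
      simp only [addw, Fin.succ_ne_zero, if_false, rf_self]
      exact ha
    · show addw T (rf j p) j.succ < b
      simp only [addw, Fin.succ_ne_zero, if_false, rf_self]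
      exact hb
  · intro z hz
    have hz1 : (fun i => (z i).re) ∈ W := hz.1
    have hz2 : (fun i => (z i).re) ∈ MD.V k := hz.2
    have hV : rf j z ∈ tube (MD.V k) := by
      show (fun i => (rf j z i).re) ∈ MD.V k
      rw [rf_re]; exact rf_mem_V j hz2
    show X (z j.succ) * G (rf j z) = F1 k M z
    rw [hG.eqV hV, ← F1_fe j (hfree.ne hz1.2.1.le hz1.2.2.le)]

/-- **The set of the points to which `F_M` continues is invariant under the reflections.** -/
theorem refl {k M : ℕ} {p : Fin (k + 1) → ℝ} (h : ContinuesTo k M p) (j : Fin k) :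
    ContinuesTo k M (rf j p) := by
  by_cases hp : ∀ n : ℕ, 1 - p j.succ ≠ 2 * (n : ℝ) + 1
  · exact refl_generic h j hp
  push Not at hp
  obtain ⟨n, hn⟩ := hp
  obtain ⟨Ω, G, hpΩ, hG⟩ := cont_of h
  obtain ⟨ε, hε, hε1, hb⟩ : ∃ ε : ℝ, 0 < ε ∧ ε < 1 ∧ ball p (2 * ε) ⊆ Ω := by
    obtain ⟨δ, hδ, hb⟩ := Metric.isOpen_iff.1 hG.op p hpΩ
    refine ⟨min (δ / 2) (1 / 2), by positivity, ?_, ?_⟩
    · exact (min_le_right _ _).trans_lt (by norm_num)
    · refine (ball_subset_ball ?_).trans hb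
      linarith [min_le_left (δ / 2) (1 / 2 : ℝ)]
  have key : ∀ e : ℝ, |e| = ε → ContinuesTo k M (rf j (Function.update p j.succ (p j.succ + e))) := by
    intro e he
    have h1 : Function.update p j.succ (p j.succ + e) ∈ Ω := by
      apply hb
      rw [mem_ball, dist_pi_lt_iff (by positivity)]
      intro i
      by_cases hi : i = j.succ
      · subst hi
        rw [Function.update_self, Real.dist_eq, add_sub_cancel_left, he]
        linarith
      · rw [Function.update_of_ne hi, dist_self]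
        positivity
    refine refl_generic (hG.continuesTo h1) j fun m hm => ?_
    rw [Function.update_self] at hm
    have h2 : (2 : ℝ) * (n : ℝ) - e = 2 * m := by linarith
    have h3 : |2 * ((n : ℝ) - m)| = ε := by
      rw [← he]
      congr 1
      linarith
    rcases Nat.lt_trichotomy n m with h4 | h4 | h4
    · have h5 : (n : ℝ) + 1 ≤ m := by exact_mod_cast h4
      rw [abs_of_nonpos (by linarith)] at h3
      linarith
    · subst h4
      rw [sub_self, mul_zero, abs_zero] at h3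
      linarith
    · have h5 : (m : ℝ) + 1 ≤ n := by exact_mod_cast h4
      rw [abs_of_nonneg (by linarith)] at h3
      linarith
  have h1 := key ε (abs_of_pos hε)
  have h2 := key (-ε) (by rw [abs_neg, abs_of_pos hε])
  have h3 := convex_continuesTo k M h1 h2 (by norm_num : (0 : ℝ) ≤ 1 / 2)
    (by norm_num : (0 : ℝ) ≤ 1 / 2) (by norm_num)
  have h4 : (1 / 2 : ℝ) • rf j (Function.update p j.succ (p j.succ + ε)) +
      (1 / 2 : ℝ) • rf j (Function.update p j.succ (p j.succ + -ε)) = rf j p := by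
    rw [← rf_comb j _ _ (by norm_num)]
    congr 1
    funext i
    by_cases hi : i = j.succ
    · subst hi
      simp only [Pi.add_apply, Pi.smul_apply, smul_eq_mul, Function.update_self]
      ring
    · simp only [Pi.add_apply, Pi.smul_apply, smul_eq_mul, Function.update_of_ne hi]
      ring
  rw [h4] at h3
  exact h3

end Pool.Agent.V5helper62.MD
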