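import Pool.Agent.Q48.MDS.Local
import Pool.Agent.Q48.MDS.Glue

/-!
# Series of holomorphic functions of several variables
-/

set_option autoImplicit false

open MeasureTheory Set Filter Topology Metric

namespace Pool.Agent.V5helper62.MD

open Pool.Agent.Q48.MDS

theorem differentiableOn_tsum' {ι α : Type*} [Fintype ι] [DecidableEq ι] {U : Set (ι → ℂ)}
    (hU : IsOpen U) (f : α → (ι → ℂ) → ℂ) (hd : ∀ a, DifferentiableOn ℂ (f a) U)
    (hb : ∀ z₀ ∈ U, ∃ V ∈ 𝓝 z₀, ∃ b : α → ℝ, Summable b ∧ ∀ z ∈ V, ∀ a, ‖f a z‖ ≤ b a) :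
    DifferentiableOn ℂ (fun z => ∑' a, f a z) U := by
  intro z₀ hz₀
  apply DifferentiableAt.differentiableWithinAt
  obtain ⟨V, hV, b, hbi, hbV⟩ := hb z₀ hz₀
  obtain ⟨R, hR, hRs⟩ := Metric.mem_nhds_iff.1 (inter_mem hV (hU.mem_nhds hz₀))
  set r := R / 2 with hr
  have hr0 : 0 < r := by positivity
  have hsub : ∀ z ∈ ball z₀ r, ball z r ⊆ ball z₀ R := by
    intro z hz w hw
    rw [mem_ball] at *
    calc dist w z₀ ≤ dist w z + dist z z₀ := dist_triangle _ _ _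
      _ < r + r := add_lt_add hw hz
      _ = R := by rw [hr]; ring
  have key := hasFDerivAt_tsum_of_isPreconnected (𝕜 := ℂ) (f := f) (u := fun a => 2 * b a / r)
    (f' := fun a z => fderiv ℂ (f a) z) (s := ball z₀ r) ((hbi.mul_left 2).div_const r) isOpen_ball
    (convex_ball z₀ r).isPreconnected ?_ ?_ (mem_ball_self hr0) ?_ (mem_ball_self hr0)
  · exact key.differentiableAt
  · intro a z hz
    have hz' : z ∈ U := (hRs (hsub z hz (mem_ball_self hr0))).2
    exact ((hd a).differentiableAt (hU.mem_nhds hz')).hasFDerivAt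
  · intro a z hz
    have h1 : DifferentiableOn ℂ (f a) (ball z r) :=
      (hd a).mono fun w hw => (hRs (hsub z hz hw)).2
    refine Complex.norm_fderiv_le_div_of_mapsTo_ball h1 ?_ hr0
    intro w hw
    rw [mem_closedBall, dist_eq_norm]
    have h2 := hbV w (hRs (hsub z hz hw)).1 a
    have h3 := hbV z (hRs (hsub z hz (mem_ball_self hr0))).1 a
    calc ‖f a w - f a z‖ ≤ ‖f a w‖ + ‖f a z‖ := norm_sub_le _ _
      _ ≤ 2 * b a := by linarith
  · exact Summable.of_norm_bounded hbi (hbV z₀ (mem_of_mem_nhds hV))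

/-- the indices are natural numbers: a convergent majorant -/
theorem summable_idx {P : ℕ → Prop} {η : ℝ} (hη : 1 < η) :
    Summable (fun d : {d : ℕ // P d} => ((d : ℕ) : ℝ) ^ (-η)) :=
  (Real.summable_nat_rpow.2 (by linarith : -η < -1)).comp_injective Subtype.val_injective

/-- the hypothesis on the terms of a Dirichlet series -/
def Dom {n : ℕ} {P : ℕ → Prop} (U : Set (Fin n → ℝ)) (f : {d : ℕ // P d} → (Fin n → ℂ) → ℂ) :
    Prop :=
  ∀ K ⊆ U, IsCompact K → ∃ (C η : ℝ) (N : ℕ), 0 ≤ C ∧ 1 < η ∧ ∀ z : Fin n → ℂ,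
    (fun i => (z i).re) ∈ K → ∀ d : {d : ℕ // P d},
      ‖f d z‖ ≤ C * (1 + ‖fun i => (z i).im‖) ^ N * ((d : ℕ) : ℝ) ^ (-η)

theorem Dom.summable {n : ℕ} {P : ℕ → Prop} {U : Set (Fin n → ℝ)}
    {f : {d : ℕ // P d} → (Fin n → ℂ) → ℂ} (h : Dom U f) {z : Fin n → ℂ} (hz : z ∈ tube U) :
    Summable (fun d => f d z) := by
  obtain ⟨C, η, N, _, hη, hb⟩ := h {fun i => (z i).re} (Set.singleton_subset_iff.2 hz) isCompact_singleton
  exact Summable.of_norm_bounded ((summable_idx hη).mul_left _) (hb z rfl)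

theorem Dom.tempered {n : ℕ} {P : ℕ → Prop} {U : Set (Fin n → ℝ)} (hU : IsOpen U)
    {f : {d : ℕ // P d} → (Fin n → ℂ) → ℂ} (h : Dom U f)
    (hd : ∀ d, DifferentiableOn ℂ (f d) (tube U)) : Tempered U (fun z => ∑' d, f d z) := by
  refine ⟨differentiableOn_tsum' (isOpen_tube hU) f hd fun z₀ hz₀ => ?_, fun K hK hc => ?_⟩
  · obtain ⟨ε, hε, hεU⟩ := Metric.nhds_basis_closedBall.mem_iff.1 (hU.mem_nhds hz₀)
    obtain ⟨C, η, N, hC, hη, hb⟩ := h _ hεU (isCompact_closedBall _ _)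
    refine ⟨{z | (fun i => (z i).re) ∈ closedBall (fun i => (z₀ i).re) ε} ∩
      {z | ‖fun i => (z i).im‖ < ‖fun i => (z₀ i).im‖ + 1}, inter_mem ?_ ?_,
      fun d => C * (1 + (‖fun i => (z₀ i).im‖ + 1)) ^ N * ((d : ℕ) : ℝ) ^ (-η),
      (summable_idx hη).mul_left _, fun z hz d => ?_⟩
    · exact (continuous_re' (ι := Fin n)).continuousAt.preimage_mem_nhds
        (closedBall_mem_nhds _ hε)
    · have hc : Continuous (fun z : Fin n → ℂ => ‖fun i => (z i).im‖) := by fun_prop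
      exact (isOpen_lt hc continuous_const).mem_nhds (by simp)
    · refine (hb z hz.1 d).trans ?_
      have h1 : ‖fun i => (z i).im‖ ≤ ‖fun i => (z₀ i).im‖ + 1 := le_of_lt hz.2
      beta_reduce
      gcongr
  · obtain ⟨C, η, N, hC, hη, hb⟩ := h K hK hc
    refine ⟨C * ∑' d : {d : ℕ // P d}, ((d : ℕ) : ℝ) ^ (-η), N, fun z hz => ?_⟩
    have h1 := tsum_of_norm_bounded ((summable_idx hη).mul_left
      (C * (1 + ‖fun i => (z i).im‖) ^ N)).hasSum (hb z hz)
    rw [tsum_mul_left] at h1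
    refine h1.trans (le_of_eq ?_)
    ring

end Pool.Agent.V5helper62.MD
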