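import Pool.Agent.V5helper62.MD.LF
import Pool.Agent.V5helper62.MD.Sum

/-!
# The series of the L-functions of the fundamental discriminants greater than one
-/

set_option autoImplicit false

open MeasureTheory Set Filter Topology Metric

namespace Pool.Agent.V5helper62.MD

open Pool.Agent.Q48.MDS Complex

theorem one_lt_of {d : ℕ} (h : FundDisc d) (h1 : d ≠ 1) : 1 < d := by
  rcases Nat.eq_zero_or_pos d with h0 | h0
  · subst h0
    rcases h with ⟨h, _⟩ | ⟨m, hm, hm2, hm3⟩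
    · omega
    · have : m = 0 := by omega
      subst this
      omega
  · omega

theorem norm_pow_le {s : ℂ} {t : ℝ} (h : |s.im| ≤ t) {B : ℝ} (hB : |s.re| ≤ B) :
    ‖s‖ ≤ (1 + B) * (1 + t) := by
  have h0 : 0 ≤ B := (abs_nonneg _).trans hB
  have h1 : 0 ≤ t := (abs_nonneg _).trans h
  refine (Complex.norm_le_abs_re_add_abs_im s).trans ?_
  nlinarith

/-- a crude bound for the L-functions in vertical strips -/
theorem Lf_crude (B : ℝ) (hB : 1 ≤ B) : ∃ (C : ℝ) (N : ℕ), 1 ≤ C ∧ ∀ D : ℕ, FundDisc D → 1 < D →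
    ∀ s : ℂ, |s.re| ≤ B → ‖Lf D s‖ ≤ C * (1 + |s.im|) ^ N * (D : ℝ) ^ (1 + max 0 (1 / 2 - s.re)) := by
  have hfree : Free (-B) (3 / 4) := by
    intro n
    right
    have : (0 : ℝ) ≤ n := Nat.cast_nonneg n
    linarith
  obtain ⟨C, N, hC, hX⟩ := X_bound hfree
  refine ⟨8 * (2 + B) * (1 + C), N + 1, by nlinarith, fun D hD h1 s hs => ?_⟩
  have hD1 : (1 : ℝ) ≤ D := by exact_mod_cast h1.le
  have hD0 : (0 : ℝ) < D := by linarith
  have hB0 : 0 ≤ B := by linarith
  have ht : 1 ≤ (1 + |s.im|) := by linarith [abs_nonneg s.im]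
  have htN : 1 ≤ (1 + |s.im|) ^ N := one_le_pow₀ ht
  rcases le_total (1 / 2) s.re with h2 | h2
  · have h3 := Lf_mid hD h1 (s := s) (by linarith)
    have h4 := norm_pow_le (s := s) le_rfl hs
    have e1 : max 0 (1 / 2 - s.re) = 0 := max_eq_left (by linarith)
    rw [e1, add_zero, Real.rpow_one]
    calc ‖Lf D s‖ ≤ 8 * D * ‖s‖ := h3
      _ ≤ 8 * D * ((1 + B) * (1 + |s.im|)) := by gcongr
      _ ≤ 8 * D * ((2 + B) * (1 + |s.im|)) := by gcongr; linarith
      _ = 8 * (2 + B) * 1 * ((1 + |s.im|) * 1) * D := by ring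
      _ ≤ 8 * (2 + B) * (1 + C) * ((1 + |s.im|) * (1 + |s.im|) ^ N) * D := by
          gcongr
          linarith
      _ = _ := by rw [pow_succ]; ring
  · have hne : ∀ n : ℕ, s ≠ 2 * (n : ℂ) + 1 := hfree.ne (abs_le.1 hs).1 (by linarith)
    rw [Lf_fe hD h1 hne, norm_mul, norm_mul]
    have e1 : max 0 (1 / 2 - s.re) = 1 / 2 - s.re := max_eq_right (by linarith)
    have e2 : ‖((D : ℕ) : ℂ) ^ (1 / 2 - s)‖ = (D : ℝ) ^ (1 / 2 - s.re) := by
      rw [Complex.norm_natCast_cpow_of_pos (by omega)]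
      congr 1
      simp
    have h3 := Lf_mid hD h1 (s := 1 - s) (by simp; linarith)
    have h4 : ‖1 - s‖ ≤ (2 + B) * (1 + |s.im|) := by
      have h5 := norm_pow_le (s := s) le_rfl hs
      have h6 : ‖(1 : ℂ) - s‖ ≤ 1 + ‖s‖ := by simpa using norm_sub_le (1 : ℂ) s
      nlinarith
    have h5 := hX s (abs_le.1 hs).1 (by linarith)
    rw [e2, e1, Real.rpow_add hD0, Real.rpow_one]
    calc (D : ℝ) ^ (1 / 2 - s.re) * ‖X s‖ * ‖Lf D (1 - s)‖
        ≤ (D : ℝ) ^ (1 / 2 - s.re) * (C * (1 + |s.im|) ^ N) * (8 * D * ((2 + B) * (1 + |s.im|))) := by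
          gcongr
          exact h3.trans (by gcongr)
      _ = 8 * (2 + B) * C * (1 + |s.im|) ^ (N + 1) * ((D : ℝ) ^ (1 / 2 - s.re) * D) := by ring
      _ ≤ 8 * (2 + B) * (1 + C) * (1 + |s.im|) ^ (N + 1) * ((D : ℝ) ^ (1 / 2 - s.re) * D) := by
          gcongr
          linarith
      _ = _ := by ring

/-- the terms with `d > 1` -/
noncomputable def tm (k M : ℕ) (d : {d : ℕ // FundDisc d}) (z : Fin (k + 1) → ℂ) : ℂ :=
  if (d : ℕ) = 1 then 0
  else (kron d M : ℂ) * ((d : ℕ) : ℂ) ^ (-(z 0)) * ∏ j : Fin k, Lf d (z j.succ)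

/-- `A_M - ζ(s_1) ... ζ(s_k)` -/
noncomputable def A1 (k M : ℕ) (z : Fin (k + 1) → ℂ) : ℂ := ∑' d, tm k M d z

/-- `F_M`, wherever the series converges -/
noncomputable def F1 (k M : ℕ) (z : Fin (k + 1) → ℂ) : ℂ :=
  A1 k M z * ∏ J : Finset (Fin k), (sigma J z - 1)

theorem diff_prod {E α : Type*} [NormedAddCommGroup E] [NormedSpace ℂ E] (S : Finset α)
    {f : α → E → ℂ} (h : ∀ a ∈ S, Differentiable ℂ (f a)) :
    Differentiable ℂ (fun z => ∏ a ∈ S, f a z) := by
  classical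
  induction S using Finset.induction_on with
  | empty => simp
  | insert a S ha ih =>
    have e : (fun z => ∏ b ∈ insert a S, f b z) = fun z => f a z * ∏ b ∈ S, f b z := by
      funext z
      exact Finset.prod_insert ha
    rw [e]
    exact (h a (Finset.mem_insert_self a S)).mul (ih fun b hb => h b (Finset.mem_insert_of_mem hb))

theorem tm_diff (k M : ℕ) (d : {d : ℕ // FundDisc d}) : Differentiable ℂ (tm k M d) := by
  unfold tm
  by_cases h : (d : ℕ) = 1
  · simp only [h, if_true]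
    exact differentiable_const _
  · simp only [h, if_false]
    have h1 := one_lt_of d.2 h
    have h2 : ((d : ℕ) : ℂ) ≠ 0 := by exact_mod_cast (by omega : (d : ℕ) ≠ 0)
    have h3 : Differentiable ℂ (fun z : Fin (k + 1) → ℂ => ((d : ℕ) : ℂ) ^ (-(z 0))) :=
      Differentiable.const_cpow (differentiable_apply (0 : Fin (k + 1))).neg (Or.inl h2)
    have h4 : Differentiable ℂ (fun z : Fin (k + 1) → ℂ => ∏ j : Fin k, Lf d (z j.succ)) := by
      exact diff_prod _ fun j _ => (Lf_diff d.2 h1).comp (differentiable_apply j.succ)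
    exact (h3.const_mul _).mul h4

/-- on the orthant the new definition agrees with the old one -/
theorem A1_eq {k : ℕ} (M : ℕ) {z : Fin (k + 1) → ℂ} (hz : z ∈ tube (orth (k + 1))) :
    A1 k M z = A k M z - ∏ j : Fin k, riemannZeta (z j.succ) := by
  classical
  have hz' : ∀ i, 1 < (z i).re := hz
  have hsum : Summable (fun d : {d : ℕ // FundDisc d} => (kron d M : ℂ) * (d : ℂ) ^ (-(z 0)) *
      ∏ j : Fin k, Lchi d (z j.succ)) := summable_coef k M hz'
  have h1 : FundDisc 1 := Or.inl ⟨rfl, squarefree_one⟩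
  have hζ : ∀ s : ℂ, 1 < s.re → Lchi 1 s = riemannZeta s := by
    intro s hs
    rw [← LSeries_one_eq_riemannZeta hs]
    unfold Lchi
    refine LSeries_congr (fun {n} _ => ?_) s
    rw [kron_one_left]
    simp
  unfold A
  rw [hsum.tsum_eq_add_tsum_ite ⟨1, h1⟩]
  have e1 : ((kron ((⟨1, h1⟩ : {d : ℕ // FundDisc d}) : ℕ) M : ℤ) : ℂ) *
      (((⟨1, h1⟩ : {d : ℕ // FundDisc d}) : ℕ) : ℂ) ^ (-(z 0)) *
      ∏ j : Fin k, Lchi ((⟨1, h1⟩ : {d : ℕ // FundDisc d}) : ℕ) (z j.succ) =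
      ∏ j : Fin k, riemannZeta (z j.succ) := by
    show ((kron 1 M : ℤ) : ℂ) * ((1 : ℕ) : ℂ) ^ (-(z 0)) * ∏ j : Fin k, Lchi 1 (z j.succ) = _
    rw [kron_one_left]
    simp only [Int.cast_one, Nat.cast_one, Complex.one_cpow, one_mul]
    exact Finset.prod_congr rfl fun j _ => hζ _ (hz' _)
  rw [e1, add_sub_cancel_left]
  unfold A1
  refine tsum_congr fun d => ?_
  unfold tm
  by_cases h : (d : ℕ) = 1
  · rw [if_pos h, if_pos (Subtype.ext h)]
  · rw [if_neg h, if_neg (fun h' => h (congrArg Subtype.val h'))]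
    congr 1
    exact Finset.prod_congr rfl fun j _ => Lf_eq d.2 (one_lt_of d.2 h) (hz' _)

theorem F1_eq {k : ℕ} (M : ℕ) {z : Fin (k + 1) → ℂ} (hz : z ∈ tube (orth (k + 1))) :
    F1 k M z = F k M z := by
  unfold F1 F
  rw [A1_eq M hz]

/-! ### tempered functions -/

theorem one_le_nim {n : ℕ} (z : Fin n → ℂ) : 1 ≤ 1 + ‖fun i => (z i).im‖ := by
  linarith [norm_nonneg (fun i => (z i).im)]

theorem tmul {n : ℕ} {U : Set (Fin n → ℝ)} {f g : (Fin n → ℂ) → ℂ} (hf : Tempered U f)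
    (hg : Tempered U g) : Tempered U (fun z => f z * g z) := by
  refine ⟨hf.1.mul hg.1, fun K hK hc => ?_⟩
  obtain ⟨C, N, h1⟩ := hf.2 K hK hc
  obtain ⟨C', N', h2⟩ := hg.2 K hK hc
  refine ⟨|C| * |C'|, N + N', fun z hz => ?_⟩
  have h0 := one_le_nim z
  have e1 : ‖f z‖ ≤ |C| * (1 + ‖fun i => (z i).im‖) ^ N :=
    (h1 z hz).trans (by gcongr; exact le_abs_self C)
  have e2 : ‖g z‖ ≤ |C'| * (1 + ‖fun i => (z i).im‖) ^ N' :=
    (h2 z hz).trans (by gcongr; exact le_abs_self C')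
  rw [norm_mul]
  calc _ ≤ (|C| * (1 + ‖fun i => (z i).im‖) ^ N) * (|C'| * (1 + ‖fun i => (z i).im‖) ^ N') := by
        gcongr
    _ = _ := by rw [pow_add]; ring

theorem tconst {n : ℕ} (U : Set (Fin n → ℝ)) (c : ℂ) :
    Tempered U (fun _ : Fin n → ℂ => c) :=
  ⟨differentiableOn_const _, fun _ _ _ => ⟨‖c‖, 0, fun z _ => by simp⟩⟩

theorem tprod {n : ℕ} {U : Set (Fin n → ℝ)} {α : Type*} (S : Finset α)
    {f : α → (Fin n → ℂ) → ℂ} (h : ∀ a ∈ S, Tempered U (f a)) :
    Tempered U (fun z => ∏ a ∈ S, f a z) := by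
  classical
  induction S using Finset.induction_on with
  | empty => simpa using tconst U (1 : ℂ)
  | insert a S ha ih =>
    have e : (fun z => ∏ b ∈ insert a S, f b z) = fun z => f a z * ∏ b ∈ S, f b z := by
      funext z
      exact Finset.prod_insert ha
    rw [e]
    exact tmul (h a (Finset.mem_insert_self a S)) (ih fun b hb => h b (Finset.mem_insert_of_mem hb))

theorem tsigma {k : ℕ} (U : Set (Fin (k + 1) → ℝ)) (J : Finset (Fin k)) :
    Tempered U (fun z => Pool.Agent.Q48.MDS.sigma J z - 1) := by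
  refine ⟨((differentiable_sigma J).sub_const 1).differentiableOn, fun K _ hc => ?_⟩
  obtain ⟨C, hC⟩ := hc.exists_bound_of_continuousOn (continuous_rsig J).continuousOn
  refine ⟨|C| + 1 + (1 + k), 1, fun z hz => ?_⟩
  have h0 := one_le_nim z
  have h1 : ‖Pool.Agent.Q48.MDS.sigma J z - 1‖ ≤ |(Pool.Agent.Q48.MDS.sigma J z).re - 1| +
      |(Pool.Agent.Q48.MDS.sigma J z).im| := by
    have := Complex.norm_le_abs_re_add_abs_im (Pool.Agent.Q48.MDS.sigma J z - 1)
    simpa using this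
  have h2 : |(Pool.Agent.Q48.MDS.sigma J z).re - 1| ≤ |C| + 1 := by
    rw [sigma_re]
    have h3 := hC _ hz
    rw [Real.norm_eq_abs] at h3
    calc |rsig J (fun i => (z i).re) - 1| ≤ |rsig J (fun i => (z i).re)| + |1| := abs_sub _ _
      _ ≤ |C| + 1 := by rw [abs_one]; linarith [le_abs_self C]
  have h4 : ∀ i, |(z i).im| ≤ ‖fun i => (z i).im‖ := fun i =>
    norm_le_pi_norm (fun i => (z i).im) i
  have h3 : |(Pool.Agent.Q48.MDS.sigma J z).im| ≤ (1 + k) * ‖fun i => (z i).im‖ := by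
    have e : (Pool.Agent.Q48.MDS.sigma J z).im = (z 0).im + ∑ j ∈ J, (z j.succ).im := by
      unfold Pool.Agent.Q48.MDS.sigma
      rw [Complex.add_im, Complex.sub_im, Complex.im_sum]
      have : ((J.card : ℂ) / 2).im = 0 := by
        have : ((J.card : ℂ) / 2) = (((J.card : ℝ) / 2 : ℝ) : ℂ) := by push_cast; rfl
        rw [this, Complex.ofReal_im]
      rw [this, sub_zero]
    rw [e]
    have e2 : |∑ j ∈ J, (z j.succ).im| ≤ k * ‖fun i => (z i).im‖ := by
      refine (Finset.abs_sum_le_sum_abs _ _).trans ?_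
      refine (Finset.sum_le_sum fun j _ => h4 j.succ).trans ?_
      rw [Finset.sum_const, nsmul_eq_mul]
      have : (J.card : ℝ) ≤ k := by
        exact_mod_cast (Finset.card_le_univ J).trans_eq (Fintype.card_fin k)
      gcongr
    calc |(z 0).im + ∑ j ∈ J, (z j.succ).im| ≤ |(z 0).im| + |∑ j ∈ J, (z j.succ).im| :=
          abs_add_le _ _
      _ ≤ ‖fun i => (z i).im‖ + k * ‖fun i => (z i).im‖ := add_le_add (h4 0) e2
      _ = _ := by ring
  rw [pow_one]
  have hk : (0 : ℝ) ≤ k := Nat.cast_nonneg k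
  nlinarith [norm_nonneg (fun i => (z i).im), abs_nonneg C]

/-- `F1` is tempered where the series is dominated -/
theorem tempered_F1 {k M : ℕ} {U : Set (Fin (k + 1) → ℝ)} (hU : IsOpen U) (h : Dom U (tm k M)) :
    Tempered U (F1 k M) := by
  have h1 : Tempered U (A1 k M) := h.tempered hU fun d => (tm_diff k M d).differentiableOn
  exact tmul h1 (tprod _ fun J _ => tsigma U J)

/-- a criterion for the domination of the series -/
theorem dom_of {k M : ℕ} {U : Set (Fin (k + 1) → ℝ)} (α : ℝ → ℝ) (hα : Continuous α)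
    (h1 : ∀ x ∈ U, 1 < x 0 - ∑ j : Fin k, α (x j.succ))
    (h2 : ∀ K ⊆ U, IsCompact K → ∃ (C : ℝ) (N : ℕ), 0 ≤ C ∧ ∀ x ∈ K, ∀ j : Fin k, ∀ D : ℕ,
      FundDisc D → 1 < D → ∀ s : ℂ, s.re = x j.succ →
        ‖Lf D s‖ ≤ C * (1 + |s.im|) ^ N * (D : ℝ) ^ (α s.re)) :
    Dom U (tm k M) := by
  intro K hK hc
  obtain ⟨C, N, hC, hb⟩ := h2 K hK hc
  have hcont : Continuous (fun x : Fin (k + 1) → ℝ => x 0 - ∑ j : Fin k, α (x j.succ)) := by
    fun_prop
  obtain ⟨η, hη, hηK⟩ : ∃ η : ℝ, 1 < η ∧ ∀ x ∈ K, η ≤ x 0 - ∑ j : Fin k, α (x j.succ) := by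
    rcases K.eq_empty_or_nonempty with h0 | h0
    · exact ⟨2, by norm_num, by simp [h0]⟩
    · obtain ⟨x, hx, hmin⟩ := hc.exists_isMinOn h0 hcont.continuousOn
      exact ⟨_, h1 x (hK hx), fun y hy => hmin hy⟩
  refine ⟨C ^ k, η, N * k, by positivity, hη, fun z hz d => ?_⟩
  have h0 := one_le_nim z
  unfold tm
  split_ifs with hd1
  · rw [norm_zero]; positivity
  have hd := one_lt_of d.2 hd1
  have hd0 : (0 : ℝ) < ((d : ℕ) : ℝ) := by exact_mod_cast (by omega : 0 < (d : ℕ))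
  have hd1' : (1 : ℝ) ≤ ((d : ℕ) : ℝ) := by exact_mod_cast hd.le
  rw [norm_mul, norm_mul, Complex.norm_natCast_cpow_of_pos (by omega), Complex.neg_re, norm_prod]
  have e1 := norm_kron_le d M
  have e2 : ∏ j : Fin k, ‖Lf d (z j.succ)‖ ≤
      ∏ j : Fin k, (C * (1 + ‖fun i => (z i).im‖) ^ N * ((d : ℕ) : ℝ) ^ (α (z j.succ).re)) := by
    refine Finset.prod_le_prod (fun j _ => norm_nonneg _) fun j _ => ?_
    refine (hb _ hz j d d.2 hd (z j.succ) rfl).trans ?_
    have : |(z j.succ).im| ≤ ‖fun i => (z i).im‖ := norm_le_pi_norm (fun i => (z i).im) j.succ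
    gcongr
  have e3 : ∏ j : Fin k, (C * (1 + ‖fun i => (z i).im‖) ^ N * ((d : ℕ) : ℝ) ^ (α (z j.succ).re)) =
      C ^ k * (1 + ‖fun i => (z i).im‖) ^ (N * k) *
        ((d : ℕ) : ℝ) ^ (∑ j : Fin k, α (z j.succ).re) := by
    rw [Finset.prod_mul_distrib, Finset.prod_const, Finset.card_univ, Fintype.card_fin, mul_pow,
      ← pow_mul, Real.rpow_sum_of_pos hd0]
  rw [e3] at e2
  calc ‖((kron d M : ℤ) : ℂ)‖ * ((d : ℕ) : ℝ) ^ (-(z 0).re) * ∏ j : Fin k, ‖Lf d (z j.succ)‖
      ≤ 1 * ((d : ℕ) : ℝ) ^ (-(z 0).re) * (C ^ k * (1 + ‖fun i => (z i).im‖) ^ (N * k) *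
        ((d : ℕ) : ℝ) ^ (∑ j : Fin k, α (z j.succ).re)) := by gcongr
    _ = C ^ k * (1 + ‖fun i => (z i).im‖) ^ (N * k) *
        ((d : ℕ) : ℝ) ^ (-((z 0).re - ∑ j : Fin k, α (z j.succ).re)) := by
        rw [neg_sub, sub_eq_add_neg, Real.rpow_add hd0]
        ring
    _ ≤ C ^ k * (1 + ‖fun i => (z i).im‖) ^ (N * k) * ((d : ℕ) : ℝ) ^ (-η) := by
        have h9 := hηK _ hz
        have : ((d : ℕ) : ℝ) ^ (-((z 0).re - ∑ j : Fin k, α (z j.succ).re)) ≤
            ((d : ℕ) : ℝ) ^ (-η) :=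
          Real.rpow_le_rpow_of_exponent_le hd1' (by linarith)
        gcongr

/-- the region of the crude bound: it is invariant under the reflections -/
def V (k : ℕ) : Set (Fin (k + 1) → ℝ) := {x | ∀ J : Finset (Fin k), (k : ℝ) + 1 < rsig J x}

theorem isOpen_V (k : ℕ) : IsOpen (V k) := by
  have : V k = ⋂ J : Finset (Fin k), {x | (k : ℝ) + 1 < rsig J x} := by ext x; simp [V]
  rw [this]
  exact isOpen_iInter_of_finite fun J => isOpen_lt continuous_const (continuous_rsig _)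

theorem rsig_comb {k : ℕ} (J : Finset (Fin k)) (x y : Fin (k + 1) → ℝ) {a b : ℝ}
    (hab : a + b = 1) : rsig J (a • x + b • y) = a * rsig J x + b * rsig J y := by
  unfold rsig
  simp only [Pi.add_apply, Pi.smul_apply, smul_eq_mul, Finset.sum_add_distrib, ← Finset.mul_sum]
  linear_combination ((J.card : ℝ) / 2) * hab

theorem convex_V (k : ℕ) : Convex ℝ (V k) := by
  intro x hx y hy a b ha hb hab J
  rw [rsig_comb J x y hab]
  have := hx J
  have := hy J
  rcases eq_or_lt_of_le ha with h | h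
  · subst h
    have hb1 : b = 1 := by linarith
    subst hb1; linarith
  · nlinarith

theorem dom_V (k M : ℕ) : Dom (V k) (tm k M) := by
  refine dom_of (fun x => 1 + max 0 (1 / 2 - x)) (by fun_prop) (fun x hx => ?_) (fun K _ hc => ?_)
  · have h1 := hx (Finset.univ.filter fun j : Fin k => x j.succ ≤ 1 / 2)
    have h2 : rsig (Finset.univ.filter fun j : Fin k => x j.succ ≤ 1 / 2) x =
        x 0 - ∑ j : Fin k, max 0 (1 / 2 - x j.succ) := by
      unfold rsig
      have h3 : ∑ j : Fin k, max 0 (1 / 2 - x j.succ) =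
          ∑ j ∈ Finset.univ.filter (fun j : Fin k => x j.succ ≤ 1 / 2), (1 / 2 - x j.succ) := by
        rw [Finset.sum_filter]
        refine Finset.sum_congr rfl fun j _ => ?_
        split_ifs with h
        · exact max_eq_right (by linarith)
        · exact max_eq_left (by linarith)
      rw [h3, Finset.sum_sub_distrib, Finset.sum_const, nsmul_eq_mul]
      ring
    rw [h2] at h1
    rw [Finset.sum_add_distrib, Finset.sum_const, Finset.card_univ, Fintype.card_fin, nsmul_eq_mul,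
      mul_one]
    linarith
  · obtain ⟨B, hB⟩ := hc.isBounded.exists_norm_le
    obtain ⟨C, N, hC, hb⟩ := Lf_crude (max B 1) (le_max_right _ _)
    refine ⟨C, N, by linarith, fun x hx j D hD h1 s hs => ?_⟩
    refine hb D hD h1 s ?_
    rw [hs]
    exact ((norm_le_pi_norm x j.succ).trans (hB x hx)).trans (le_max_left _ _)

theorem dom_orth (k M : ℕ) : Dom (orth (k + 1)) (tm k M) := by
  refine dom_of (fun _ => 0) continuous_const (fun x hx => ?_) (fun K hK hc => ?_)
  · simpa using hx 0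
  · have h1 : ∀ j : Fin k, ∃ C : ℝ, 0 ≤ C ∧ ∀ x ∈ K, 1 + 1 / (x j.succ - 1) ≤ C := by
      intro j
      have hcn : ContinuousOn (fun x : Fin (k + 1) → ℝ => 1 + 1 / (x j.succ - 1)) K := by
        refine ContinuousOn.add continuousOn_const (ContinuousOn.div continuousOn_const
          (by fun_prop) fun x hx => ?_)
        have := hK hx j.succ
        exact (sub_pos.2 this).ne'
      obtain ⟨C, hC⟩ := hc.exists_bound_of_continuousOn hcn
      exact ⟨|C|, abs_nonneg _, fun x hx => (le_abs_self _).trans ((hC x hx).trans (le_abs_self _))⟩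
    choose C hC0 hC using h1
    refine ⟨∑ j, C j, 0, Finset.sum_nonneg fun j _ => hC0 j, fun x hx j D hD h1 s hs => ?_⟩
    have h3 : 1 < s.re := by rw [hs]; exact hK hx j.succ
    refine (Lf_right hD h1 h3).trans ?_
    rw [hs, pow_zero, mul_one, Real.rpow_zero, mul_one]
    exact (hC j x hx).trans (Finset.single_le_sum (fun i _ => hC0 i) (Finset.mem_univ j))

end Pool.Agent.V5helper62.MD
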